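import Mathlib

/-!
Definitions used in the statement: computably bounded classes, the dimensionality problem, and
representation up to permutation.
-/

set_option autoImplicit false

namespace Pool.Agent.Work.MP_02e4ca_lc.Problem

/-- A tree: a set of finite sequences closed under initial segments. -/
def IsTree (T : Set (List ℕ)) : Prop :=
  ∀ σ τ : List ℕ, σ <+: τ → τ ∈ T → σ ∈ T

/-- The set of infinite paths through `T`. -/
def paths (T : Set (List ℕ)) : Set (ℕ → ℕ) :=
  {x | ∀ n : ℕ, (List.range n).map x ∈ T}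

/-- `P` is a computably bounded `Π⁰₁` class. -/
def IsCBClass (P : Set (ℕ → ℕ)) : Prop :=
  ∃ T : Set (List ℕ), IsTree T ∧ ComputablePred (fun σ : List ℕ => σ ∈ T) ∧
    (∃ g : List ℕ → ℕ, Computable g ∧ ∀ (σ : List ℕ) (i : ℕ), σ ++ [i] ∈ T → i < g σ) ∧
    P = paths T

/-- `R` is a partial ordering of the set `A ⊆ ω` (as a set of pairs from `A`). -/
def IsPartialOrdering (A : Set ℕ) (R : ℕ → ℕ → Prop) : Prop :=
  (∀ a b, R a b → a ∈ A ∧ b ∈ A) ∧ (∀ a ∈ A, R a a) ∧ (∀ a b, R a b → R b a → a = b) ∧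
    (∀ a b c, R a b → R b c → R a c)

/-- `(A, R)` is a computable partial ordering. -/
def IsComputablePO (A : Set ℕ) (R : ℕ → ℕ → Prop) : Prop :=
  IsPartialOrdering A R ∧ ComputablePred (fun a : ℕ => a ∈ A) ∧
    ComputablePred (fun p : ℕ × ℕ => R p.1 p.2)

/-- `L` is a linear ordering of `A`. -/
def IsLinearOrdering (A : Set ℕ) (L : ℕ → ℕ → Prop) : Prop :=
  IsPartialOrdering A L ∧ ∀ a ∈ A, ∀ b ∈ A, L a b ∨ L b a

/-- The solutions of the `n`-dimensionality problem for `(A, R)`: the `n`-tuples of linear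
orderings of `A` whose intersection is `R`. -/
def Solutions (A : Set ℕ) (R : ℕ → ℕ → Prop) (n : ℕ) : Set (Fin n → ℕ → ℕ → Prop) :=
  {L | (∀ i, IsLinearOrdering A (L i)) ∧ ∀ a b, R a b ↔ a ∈ A ∧ b ∈ A ∧ ∀ i, L i a b}

open Classical in
/-- The characteristic function of `{⟨i, ⟨a, b⟩⟩ : a L_i b}`. -/
noncomputable def code {n : ℕ} (L : Fin n → ℕ → ℕ → Prop) : ℕ → ℕ :=
  fun k => if ∃ (i : Fin n) (a b : ℕ), k = Nat.pair i (Nat.pair a b) ∧ L i a b then 1 else 0

/-- Turing equivalence of total functions. -/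
def TuringEquiv (x y : ℕ → ℕ) : Prop :=
  TuringEquivalent (fun n => Part.some (x n)) (fun n => Part.some (y n))

/-- Two tuples of orderings are equal up to a permutation of their entries. -/
def SameUpToPerm {n : ℕ} (L L' : Fin n → ℕ → ℕ → Prop) : Prop :=
  ∃ π : Equiv.Perm (Fin n), ∀ i, L' i = L (π i)

/-- `P` represents the class of solutions of the `n`-dimensionality problem for `(A, R)`, where
solutions are counted up to permutation: there is a degree-preserving map `F` from the solutions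
onto `P` which identifies two solutions exactly when they differ by a permutation. -/
def RepresentsUpToPerm (P : Set (ℕ → ℕ)) (A : Set ℕ) (R : ℕ → ℕ → Prop) (n : ℕ) : Prop :=
  ∃ F : Solutions A R n → P, Function.Surjective F ∧
    (∀ s t, F s = F t ↔ SameUpToPerm s.1 t.1) ∧ ∀ s, TuringEquiv (F s).1 (code s.1)

end Pool.Agent.Work.MP_02e4ca_lc.Problem
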