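import Mathlib

/-!
Turing reductions between total functions through finite certificates.
-/

set_option autoImplicit false

namespace Pool.Agent.Work.MP_02e4ca_lc

/-- total function recursive in the oracle set -/
def CI (O : Set (ℕ →. ℕ)) (f : ℕ → ℕ) : Prop := Nat.RecursiveIn O (fun n => Part.some (f n))

/-- the least zero -/
def leastZero (f : ℕ → ℕ) (hex : ∀ a, ∃ n, f (Nat.pair a n) = 0) (a : ℕ) : ℕ := Nat.find (hex a)

theorem leastZero_spec (f : ℕ → ℕ) (hex : ∀ a, ∃ n, f (Nat.pair a n) = 0) (a : ℕ) :
    f (Nat.pair a (leastZero f hex a)) = 0 := Nat.find_spec (hex a)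

namespace CI

variable {O : Set (ℕ →. ℕ)}

theorem of_computable {f : ℕ → ℕ} (hf : Computable f) : CI O f :=
  RecursiveIn.iff_nat.mp hf.computableIn

theorem comp {f g : ℕ → ℕ} (hf : CI O f) (hg : CI O g) : CI O (fun n => f (g n)) := by
  have := Nat.RecursiveIn.comp hf hg
  refine this.of_eq ?_
  intro n
  simp

theorem pair {f g : ℕ → ℕ} (hf : CI O f) (hg : CI O g) :
    CI O (fun n => Nat.pair (f n) (g n)) := by
  have := Nat.RecursiveIn.pair hf hg
  refine this.of_eq ?_
  intro n
  simp [Seq.seq]

theorem prec {f h : ℕ → ℕ} (hf : CI O f) (hh : CI O h) :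
    CI O (fun p => Nat.rec (f p.unpair.1)
      (fun y IH => h (Nat.pair p.unpair.1 (Nat.pair y IH))) p.unpair.2) := by
  have := Nat.RecursiveIn.prec hf hh
  refine this.of_eq ?_
  intro p
  simp only
  generalize p.unpair.2 = m
  induction m with
  | zero => rfl
  | succ m ih => simp only [ih]; simp

theorem find {f : ℕ → ℕ} (hf : CI O f) (hex : ∀ a, ∃ n, f (Nat.pair a n) = 0) :
    CI O (leastZero f hex) := by
  have := Nat.RecursiveIn.rfind hf
  refine this.of_eq ?_
  intro a
  unfold leastZero
  rw [Part.eq_some_iff, Nat.mem_rfind]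
  refine ⟨?_, ?_⟩
  · simp [Nat.find_spec (hex a)]
  · intro m hm
    have := Nat.find_min (hex a) hm
    simp [this]

end CI

/-- the oracle -/
def orc (h : ℕ → ℕ) : ℕ →. ℕ := fun n => Part.some (h n)

theorem CI.orc (h : ℕ → ℕ) : CI {orc h} h := Nat.RecursiveIn.oracle _ rfl

/-- Turing reduction through certificates. -/
theorem cert_reducible (x h : ℕ → ℕ) (C : ℕ → ℕ → List (ℕ × ℕ)) (V : ℕ → ℕ → ℕ)
    (hC : Computable₂ C) (hV : Computable₂ V)
    (hex : ∀ n, ∃ s, ∀ p ∈ C n s, h p.1 = p.2)
    (hval : ∀ n s, (∀ p ∈ C n s, h p.1 = p.2) → V n s = x n) :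
    TuringReducible (fun n => Part.some (x n)) (fun n => Part.some (h n)) := by
  apply RecursiveIn.iff_nat.mpr
  change CI {fun n => Part.some (h n)} x
  have horc : CI {fun n => Part.some (h n)} h := CI.orc h
  generalize hO : ({fun n => Part.some (h n)} : Set (ℕ →. ℕ)) = O at horc
  -- the entries of the certificate
  have hC' : Computable (fun a : ℕ => C a.unpair.1 a.unpair.2) :=
    hC.comp (Primrec.fst.comp Primrec.unpair).to_comp (Primrec.snd.comp Primrec.unpair).to_comp
  have hget : Primrec₂ (fun (l : List (ℕ × ℕ)) (n : ℕ) => l.getD n (0, 0)) :=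
    Primrec.list_getD (0, 0)
  -- w = pair a (pair y i)
  have hent : Computable (fun w : ℕ =>
      (C w.unpair.1.unpair.1 w.unpair.1.unpair.2).getD w.unpair.2.unpair.1 (0, 0)) := by
    refine hget.to_comp.comp (hC'.comp (Primrec.fst.comp Primrec.unpair).to_comp) ?_
    exact (Primrec.fst.comp (Primrec.unpair.comp (Primrec.snd.comp Primrec.unpair))).to_comp
  have hq : CI O (fun w : ℕ =>
      ((C w.unpair.1.unpair.1 w.unpair.1.unpair.2).getD w.unpair.2.unpair.1 (0, 0)).1) :=
    CI.of_computable (Computable.fst.comp hent)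
  have hor : CI O (fun w : ℕ =>
      h ((C w.unpair.1.unpair.1 w.unpair.1.unpair.2).getD w.unpair.2.unpair.1 (0, 0)).1) :=
    horc.comp hq
  -- combine
  have hG : Computable (fun v : ℕ =>
      if v.unpair.2 = ((C v.unpair.1.unpair.1.unpair.1 v.unpair.1.unpair.1.unpair.2).getD
        v.unpair.1.unpair.2.unpair.1 (0, 0)).2 then v.unpair.1.unpair.2.unpair.2
      else v.unpair.1.unpair.2.unpair.2 + 1) := by
    have e1 : Computable (fun v : ℕ => v.unpair.1) := (Primrec.fst.comp Primrec.unpair).to_comp
    have e2 : Computable (fun v : ℕ => v.unpair.2) := (Primrec.snd.comp Primrec.unpair).to_comp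
    have e3 : Computable (fun v : ℕ =>
        ((C v.unpair.1.unpair.1.unpair.1 v.unpair.1.unpair.1.unpair.2).getD
        v.unpair.1.unpair.2.unpair.1 (0, 0)).2) := Computable.snd.comp (hent.comp e1)
    have e4 : Computable (fun v : ℕ => v.unpair.1.unpair.2.unpair.2) := e2.comp (e2.comp e1)
    have e5 : Computable₂ (fun (a b : ℕ) => decide (a = b)) :=
      (Primrec.eq (α := ℕ)).decide.to_comp
    refine (Computable.cond (e5.comp e2 e3) e4 (Computable.succ.comp e4)).of_eq ?_
    intro v
    by_cases hv : v.unpair.2 = ((C v.unpair.1.unpair.1.unpair.1 v.unpair.1.unpair.1.unpair.2).getD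
        v.unpair.1.unpair.2.unpair.1 (0, 0)).2 <;> simp [hv]
  have hstep : CI O (fun w : ℕ =>
      if h ((C w.unpair.1.unpair.1 w.unpair.1.unpair.2).getD w.unpair.2.unpair.1 (0, 0)).1 =
        ((C w.unpair.1.unpair.1 w.unpair.1.unpair.2).getD w.unpair.2.unpair.1 (0, 0)).2 then
        w.unpair.2.unpair.2 else w.unpair.2.unpair.2 + 1) := by
    have hid : CI O (fun w : ℕ => w) := CI.of_computable Computable.id
    have := (CI.of_computable (O := O) hG).comp (hid.pair hor)
    simpa using this
  have hprec := CI.prec (O := O) (f := fun _ => 0) (CI.of_computable (Computable.const 0)) hstep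
  -- number of mismatches
  let cnt : ℕ → ℕ → ℕ → ℕ := fun n s m => Nat.rec 0 (fun y IH =>
    if h ((C n s).getD y (0, 0)).1 = ((C n s).getD y (0, 0)).2 then IH else IH + 1) m
  have hcnt : CI O (fun p : ℕ => cnt p.unpair.1.unpair.1 p.unpair.1.unpair.2 p.unpair.2) := by
    have : (fun p : ℕ => cnt p.unpair.1.unpair.1 p.unpair.1.unpair.2 p.unpair.2) =
        (fun p => Nat.rec ((fun _ => 0) p.unpair.1)
      (fun y IH => (fun w : ℕ =>
      if h ((C w.unpair.1.unpair.1 w.unpair.1.unpair.2).getD w.unpair.2.unpair.1 (0, 0)).1 =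
        ((C w.unpair.1.unpair.1 w.unpair.1.unpair.2).getD w.unpair.2.unpair.1 (0, 0)).2 then
        w.unpair.2.unpair.2 else w.unpair.2.unpair.2 + 1)
          (Nat.pair p.unpair.1 (Nat.pair y IH))) p.unpair.2) := by
      funext p
      simp only [cnt, Nat.unpair_pair]
    rw [this]
    exact hprec
  have hlen : CI O (fun a : ℕ => (C a.unpair.1 a.unpair.2).length) :=
    CI.of_computable (Computable.list_length.comp hC')
  have htot : CI O (fun a : ℕ =>
      cnt a.unpair.1 a.unpair.2 (C a.unpair.1 a.unpair.2).length) := by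
    have hid : CI O (fun w : ℕ => w) := CI.of_computable Computable.id
    have := hcnt.comp (hid.pair hlen)
    simpa using this
  have hzero : ∀ n s m, cnt n s m = 0 ↔
      ∀ y < m, h ((C n s).getD y (0, 0)).1 = ((C n s).getD y (0, 0)).2 := by
    intro n s m
    induction m with
    | zero => simp [cnt]
    | succ m ih =>
      have hs : cnt n s (m + 1) = if h ((C n s).getD m (0, 0)).1 = ((C n s).getD m (0, 0)).2
        then cnt n s m else cnt n s m + 1 := rfl
      rw [hs]
      by_cases hm : h ((C n s).getD m (0, 0)).1 = ((C n s).getD m (0, 0)).2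
      · rw [if_pos hm, ih]
        constructor
        · intro h1 y hy
          rcases Nat.lt_succ_iff_lt_or_eq.mp hy with h2 | rfl
          · exact h1 y h2
          · exact hm
        · intro h1 y hy
          exact h1 y (by omega)
      · rw [if_neg hm]
        constructor
        · intro h1; omega
        · intro h1; exact absurd (h1 m (by omega)) hm
  have hzero' : ∀ n s, cnt n s (C n s).length = 0 ↔ ∀ p ∈ C n s, h p.1 = p.2 := by
    intro n s
    rw [hzero]
    constructor
    · intro h1 p hp
      obtain ⟨y, hy, rfl⟩ := List.mem_iff_getElem.mp hp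
      have := h1 y hy
      rwa [List.getD_eq_getElem _ _ hy] at this
    · intro h1 y hy
      rw [List.getD_eq_getElem _ _ hy]
      exact h1 _ (List.getElem_mem hy)
  let F : ℕ → ℕ := fun a : ℕ => cnt a.unpair.1 a.unpair.2 (C a.unpair.1 a.unpair.2).length
  have hF : CI O F := htot
  have hex' : ∀ a, ∃ s, F (Nat.pair a s) = 0 := by
    intro a
    obtain ⟨s, hs⟩ := hex a
    refine ⟨s, ?_⟩
    simp only [F, Nat.unpair_pair]
    exact (hzero' a s).mpr hs
  let fd : ℕ → ℕ := leastZero F hex'
  have hfd : CI O fd := CI.find hF hex'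
  have hfin : CI O (fun a => V a (fd a)) := by
    have hV' : Computable (fun a : ℕ => V a.unpair.1 a.unpair.2) :=
      hV.comp (Primrec.fst.comp Primrec.unpair).to_comp (Primrec.snd.comp Primrec.unpair).to_comp
    have hid : CI O (fun w : ℕ => w) := CI.of_computable Computable.id
    have := (CI.of_computable (O := O) hV').comp (hid.pair hfd)
    simpa using this
  have : (fun a => V a (fd a)) = x := by
    funext a
    apply hval
    have := leastZero_spec F hex' a
    simp only [F, Nat.unpair_pair] at this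
    exact (hzero' _ _).mp this
  rw [this] at hfin
  exact hfin

end Pool.Agent.Work.MP_02e4ca_lc
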