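import Mathlib

/-!
Finite sequences in the Kleene-Brouwer order, with infinite sequences as cuts.
-/

set_option autoImplicit false

namespace Pool.Agent.Work.MP_02e4ca_lc

/-- positions -/
abbrev PO := Lex (ℕ → WithTop ℕ)

/-- entries of a finite sequence, continued by the top element -/
def ent (σ : List ℕ) (n : ℕ) : WithTop ℕ := (σ[n]?).elim ⊤ WithTop.some

/-- position of a finite sequence -/
def hat (σ : List ℕ) : PO := toLex (ent σ)

/-- position of an infinite sequence -/
def hatp (c : ℕ → ℕ) : PO := toLex (fun n => WithTop.some (c n))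

theorem po_lt (a b : ℕ → WithTop ℕ) :
    toLex a < toLex b ↔ ∃ k, (∀ j < k, a j = b j) ∧ a k < b k := Iff.rfl

theorem ent_of_lt {σ : List ℕ} {n : ℕ} (h : n < σ.length) : ent σ n = WithTop.some (σ[n]) := by
  simp [ent, h]

theorem ent_of_ge {σ : List ℕ} {n : ℕ} (h : σ.length ≤ n) : ent σ n = ⊤ := by
  simp [ent, h]

theorem ent_lt_top {σ : List ℕ} {n : ℕ} (h : ent σ n < ⊤) : n < σ.length := by
  by_contra hge
  rw [ent_of_ge (not_lt.mp hge)] at h
  exact lt_irrefl _ h

theorem ent_append_left {σ ρ : List ℕ} {n : ℕ} (h : n < σ.length) : ent (σ ++ ρ) n = ent σ n := by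
  simp [ent, List.getElem?_append_left h]

theorem ent_append_length (σ ρ : List ℕ) (x : ℕ) : ent (σ ++ x :: ρ) σ.length = WithTop.some x := by
  simp [ent]

theorem ent_append_succ (σ ρ : List ℕ) (x y : ℕ) :
    ent (σ ++ x :: y :: ρ) (σ.length + 1) = WithTop.some y := by
  simp [ent]

theorem ent_injective {σ τ : List ℕ} (h : ∀ n, ent σ n = ent τ n) : σ = τ := by
  apply List.ext_getElem?
  intro n
  have := h n
  unfold ent at this
  rcases h1 : σ[n]? with _ | a <;> rcases h2 : τ[n]? with _ | b
  · rfl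
  · rw [h1, h2] at this
    simp at this
  · rw [h1, h2] at this
    simp at this
  · rw [h1, h2] at this
    simp only [Option.elim] at this
    rw [WithTop.coe_inj.mp this]

theorem hat_injective : Function.Injective hat := by
  intro σ τ h
  apply ent_injective
  intro n
  exact congrFun (toLex_inj.mp h) n

theorem hat_lt_hat {σ τ : List ℕ} :
    hat σ < hat τ ↔ ∃ k, (∀ j < k, ent σ j = ent τ j) ∧ ent σ k < ent τ k := Iff.rfl

theorem hat_lt_hatp {σ : List ℕ} {c : ℕ → ℕ} :
    hat σ < hatp c ↔ ∃ k, (∀ j < k, ent σ j = WithTop.some (c j)) ∧ ent σ k < WithTop.some (c k) :=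
  Iff.rfl

theorem hatp_lt_hat {σ : List ℕ} {c : ℕ → ℕ} :
    hatp c < hat σ ↔ ∃ k, (∀ j < k, WithTop.some (c j) = ent σ j) ∧ WithTop.some (c k) < ent σ k :=
  Iff.rfl

theorem hat_ne_hatp (σ : List ℕ) (c : ℕ → ℕ) : hat σ ≠ hatp c := by
  intro h
  have := congrFun (toLex_inj.mp h) σ.length
  rw [ent_of_ge le_rfl] at this
  simp at this

/-- a common tail lemma: an extension is smaller -/
theorem hat_append_cons_lt (σ ρ : List ℕ) (x : ℕ) : hat (σ ++ x :: ρ) < hat σ := by
  refine ⟨σ.length, ?_, ?_⟩
  · intro j hj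
    exact ent_append_left hj
  · change ent (σ ++ x :: ρ) σ.length < ent σ σ.length
    rw [ent_append_length, ent_of_ge le_rfl]
    exact WithTop.coe_lt_top _

theorem hat_dense {σ τ : List ℕ} (h : hat σ < hat τ) : ∃ ρ, hat σ < hat ρ ∧ hat ρ < hat τ := by
  obtain ⟨k, h1, h2⟩ := h
  change ∀ j < k, ent σ j = ent τ j at h1
  change ent σ k < ent τ k at h2
  rcases lt_or_ge k τ.length with hk | hk
  · refine ⟨τ ++ [0], ⟨k, ?_, ?_⟩, hat_append_cons_lt _ _ _⟩
    · intro j hj
      change ent σ j = ent (τ ++ [0]) j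
      rw [ent_append_left (hj.trans hk)]
      exact h1 j hj
    · change ent σ k < ent (τ ++ [0]) k
      rw [ent_append_left hk]
      exact h2
  · have hk2 : k < σ.length := ent_lt_top (lt_of_lt_of_le h2 le_top)
    have hkt : k = τ.length := by
      by_contra hne
      have hlt : τ.length < k := lt_of_le_of_ne hk (Ne.symm hne)
      have := h1 _ hlt
      rw [ent_of_ge (le_refl τ.length), ent_of_lt (hlt.trans hk2)] at this
      simp at this
    subst hkt
    refine ⟨τ ++ [σ[τ.length] + 1], ⟨τ.length, ?_, ?_⟩, hat_append_cons_lt _ _ _⟩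
    · intro j hj
      change ent σ j = ent (τ ++ _) j
      rw [ent_append_left hj]
      exact h1 j hj
    · change ent σ _ < ent (τ ++ _) _
      rw [ent_append_length, ent_of_lt hk2]
      exact WithTop.coe_lt_coe.mpr (Nat.lt_succ_self _)

theorem ent_map_range (c : ℕ → ℕ) (n j : ℕ) (h : j < n) :
    ent ((List.range n).map c) j = WithTop.some (c j) := by
  rw [ent_of_lt (by simpa using h)]
  simp

theorem above_cut {c : ℕ → ℕ} {τ : List ℕ} (h : hatp c < hat τ) :
    ∃ ρ, hatp c < hat ρ ∧ hat ρ < hat τ := by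
  obtain ⟨k, h1, h2⟩ := hatp_lt_hat.mp h
  refine ⟨(List.range (k + 1)).map c, ⟨k + 1, ?_, ?_⟩, ⟨k, ?_, ?_⟩⟩
  · intro j hj
    change WithTop.some (c j) = ent _ j
    rw [ent_map_range _ _ _ hj]
  · change WithTop.some (c (k + 1)) < ent _ (k + 1)
    rw [ent_of_ge (by simp)]
    exact WithTop.coe_lt_top _
  · intro j hj
    change ent _ j = ent τ j
    rw [ent_map_range _ _ _ (by omega)]
    exact h1 j hj
  · change ent _ k < ent τ k
    rw [ent_map_range _ _ _ (by omega)]
    exact h2

theorem below_cut {c : ℕ → ℕ} (hc : ∀ n, 0 < c n) {τ : List ℕ} (h : hat τ < hatp c) :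
    ∃ ρ, hat τ < hat ρ ∧ hat ρ < hatp c := by
  obtain ⟨k, h1, h2⟩ := hat_lt_hatp.mp h
  have hl : ((List.range (k + 1)).map c).length = k + 1 := by simp
  refine ⟨(List.range (k + 1)).map c ++ [0], ⟨k, ?_, ?_⟩, ⟨k + 1, ?_, ?_⟩⟩
  · intro j hj
    change ent τ j = ent _ j
    rw [ent_append_left (by rw [hl]; omega), ent_map_range _ _ _ (by omega)]
    exact h1 j hj
  · change ent τ k < ent _ k
    rw [ent_append_left (by rw [hl]; omega), ent_map_range _ _ _ (by omega)]
    exact h2
  · intro j hj
    change ent _ j = WithTop.some (c j)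
    rw [ent_append_left (by rw [hl]; omega), ent_map_range _ _ _ (by omega)]
  · change ent _ (k + 1) < WithTop.some (c (k + 1))
    have := ent_append_length ((List.range (k + 1)).map c) [] 0
    rw [hl] at this
    rw [this]
    exact WithTop.coe_lt_coe.mpr (hc _)

/-! ### The closure function -/

/-- shift up -/
def up (σ : List ℕ) : List ℕ := σ.map Nat.succ

/-- shift down -/
def dn (σ : List ℕ) : List ℕ := σ.map Nat.pred

theorem dn_up (σ : List ℕ) : dn (up σ) = σ := by
  simp [dn, up, List.map_map, Function.comp_def]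

theorem dn_append (σ τ : List ℕ) : dn (σ ++ τ) = dn σ ++ dn τ := by simp [dn]

theorem up_append (σ τ : List ℕ) : up (σ ++ τ) = up σ ++ up τ := by simp [up]

theorem zero_not_mem_up (σ : List ℕ) : 0 ∉ up σ := by simp [up]

/-- the upper end of the block which starts at `p ++ [i]` -/
def bfun (tT : List ℕ → Bool) (g : List ℕ → ℕ) (i : ℕ) (p : List ℕ) : List ℕ :=
  if up (dn p) = p ∧ tT (dn p) = true ∧ i ≤ g (dn p) then
    (if i < g (dn p) then (if tT (dn p ++ [i]) = true then p ++ [i + 1, 0] else p ++ [i + 1])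
      else p)
  else p ++ [i]

/-- hypotheses on the tree -/
structure TreeHyp (tT : List ℕ → Bool) (g : List ℕ → ℕ) : Prop where
  tree : ∀ σ τ, σ <+: τ → tT τ = true → tT σ = true
  nil : tT [] = true
  bd : ∀ σ i, tT (σ ++ [i]) = true → i < g σ

variable {tT : List ℕ → Bool} {g : List ℕ → ℕ}

theorem le_bfun (i : ℕ) (p : List ℕ) : hat (p ++ [i]) ≤ hat (bfun tT g i p) := by
  have key : ∀ ρ, hat (p ++ [i]) < hat (p ++ (i + 1) :: ρ) := by
    intro ρ
    refine ⟨p.length, ?_, ?_⟩
    · intro j hj
      change ent _ j = ent _ j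
      rw [ent_append_left hj, ent_append_left hj]
    · change ent _ _ < ent _ _
      rw [ent_append_length, ent_append_length]
      exact WithTop.coe_lt_coe.mpr (Nat.lt_succ_self _)
  unfold bfun
  split_ifs
  · exact (key [0]).le
  · exact (key []).le
  · exact (hat_append_cons_lt p [] i).le
  · exact le_rfl

theorem append_last_inj {p p' : List ℕ} {i i' : ℕ} (h : p ++ [i] = p' ++ [i']) :
    p = p' ∧ i = i' := by
  have := List.append_inj' h rfl
  exact ⟨this.1, by simpa using this.2⟩

theorem bfun_cases (i : ℕ) (p : List ℕ) :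
    (up (dn p) = p ∧ tT (dn p) = true ∧ i < g (dn p) ∧ tT (dn p ++ [i]) = true ∧
      bfun tT g i p = (p ++ [i + 1]) ++ [0]) ∨
    (up (dn p) = p ∧ tT (dn p) = true ∧ i < g (dn p) ∧ tT (dn p ++ [i]) ≠ true ∧
      bfun tT g i p = p ++ [i + 1]) ∨
    (up (dn p) = p ∧ tT (dn p) = true ∧ i = g (dn p) ∧ bfun tT g i p = p) ∨
    (¬ (up (dn p) = p ∧ tT (dn p) = true ∧ i ≤ g (dn p)) ∧ bfun tT g i p = p ++ [i]) := by
  unfold bfun
  split_ifs with h1 h2 h3
  · left; exact ⟨h1.1, h1.2.1, h2, h3, by simp⟩
  · right; left; exact ⟨h1.1, h1.2.1, h2, h3, rfl⟩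
  · right; right; left; exact ⟨h1.1, h1.2.1, le_antisymm h1.2.2 (not_lt.mp h2), rfl⟩
  · right; right; right; exact ⟨h1, rfl⟩

theorem bfun_inj_aux (hT : TreeHyp tT g) {i i' : ℕ} {p p' : List ℕ}
    (h : bfun tT g i p = bfun tT g i' p')
    (h4 : ¬ (up (dn p') = p' ∧ tT (dn p') = true ∧ i' ≤ g (dn p')))
    (h5 : bfun tT g i' p' = p' ++ [i'])
    (h6 : up (dn p) = p ∧ tT (dn p) = true ∧ i ≤ g (dn p)) : False := by
  rcases bfun_cases (tT := tT) (g := g) i p with ⟨a1, a2, a3, a4, a5⟩ | ⟨a1, a2, a3, a4, a5⟩ |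
    ⟨a1, a2, a3, a5⟩ | ⟨a1, a5⟩
  · rw [a5, h5] at h
    obtain ⟨e1, e2⟩ := append_last_inj h
    apply h4
    rw [← e1, ← e2, dn_append, up_append, a1]
    refine ⟨?_, ?_, Nat.zero_le _⟩
    · simp [dn, up]
    · have : dn [i + 1] = [i] := by simp [dn]
      rw [this]; exact a4
  · rw [a5, h5] at h
    obtain ⟨e1, e2⟩ := append_last_inj h
    apply h4
    rw [← e1, ← e2]
    exact ⟨a1, a2, a3⟩
  · rw [a5, h5] at h
    apply h4
    rw [h] at a1 a2
    rw [dn_append] at a1 a2
    rw [up_append] at a1
    have e := List.append_inj' a1 (by simp [up, dn])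
    have e1 : up (dn p') = p' := e.1
    have e2 : Nat.succ (Nat.pred i') = i' := by
      have := e.2
      simpa [up, dn] using this
    have e3 : dn [i'] = [Nat.pred i'] := rfl
    rw [e3] at a2
    refine ⟨e1, hT.tree _ _ (List.prefix_append _ _) a2, ?_⟩
    have := hT.bd _ _ a2
    omega
  · exact a1 h6

theorem bfun_injective (hT : TreeHyp tT g) {i i' : ℕ} {p p' : List ℕ}
    (h : bfun tT g i p = bfun tT g i' p') : i = i' ∧ p = p' := by
  have up_last : ∀ (q : List ℕ) (x : ℕ), up (dn (q ++ [x])) = q ++ [x] → x ≠ 0 := by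
    intro q x hq hx
    have h0 : (0 : ℕ) ∈ up (dn (q ++ [x])) := by rw [hq, hx]; simp
    exact zero_not_mem_up _ h0
  rcases bfun_cases (tT := tT) (g := g) i p with ⟨a1, a2, a3, a4, a5⟩ | ⟨a1, a2, a3, a4, a5⟩ |
    ⟨a1, a2, a3, a5⟩ | ⟨a1, a5⟩ <;>
  rcases bfun_cases (tT := tT) (g := g) i' p' with ⟨b1, b2, b3, b4, b5⟩ | ⟨b1, b2, b3, b4, b5⟩ |
    ⟨b1, b2, b3, b5⟩ | ⟨b1, b5⟩
  · rw [a5, b5] at h
    obtain ⟨e1, -⟩ := append_last_inj h
    obtain ⟨e2, e3⟩ := append_last_inj e1
    exact ⟨by omega, e2⟩
  · rw [a5, b5] at h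
    obtain ⟨-, e2⟩ := append_last_inj h
    omega
  · rw [a5, b5] at h
    rw [← h] at b1
    exact absurd rfl (up_last _ _ b1)
  · exact absurd (bfun_inj_aux hT h b1 b5 ⟨a1, a2, a3.le⟩) id
  · rw [a5, b5] at h
    obtain ⟨-, e2⟩ := append_last_inj h
    omega
  · rw [a5, b5] at h
    obtain ⟨e1, e2⟩ := append_last_inj h
    exact ⟨by omega, e1⟩
  · rw [a5, b5] at h
    rw [← h, dn_append] at b2
    have : dn [i + 1] = [i] := by simp [dn]
    rw [this] at b2
    exact absurd b2 a4
  · exact absurd (bfun_inj_aux hT h b1 b5 ⟨a1, a2, a3.le⟩) id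
  · rw [a5, b5] at h
    rw [h] at a1
    exact absurd rfl (up_last _ _ a1)
  · rw [a5, b5] at h
    rw [h, dn_append] at a2
    have : dn [i' + 1] = [i'] := by simp [dn]
    rw [this] at a2
    exact absurd a2 b4
  · rw [a5, b5] at h
    subst h
    exact ⟨by rw [a3, b3], rfl⟩
  · exact absurd (bfun_inj_aux hT h b1 b5 ⟨a1, a2, a3.le⟩) id
  · exact absurd (bfun_inj_aux hT h.symm a1 a5 ⟨b1, b2, b3.le⟩) id
  · exact absurd (bfun_inj_aux hT h.symm a1 a5 ⟨b1, b2, b3.le⟩) id
  · exact absurd (bfun_inj_aux hT h.symm a1 a5 ⟨b1, b2, b3.le⟩) id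
  · rw [a5, b5] at h
    obtain ⟨e1, e2⟩ := append_last_inj h
    exact ⟨e2, e1⟩

/-- every position is covered by a block -/
theorem exists_block (hT : TreeHyp tT g) (τ : List ℕ) :
    ∃ i p, hat (p ++ [i]) ≤ hat τ ∧ hat τ ≤ hat (bfun tT g i p) := by
  rcases List.eq_nil_or_concat τ with rfl | ⟨p, i, rfl⟩
  · refine ⟨g [], [], (hat_append_cons_lt [] [] _).le, ?_⟩
    have : bfun tT g (g []) [] = [] := by
      simp [bfun, up, dn, hT.nil]
    rw [this]
  · refine ⟨i, p, ?_, ?_⟩
    · simp
    · have := le_bfun (tT := tT) (g := g) i p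
      simpa using this

/-- The cuts closed under the blocks are the infinite paths. -/
theorem exists_path (F : Set (List ℕ))
    (hdown : ∀ σ τ, hat σ < hat τ → τ ∈ F → σ ∈ F) (h0 : [0] ∈ F) (hn : [] ∉ F)
    (hT : TreeHyp tT g) (hcl : ∀ i p, p ++ [i] ∈ F → bfun tT g i p ∈ F) :
    ∃ f : ℕ → ℕ, (∀ n, tT ((List.range n).map f) = true) ∧
      ∀ τ, τ ∈ F ↔ hat τ < hatp (fun n => f n + 1) := by
  have step : ∀ q : List ℕ, (tT q = true ∧ up q ∉ F ∧ up q ++ [0] ∈ F) →
      ∃ i, (tT (q ++ [i]) = true ∧ up (q ++ [i]) ∉ F ∧ up (q ++ [i]) ++ [0] ∈ F) ∧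
        up q ++ [i] ∈ F := by
    rintro q ⟨q1, q2, q3⟩
    have hex : ∃ i, up q ++ [i] ∉ F := by
      refine ⟨g q, fun hmem => ?_⟩
      have h1 := hcl _ _ hmem
      have h2 : bfun tT g (g q) (up q) = up q := by
        simp [bfun, dn_up, q1]
      rw [h2] at h1
      exact q2 h1
    classical
    have hg : up q ++ [g q] ∉ F := by
      intro hmem
      have h1 := hcl _ _ hmem
      have h2 : bfun tT g (g q) (up q) = up q := by
        simp [bfun, dn_up, q1]
      rw [h2] at h1
      exact q2 h1
    have hspec := Nat.find_spec hex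
    have hmin := fun m => Nat.find_min hex (m := m)
    have hle : Nat.find hex ≤ g q := Nat.find_min' hex hg
    obtain ⟨i, hi⟩ : ∃ i, Nat.find hex = i + 1 := by
      rcases Nat.eq_zero_or_pos (Nat.find hex) with h1 | h1
      · rw [h1] at hspec; exact absurd q3 hspec
      · exact ⟨Nat.find hex - 1, by omega⟩
    have hiF : up q ++ [i] ∈ F := by
      by_contra h1
      exact hmin i (by omega) h1
    rw [hi] at hspec
    have hlt : i < g q := by omega
    have hb := hcl _ _ hiF
    have e1 : up [i] = [i + 1] := by simp [up]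
    by_cases ht : tT (q ++ [i]) = true
    · refine ⟨i, ⟨ht, ?_, ?_⟩, hiF⟩
      · rw [up_append, e1]; exact hspec
      · have h2 : bfun tT g i (up q) = up q ++ [i + 1, 0] := by
          simp [bfun, dn_up, q1, ht, hlt, hlt.le]
        rw [h2] at hb
        rw [up_append, e1]
        simpa using hb
    · exfalso
      have h2 : bfun tT g i (up q) = up q ++ [i + 1] := by
        simp [bfun, dn_up, q1, ht, hlt, hlt.le]
      rw [h2] at hb
      exact hspec hb
  choose! c hc using step
  let s : ℕ → List ℕ := fun n => Nat.rec [] (fun _ q => q ++ [c q]) n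
  have hs : ∀ n, s (n + 1) = s n ++ [c (s n)] := fun n => rfl
  have hP : ∀ n, tT (s n) = true ∧ up (s n) ∉ F ∧ up (s n) ++ [0] ∈ F := by
    intro n
    induction n with
    | zero => exact ⟨hT.nil, hn, h0⟩
    | succ n ih => rw [hs]; exact (hc _ ih).1
  have hsr : ∀ n, s n = (List.range n).map (fun m => c (s m)) := by
    intro n
    induction n with
    | zero => rfl
    | succ n ih => rw [hs, List.range_succ, List.map_append, ← ih]; rfl
  have hslen : ∀ n, (up (s n)).length = n := by
    intro n
    rw [hsr n]; simp [up]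
  have hent : ∀ n j, j < n → ent (up (s n)) j = WithTop.some (c (s j) + 1) := by
    intro n j hj
    rw [ent_of_lt (by rw [hslen]; exact hj)]
    have : up (s n) = (List.range n).map (fun m => c (s m) + 1) := by
      rw [hsr n]
      simp [up, List.map_map, Function.comp_def]
    simp [this]
  refine ⟨fun n => c (s n), ?_, ?_⟩
  · intro n
    rw [← hsr n]
    exact (hP n).1
  · intro τ
    constructor
    · intro hτ
      by_contra hnot
      have hlt : hatp (fun n => c (s n) + 1) < hat τ := by
        rcases lt_trichotomy (hat τ) (hatp (fun n => c (s n) + 1)) with h1 | h1 | h1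
        · exact absurd h1 hnot
        · exact absurd h1 (hat_ne_hatp _ _)
        · exact h1
      obtain ⟨k, h1, h2⟩ := hatp_lt_hat.mp hlt
      have : hat (up (s (k + 1))) < hat τ := by
        refine ⟨k, ?_, ?_⟩
        · intro j hj
          exact (hent (k + 1) j (by omega)).trans (h1 j hj)
        · exact lt_of_eq_of_lt (hent (k + 1) k (by omega)) h2
      exact (hP (k + 1)).2.1 (hdown _ _ this hτ)
    · intro hτ
      obtain ⟨k, h1, h2⟩ := hat_lt_hatp.mp hτ
      have hkF : up (s k) ++ [c (s k)] ∈ F := (hc _ (hP k)).2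
      rcases lt_trichotomy (hat τ) (hat (up (s k) ++ [c (s k)])) with h3 | h3 | h3
      · exact hdown _ _ h3 hkF
      · rw [hat_injective h3]; exact hkF
      · exfalso
        obtain ⟨m, h4, h5⟩ := hat_lt_hat.mp h3
        have hlen : (up (s k) ++ [c (s k)]).length = k + 1 := by
          rw [List.length_append, hslen]; rfl
        rcases lt_trichotomy m k with hm | hm | hm
        · rw [ent_append_left (by rw [hslen]; exact hm), hent _ _ hm, h1 m hm] at h5
          exact lt_irrefl _ h5
        · subst hm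
          have e1 := ent_append_length (up (s m)) [] (c (s m))
          rw [hslen] at e1
          rw [e1] at h5
          have h6 := lt_of_lt_of_le h5 (le_refl (ent τ m))
          have h7 : ent τ m < WithTop.some (c (s m) + 1) := h2
          have hm' : m < τ.length := ent_lt_top (h7.trans (WithTop.coe_lt_top _))
          rw [ent_of_lt hm'] at h6 h7
          have h8 := WithTop.coe_lt_coe.mp h6
          have h9 := WithTop.coe_lt_coe.mp h7
          omega
        · rw [ent_of_ge (by rw [hlen]; omega)] at h5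
          exact absurd h5 (not_lt.mpr le_top)

/-- Paths are closed under the blocks. -/
theorem path_closed (hT : TreeHyp tT g) (f : ℕ → ℕ)
    (hf : ∀ n, tT ((List.range n).map f) = true) (i : ℕ) (p : List ℕ)
    (h : hat (p ++ [i]) < hatp (fun n => f n + 1)) :
    hat (bfun tT g i p) < hatp (fun n => f n + 1) := by
  obtain ⟨k, h1, h2⟩ := hat_lt_hatp.mp h
  have hk : k < (p ++ [i]).length := ent_lt_top (h2.trans (WithTop.coe_lt_top _))
  have hk' : k < p.length + 1 := by simpa using hk
  rcases lt_or_ge k p.length with hlt | hge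
  · -- everything that extends `p` is below
    have key : ∀ ρ, hat (p ++ ρ) < hatp (fun n => f n + 1) := by
      intro ρ
      refine ⟨k, ?_, ?_⟩
      · intro j hj
        change ent (p ++ ρ) j = _
        rw [ent_append_left (hj.trans hlt), ← ent_append_left (ρ := [i]) (hj.trans hlt)]
        exact h1 j hj
      · change ent (p ++ ρ) k < _
        rw [ent_append_left hlt, ← ent_append_left (ρ := [i]) hlt]
        exact h2
    rcases bfun_cases (tT := tT) (g := g) i p with ⟨-, -, -, -, a5⟩ | ⟨-, -, -, -, a5⟩ |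
      ⟨-, -, -, a5⟩ | ⟨-, a5⟩
    · rw [a5, List.append_assoc]; exact key _
    · rw [a5]; exact key _
    · rw [a5]; simpa using key []
    · rw [a5]; exact key _
  · have hkp : k = p.length := by omega
    subst hkp
    have e1 := ent_append_length p [] i
    rw [e1] at h2
    have hi : i < f p.length + 1 := WithTop.coe_lt_coe.mp h2
    have hp : p = up ((List.range p.length).map f) := by
      apply List.ext_getElem
      · simp [up]
      · intro j hj1 hj2
        have h3 := h1 j hj1
        rw [ent_append_left hj1, ent_of_lt hj1] at h3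
        have h4 := WithTop.coe_inj.mp h3
        rw [h4]
        simp [up]
    have hdn : dn p = (List.range p.length).map f := by
      conv_lhs => rw [hp]
      rw [dn_up]
    have hfg : f p.length < g (dn p) := by
      apply hT.bd
      have := hf (p.length + 1)
      rw [List.range_succ, List.map_append] at this
      rw [hdn]
      exact this
    rcases bfun_cases (tT := tT) (g := g) i p with ⟨a1, a2, a3, a4, a5⟩ | ⟨a1, a2, a3, a4, a5⟩ |
      ⟨a1, a2, a3, a5⟩ | ⟨a1, a5⟩
    · rw [a5, List.append_assoc]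
      rcases Nat.lt_succ_iff_lt_or_eq.mp hi with h3 | h3
      · refine ⟨p.length, ?_, ?_⟩
        · intro j hj
          change ent _ j = _
          rw [ent_append_left hj, ← ent_append_left (ρ := [i]) hj]
          exact h1 j hj
        · change ent (p ++ (i + 1) :: ([] ++ [0])) _ < _
          rw [ent_append_length]
          refine WithTop.coe_lt_coe.mpr ?_
          change i + 1 < f p.length + 1
          omega
      · refine ⟨p.length + 1, ?_, ?_⟩
        · intro j hj
          change ent (p ++ (i + 1) :: ([] ++ [0])) j = _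
          rcases Nat.lt_succ_iff_lt_or_eq.mp hj with h4 | h4
          · rw [ent_append_left h4, ← ent_append_left (ρ := [i]) h4]
            exact h1 j h4
          · subst h4
            rw [ent_append_length, h3]
            rfl
        · change ent (p ++ (i + 1) :: 0 :: []) _ < _
          rw [ent_append_succ]
          refine WithTop.coe_lt_coe.mpr ?_
          exact Nat.succ_pos _
    · rw [a5]
      have hne : i ≠ f p.length := by
        rintro rfl
        apply a4
        have := hf (p.length + 1)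
        rw [List.range_succ, List.map_append] at this
        rw [hdn]
        exact this
      refine ⟨p.length, ?_, ?_⟩
      · intro j hj
        change ent _ j = _
        rw [ent_append_left hj, ← ent_append_left (ρ := [i]) hj]
        exact h1 j hj
      · change ent (p ++ (i + 1) :: []) _ < _
        rw [ent_append_length]
        refine WithTop.coe_lt_coe.mpr ?_
        change i + 1 < f p.length + 1
        omega
    · omega
    · rw [a5]; exact h

theorem zero_lt_path (f : ℕ → ℕ) : hat [0] < hatp (fun n => f n + 1) := by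
  refine ⟨0, fun j hj => absurd hj (Nat.not_lt_zero _), ?_⟩
  change ent ([] ++ 0 :: []) ([] : List ℕ).length < _
  rw [ent_append_length]
  exact WithTop.coe_lt_coe.mpr (Nat.succ_pos _)

theorem path_lt_nil (c : ℕ → ℕ) : hatp c < hat [] := by
  refine ⟨0, fun j hj => absurd hj (Nat.not_lt_zero _), ?_⟩
  change _ < ent [] 0
  rw [ent_of_ge (by simp)]
  exact WithTop.coe_lt_top _

end Pool.Agent.Work.MP_02e4ca_lc
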