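import Mathlib

/-!
A dense generic subset of the positive octant pins all coordinate orders of a three dimensional
poset, up to a permutation of the coordinates.
-/

set_option autoImplicit false

namespace Pool.Agent.Work.MP_02e4ca_lc

/-- strict linear orders -/
structure SLO {X : Type*} (lt : X → X → Prop) : Prop where
  irrefl : ∀ x, ¬ lt x x
  trans : ∀ {x y z}, lt x y → lt y z → lt x z
  total : ∀ {x y}, x ≠ y → lt x y ∨ lt y x

theorem SLO.asymm {X : Type*} {lt : X → X → Prop} (h : SLO lt) {x y : X} (h1 : lt x y) :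
    ¬ lt y x := fun h2 => h.irrefl x (h.trans h1 h2)

/-- the data of a frame and a realizer -/
structure Frame {X : Type*} (pos : Fin 3 → X → ℚ) (D : Set X) (R : X → X → Prop)
    (lt : Fin 3 → X → X → Prop) : Prop where
  pos_pos : ∀ i x, 0 < pos i x
  dense : ∀ u v : Fin 3 → ℚ, (∀ i, 0 ≤ u i) → (∀ i, u i < v i) →
    ∃ d ∈ D, ∀ i, u i < pos i d ∧ pos i d < v i
  inj : ∀ i, ∀ d ∈ D, ∀ d' ∈ D, pos i d = pos i d' → d = d'
  r1 : ∀ x, ∀ d ∈ D, (∀ i, pos i x < pos i d) → R x d
  r2 : ∀ d ∈ D, ∀ x, (∀ i, pos i d < pos i x) → R d x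
  r3 : ∀ d ∈ D, ∀ d' ∈ D, R d d' → ∀ i, pos i d < pos i d'
  slo : ∀ k, SLO (lt k)
  rel : ∀ x y, x ≠ y → (R x y ↔ ∀ k, lt k x y)

variable {X : Type*} {pos : Fin 3 → X → ℚ} {D : Set X} {R : X → X → Prop}
  {lt : Fin 3 → X → X → Prop}

/-- `(x, y)` is a pair of type `i` straddling `p` -/
def Str (pos : Fin 3 → X → ℚ) (D : Set X) (p : Fin 3 → ℚ) (i : Fin 3) (x y : X) : Prop :=
  x ∈ D ∧ y ∈ D ∧ pos i y < p i ∧ p i < pos i x ∧ ∀ j, j ≠ i → pos j x < p j ∧ p j < pos j y

theorem Frame.lt1 (h : Frame pos D R lt) {x d : X} (hd : d ∈ D) (hx : ∀ i, pos i x < pos i d)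
    (k : Fin 3) : lt k x d := by
  have hne : x ≠ d := fun h1 => by subst h1; exact lt_irrefl _ (hx 0)
  exact (h.rel x d hne).mp (h.r1 x d hd hx) k

theorem Frame.lt2 (h : Frame pos D R lt) {x d : X} (hd : d ∈ D) (hx : ∀ i, pos i d < pos i x)
    (k : Fin 3) : lt k d x := by
  have hne : d ≠ x := fun h1 => by subst h1; exact lt_irrefl _ (hx 0)
  exact (h.rel d x hne).mp (h.r2 d hd x hx) k

theorem Frame.exists_rev (h : Frame pos D R lt) {x y : X} (hx : x ∈ D) (hy : y ∈ D) {i : Fin 3}
    (hi : pos i y < pos i x) : ∃ k, lt k y x := by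
  have hne : x ≠ y := fun h1 => by subst h1; exact lt_irrefl _ hi
  have h1 : ¬ R x y := fun h2 => by
    have := h.r3 x hx y hy h2 i
    exact absurd this (not_lt.mpr hi.le)
  rw [h.rel x y hne] at h1
  push Not at h1
  obtain ⟨k, hk⟩ := h1
  refine ⟨k, ?_⟩
  rcases (h.slo k).total hne with h2 | h2
  · exact absurd h2 hk
  · exact h2

/-- points of `D` below finitely many bounds off `i` and between bounds at `i` -/
theorem Frame.exists_low (h : Frame pos D R lt) (i : Fin 3) (a b : ℚ) (ha : 0 ≤ a) (hab : a < b)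
    (c : Fin 3 → ℚ) (hc : ∀ j, 0 < c j) :
    ∃ x ∈ D, a < pos i x ∧ pos i x < b ∧ ∀ j, j ≠ i → pos j x < c j := by
  obtain ⟨x, hx, h1⟩ := h.dense (fun j => if j = i then a else 0)
    (fun j => if j = i then b else c j)
    (fun j => by by_cases hj : j = i <;> simp [hj, ha])
    (fun j => by by_cases hj : j = i <;> simp [hj, hab, hc])
  refine ⟨x, hx, ?_, ?_, ?_⟩
  · simpa using (h1 i).1
  · simpa using (h1 i).2
  · intro j hj
    simpa [hj] using (h1 j).2

theorem Frame.exists_high (h : Frame pos D R lt) (i : Fin 3) (a b : ℚ) (ha : 0 ≤ a) (hab : a < b)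
    (c : Fin 3 → ℚ) (hc : ∀ j, 0 ≤ c j) :
    ∃ x ∈ D, a < pos i x ∧ pos i x < b ∧ ∀ j, j ≠ i → c j < pos j x := by
  obtain ⟨x, hx, h1⟩ := h.dense (fun j => if j = i then a else c j)
    (fun j => if j = i then b else c j + 1)
    (fun j => by by_cases hj : j = i <;> simp [hj, ha, hc])
    (fun j => by by_cases hj : j = i <;> simp [hj, hab])
  refine ⟨x, hx, ?_, ?_, ?_⟩
  · simpa using (h1 i).1
  · simpa using (h1 i).2
  · intro j hj
    simpa [hj] using (h1 j).1

theorem Frame.exists_str (h : Frame pos D R lt) (p : Fin 3 → ℚ) (hp : ∀ i, 0 < p i) (i : Fin 3) :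
    ∃ x y, Str pos D p i x y := by
  obtain ⟨x, hx, h1, -, h2⟩ := h.exists_low i (p i) (p i + 1) (hp i).le (by linarith) p hp
  obtain ⟨y, hy, -, h3, h4⟩ := h.exists_high i 0 (p i) le_rfl (hp i) p (fun j => (hp j).le)
  exact ⟨x, y, hx, hy, h3, h1, fun j hj => ⟨h2 j hj, h4 j hj⟩⟩

theorem Frame.claimA (h : Frame pos D R lt) (p : Fin 3 → ℚ) (hp : ∀ i, 0 < p i) (i : Fin 3) :
    ∃ k, ∀ x y, Str pos D p i x y → lt k y x := by
  by_contra hcon
  push Not at hcon
  choose xs ys hs hn using hcon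
  -- bounds
  let lo : Fin 3 → ℚ := fun j => min (pos j (xs 0)) (min (pos j (xs 1)) (pos j (xs 2)))
  let hi : Fin 3 → ℚ := fun j => max (pos j (ys 0)) (max (pos j (ys 1)) (pos j (ys 2)))
  have hlo : ∀ j k, lo j ≤ pos j (xs k) := by
    intro j k
    fin_cases k
    · exact min_le_left _ _
    · exact (min_le_right _ _).trans (min_le_left _ _)
    · exact (min_le_right _ _).trans (min_le_right _ _)
  have hhi : ∀ j k, pos j (ys k) ≤ hi j := by
    intro j k
    fin_cases k
    · exact le_max_left _ _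
    · exact (le_max_left _ _).trans (le_max_right _ _)
    · exact (le_max_right _ _).trans (le_max_right _ _)
  have hlo0 : ∀ j, 0 < lo j := fun j =>
    lt_min (h.pos_pos _ _) (lt_min (h.pos_pos _ _) (h.pos_pos _ _))
  have hhi0 : ∀ j, 0 ≤ hi j := fun j => (h.pos_pos j (ys 0)).le.trans (hhi j 0)
  have hloi : p i < lo i := lt_min (hs 0).2.2.2.1 (lt_min (hs 1).2.2.2.1 (hs 2).2.2.2.1)
  have hhii : hi i < p i := max_lt (hs 0).2.2.1 (max_lt (hs 1).2.2.1 (hs 2).2.2.1)
  obtain ⟨x, hx, h1, h2, h3⟩ := h.exists_low i (p i) (lo i) (hp i).le hloi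
    (fun j => min (p j) (lo j)) (fun j => lt_min (hp j) (hlo0 j))
  obtain ⟨y, hy, h4, h5, h6⟩ := h.exists_high i (hi i) (p i) (hhi0 i) hhii
    (fun j => max (p j) (hi j)) (fun j => (hp j).le.trans (le_max_left _ _))
  have hxk : ∀ k j, pos j x < pos j (xs k) := by
    intro k j
    by_cases hj : j = i
    · subst hj; exact h2.trans_le (hlo _ _)
    · exact ((h3 j hj).trans_le (min_le_right _ _)).trans_le (hlo _ _)
  have hyk : ∀ k j, pos j (ys k) < pos j y := by
    intro k j
    by_cases hj : j = i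
    · subst hj; exact (hhi _ _).trans_lt h4
    · exact (hhi _ _).trans_lt ((le_max_right _ _).trans_lt (h6 j hj))
  obtain ⟨k, hk⟩ := h.exists_rev hx hy (h5.trans h1)
  have e1 : lt k x (xs k) := h.lt1 (hs k).1 (hxk k) k
  have e2 : lt k (ys k) y := h.lt2 (hs k).2.1 (hyk k) k
  exact hn k ((h.slo k).trans e2 ((h.slo k).trans hk e1))

theorem Frame.claimB (h : Frame pos D R lt) (p : Fin 3 → ℚ) (hp : ∀ i, 0 < p i) (i k : Fin 3)
    (hk : ∀ x y, Str pos D p i x y → lt k y x) (j : Fin 3) (hj : j ≠ i) (x' y' : X)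
    (hs : Str pos D p j x' y') : ¬ lt k y' x' := by
  intro hlt
  have hi := hs.2.2.2.2 i (Ne.symm hj)
  obtain ⟨x, hx, h1, h2, h3⟩ := h.exists_low i (p i) (pos i y') (hp i).le hi.2
    (fun l => min (p l) (pos l y')) (fun l => lt_min (hp l) (h.pos_pos _ _))
  obtain ⟨y, hy, h4, h5, h6⟩ := h.exists_high i (pos i x') (p i) (h.pos_pos _ _).le hi.1
    (fun l => max (p l) (pos l x')) (fun l => (hp l).le.trans (le_max_left _ _))
  have hstr : Str pos D p i x y :=
    ⟨hx, hy, h5, h1, fun l hl => ⟨(h3 l hl).trans_le (min_le_left _ _),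
      (le_max_left _ _).trans_lt (h6 l hl)⟩⟩
  have e0 : lt k y x := hk x y hstr
  have e1 : lt k x y' := h.lt1 hs.2.1 (fun l => by
    by_cases hl : l = i
    · subst hl; exact h2
    · exact (h3 l hl).trans_le (min_le_right _ _)) k
  have e2 : lt k x' y := h.lt2 hs.1 (fun l => by
    by_cases hl : l = i
    · subst hl; exact h4
    · exact (le_max_right _ _).trans_lt (h6 l hl)) k
  have := (h.slo k).trans e0 ((h.slo k).trans e1 ((h.slo k).trans hlt e2))
  exact (h.slo k).irrefl _ this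

/-- the permutation -/
theorem Frame.exists_perm (h : Frame pos D R lt) :
    ∃ π : Equiv.Perm (Fin 3), ∀ i, ∀ p : Fin 3 → ℚ, (∀ j, 0 < p j) →
      ∀ x y, Str pos D p i x y → lt (π i) y x := by
  have hA : ∀ q : {p : Fin 3 → ℚ // ∀ j, 0 < p j}, ∀ i, ∃ k, ∀ x y,
      Str pos D q.1 i x y → lt k y x := fun q i => h.claimA q.1 q.2 i
  choose k hk using hA
  have hinj : ∀ q, Function.Injective (k q) := by
    intro q i j hij
    by_contra hne
    obtain ⟨x, y, hxy⟩ := h.exists_str q.1 q.2 j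
    have h1 := hk q j x y hxy
    rw [← hij] at h1
    exact h.claimB q.1 q.2 i (k q i) (hk q i) j (Ne.symm hne) x y hxy h1
  let q0 : {p : Fin 3 → ℚ // ∀ j, 0 < p j} := ⟨fun _ => 1, fun _ => one_pos⟩
  have hbij : ∀ q, Function.Bijective (k q) := fun q => Finite.injective_iff_bijective.mp (hinj q)
  refine ⟨Equiv.ofBijective (k q0) (hbij q0), ?_⟩
  intro i p hp
  simp only [Equiv.ofBijective_apply]
  let q : {p : Fin 3 → ℚ // ∀ j, 0 < p j} := ⟨p, hp⟩
  obtain ⟨i', hi'⟩ := (hbij q).2 (k q0 i)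
  have hii : i' = i := by
    by_contra hne
    obtain ⟨x, hx, h1, -, h2⟩ := h.exists_low i (max (p i) 1) (max (p i) 1 + 1)
      ((hp i).le.trans (le_max_left _ _)) (by linarith) (fun j => min (p j) 1)
      (fun j => lt_min (hp j) one_pos)
    obtain ⟨y, hy, -, h3, h4⟩ := h.exists_high i 0 (min (p i) 1) le_rfl
      (lt_min (hp i) one_pos) (fun j => max (p j) 1) (fun j => (hp j).le.trans (le_max_left _ _))
    have s1 : Str pos D p i x y := ⟨hx, hy, h3.trans_le (min_le_left _ _),
      (le_max_left _ _).trans_lt h1, fun j hj => ⟨(h2 j hj).trans_le (min_le_left _ _),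
      (le_max_left _ _).trans_lt (h4 j hj)⟩⟩
    have s2 : Str pos D (fun _ => (1 : ℚ)) i x y := ⟨hx, hy, h3.trans_le (min_le_right _ _),
      (le_max_right _ _).trans_lt h1, fun j hj => ⟨(h2 j hj).trans_le (min_le_right _ _),
      (le_max_right _ _).trans_lt (h4 j hj)⟩⟩
    have e1 : lt (k q0 i) y x := hk q0 i x y s2
    have e2 := h.claimB p hp i' (k q i') (hk q i') i (Ne.symm hne) x y s1
    rw [hi'] at e2
    exact e2 e1
  subst hii
  rw [← hi']
  exact hk q i'

theorem third (i j : Fin 3) (h : j ≠ i) :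
    ∃ l, l ≠ i ∧ l ≠ j ∧ ∀ m, m = i ∨ m = j ∨ m = l := by
  revert i j; decide

theorem Frame.pin_D (h : Frame pos D R lt) {π : Equiv.Perm (Fin 3)}
    (hπ : ∀ i, ∀ p : Fin 3 → ℚ, (∀ j, 0 < p j) → ∀ x y, Str pos D p i x y → lt (π i) y x)
    (i : Fin 3) {x y : X} (hx : x ∈ D) (hy : y ∈ D) (hxy : pos i x < pos i y) :
    lt (π i) x y := by
  have hne : x ≠ y := fun h1 => by subst h1; exact lt_irrefl _ hxy
  by_cases hall : ∀ j, pos j x < pos j y
  · exact h.lt1 hy hall _
  · push Not at hall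
    obtain ⟨j, hj⟩ := hall
    have hj' : pos j y < pos j x := lt_of_le_of_ne hj (fun h1 => hne (h.inj j x hx y hy h1.symm))
    have hij : j ≠ i := fun h1 => by subst h1; exact absurd hxy (not_lt.mpr hj)
    let p : Fin 3 → ℚ := fun m => (pos m x + pos m y) / 2
    have hp : ∀ m, 0 < p m := fun m => by
      have h1 := h.pos_pos m x
      have h2 := h.pos_pos m y
      simp only [p]; linarith
    obtain ⟨l, hl1, hl2, hcov⟩ := third i j hij
    rcases lt_trichotomy (pos l x) (pos l y) with h3 | h3 | h3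
    · -- type j pair (x, y)
      have hs : Str pos D p j x y := by
        refine ⟨hx, hy, ?_, ?_, ?_⟩
        · simp only [p]; linarith
        · simp only [p]; linarith
        · intro m hm
          rcases hcov m with rfl | rfl | rfl
          · constructor <;> · simp only [p]; linarith
          · exact absurd rfl hm
          · constructor <;> · simp only [p]; linarith
      have h4 := h.claimB p hp i (π i) (hπ i p hp) j hij x y hs
      rcases (h.slo (π i)).total hne with h5 | h5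
      · exact h5
      · exact absurd h5 h4
    · exact absurd (h.inj l x hx y hy h3) hne
    · have hs : Str pos D p i y x := by
        refine ⟨hy, hx, ?_, ?_, ?_⟩
        · simp only [p]; linarith
        · simp only [p]; linarith
        · intro m hm
          rcases hcov m with rfl | rfl | rfl
          · exact absurd rfl hm
          · constructor <;> · simp only [p]; linarith
          · constructor <;> · simp only [p]; linarith
      exact hπ i p hp y x hs

/-- Coordinates are pinned up to a permutation. -/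
theorem Frame.pin (h : Frame pos D R lt) :
    ∃ π : Equiv.Perm (Fin 3), ∀ i x y, pos i x < pos i y → lt (π i) x y := by
  obtain ⟨π, hπ⟩ := h.exists_perm
  refine ⟨π, ?_⟩
  intro i x y hxy
  let m : ℚ := (pos i x + pos i y) / 2
  have hm1 : pos i x < m := by simp only [m]; linarith
  have hm2 : m < pos i y := by simp only [m]; linarith
  have hm0 : 0 < m := (h.pos_pos i x).trans hm1
  obtain ⟨d, hd, h1, h2, h3⟩ := h.exists_high i (pos i x) m (h.pos_pos _ _).le hm1
    (fun j => pos j x) (fun j => (h.pos_pos _ _).le)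
  obtain ⟨d', hd', h4, h5, h6⟩ := h.exists_low i m (pos i y) hm0.le hm2
    (fun j => pos j y) (fun j => h.pos_pos _ _)
  have e1 : lt (π i) x d := h.lt1 hd (fun j => by
    by_cases hj : j = i
    · subst hj; exact h1
    · exact h3 j hj) _
  have e2 : lt (π i) d d' := h.pin_D hπ i hd hd' (h2.trans h4)
  have e3 : lt (π i) d' y := h.lt2 hd' (fun j => by
    by_cases hj : j = i
    · subst hj; exact h5
    · exact h6 j hj) _
  exact (h.slo _).trans e1 ((h.slo _).trans e2 e3)

end Pool.Agent.Work.MP_02e4ca_lc
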