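import Mathlib
import Pool.Agent.Work.MP_02e4ca_lc.Rigid
import Pool.Agent.Work.MP_02e4ca_lc.Order

/-!
The elements of the partial ordering, their coordinates and the key orders.
-/

set_option autoImplicit false

namespace Pool.Agent.Work.MP_02e4ca_lc

/-- elements -/
abbrev X := ℕ × List ℕ

/-- the kind of an element: 0 frame, 1 alpha, 2 beta, 3 gamma, 4 delta, 5 and 6 end markers,
7 the moving element -/
def kind (x : X) : ℕ :=
  if x.1 = 1 then 1 else if x.1 = 2 then 2 else if x.1 = 3 then 3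
  else if x.1 = 4 then (if x.2 = [] then 0 else 4)
  else if x.1 = 5 then (if x.2 = [] then 5 else 0)
  else if x.1 = 6 then (if x.2 = [] then 6 else 0)
  else if x.1 = 7 then (if x.2 = [] then 7 else 0)
  else 0

/-- fibre table -/
def fibT (i : Fin 3) : List ℕ := ![[0, 1, 0, 1, 1, 1, 0, 1], [0, 0, 1, 1, 1, 0, 1, 1], []] i

/-- coordinate table -/
def baseT (i : Fin 3) : List ℕ :=
  ![[0, 0, 1, 0, 0, 0, 0, 0], [0, 1, 0, 0, 0, 0, 0, 0], [0, 3, 4, 5, 1, 0, 0, 2]] i

/-- tag table -/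
def tagT (i : Fin 3) : List ℕ := ![[0, 2, 0, 1, 0, 3, 0, 0], [0, 0, 2, 1, 0, 0, 3, 0], []] i

/-- in the fibre -/
def isF (i : Fin 3) (x : X) : Prop := (fibT i).getD (kind x) 0 = 1

instance (i : Fin 3) (x : X) : Decidable (isF i x) := by unfold isF; infer_instance

/-- integer coordinate -/
def crd (i : Fin 3) (x : X) : ℕ :=
  if kind x = 0 then x.2.getD i.val 0 else (baseT i).getD (kind x) 0

/-- level -/
def lev (x : X) : ℕ := if kind x = 0 then x.2.getD 3 0 else 0

/-- exponent -/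
def big (x : X) : ℕ := Nat.pair (Encodable.encode x) (lev x)

/-- numerator -/
def num (i : Fin 3) (x : X) : ℕ := if isF i x then 2 else crd i x * 2 ^ (big x + 1 - lev x) + 1

/-- denominator -/
def den (i : Fin 3) (x : X) : ℕ := if isF i x then 1 else 2 ^ (big x + 1)

/-- coordinate -/
def pos (i : Fin 3) (x : X) : ℚ := (num i x : ℚ) / (den i x : ℚ)

theorem lev_le_big (x : X) : lev x ≤ big x := Nat.right_le_pair _ _

theorem den_pos (i : Fin 3) (x : X) : 0 < den i x := by
  unfold den; split_ifs <;> positivity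

theorem pos_lt_iff (i : Fin 3) (x y : X) :
    pos i x < pos i y ↔ num i x * den i y < num i y * den i x := by
  unfold pos
  rw [div_lt_div_iff₀ (by exact_mod_cast den_pos i x) (by exact_mod_cast den_pos i y)]
  norm_cast

theorem pos_eq_iff (i : Fin 3) (x y : X) :
    pos i x = pos i y ↔ num i x * den i y = num i y * den i x := by
  unfold pos
  rw [div_eq_div_iff (by exact_mod_cast (den_pos i x).ne') (by exact_mod_cast (den_pos i y).ne')]
  norm_cast

theorem pos_fib {i : Fin 3} {x : X} (h : isF i x) : pos i x = 2 := by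
  simp [pos, num, den, h]

theorem pos_gen {i : Fin 3} {x : X} (h : ¬ isF i x) :
    pos i x = (crd i x : ℚ) / 2 ^ lev x + 1 / 2 ^ (big x + 1) := by
  have h1 : (2 : ℚ) ^ (big x + 1) = 2 ^ (big x + 1 - lev x) * 2 ^ lev x := by
    rw [← pow_add]; congr 1; have := lev_le_big x; omega
  simp only [pos, num, den, if_neg h]
  push_cast
  rw [h1]
  field_simp

theorem pos_gen_lo {i : Fin 3} {x : X} (h : ¬ isF i x) : (crd i x : ℚ) / 2 ^ lev x < pos i x := by
  rw [pos_gen h]
  have : (0 : ℚ) < 1 / 2 ^ (big x + 1) := by positivity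
  linarith

theorem pos_gen_hi {i : Fin 3} {x : X} (h : ¬ isF i x) :
    pos i x < ((crd i x : ℚ) + 1) / 2 ^ lev x := by
  rw [pos_gen h]
  have h1 : (1 : ℚ) / 2 ^ (big x + 1) < 1 / 2 ^ lev x := by
    apply one_div_lt_one_div_of_lt (by positivity)
    exact pow_lt_pow_right₀ (by norm_num) (by have := lev_le_big x; omega)
  rw [add_div]
  linarith

theorem pos_pos' (i : Fin 3) (x : X) : 0 < pos i x := by
  by_cases h : isF i x
  · rw [pos_fib h]; norm_num
  · refine lt_of_le_of_lt ?_ (pos_gen_lo h)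
    positivity

theorem odd_ne (c a e : ℕ) (ha : 0 < a) (c' : ℕ) (he : 0 < e) :
    c * 2 ^ a + 1 ≠ c' * 2 ^ e := by
  obtain ⟨a, rfl⟩ : ∃ a', a = a' + 1 := ⟨a - 1, by omega⟩
  obtain ⟨e, rfl⟩ : ∃ a', e = a' + 1 := ⟨e - 1, by omega⟩
  rw [pow_succ, pow_succ, ← mul_assoc, ← mul_assoc]
  omega

theorem pos_ne_two {i : Fin 3} {x : X} (h : ¬ isF i x) : pos i x ≠ 2 := by
  intro h1
  have h2 : (num i x : ℚ) = 2 * den i x := by
    unfold pos at h1
    rw [div_eq_iff (by exact_mod_cast (den_pos i x).ne')] at h1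
    exact h1
  have h3 : num i x = 2 * den i x := by exact_mod_cast h2
  simp only [num, den, if_neg h] at h3
  have := lev_le_big x
  exact odd_ne (crd i x) (big x + 1 - lev x) (big x + 1) (by omega) 2 (by omega) h3

theorem pos_inj {i : Fin 3} {x y : X} (hx : ¬ isF i x) (hy : ¬ isF i y)
    (h : pos i x = pos i y) : x = y := by
  rw [pos_eq_iff] at h
  simp only [num, den, if_neg hx, if_neg hy] at h
  have h1 := lev_le_big x
  have h2 := lev_le_big y
  have hb : big x = big y := by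
    rcases lt_trichotomy (big x) (big y) with hlt | heq | hlt
    · exfalso
      have e : (2 : ℕ) ^ (big y + 1) = 2 ^ (big y - big x) * 2 ^ (big x + 1) := by
        rw [← pow_add]; congr 1; omega
      rw [e, ← mul_assoc] at h
      have h3 := Nat.eq_of_mul_eq_mul_right (by positivity) h
      exact odd_ne _ _ (big y - big x) (by omega) _ (by omega) h3.symm
    · exact heq
    · exfalso
      have e : (2 : ℕ) ^ (big x + 1) = 2 ^ (big x - big y) * 2 ^ (big y + 1) := by
        rw [← pow_add]; congr 1; omega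
      rw [e, ← mul_assoc] at h
      have h3 := Nat.eq_of_mul_eq_mul_right (by positivity) h
      exact odd_ne _ _ (big x - big y) (by omega) _ (by omega) h3
  unfold big at hb
  have h3 := (Nat.pair_eq_pair.mp hb).1
  exact Encodable.encode_injective h3

theorem not_isF_zero {i : Fin 3} {x : X} (h : kind x = 0) : ¬ isF i x := by
  unfold isF
  rw [h]
  fin_cases i <;> simp [fibT]

theorem exists_frame (u v : Fin 3 → ℚ) (hu : ∀ i, 0 ≤ u i) (huv : ∀ i, u i < v i) :
    ∃ d : X, kind d = 0 ∧ ∀ i, u i < pos i d ∧ pos i d < v i := by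
  obtain ⟨B, hB⟩ : ∃ B : ℕ, ∀ i, (2 : ℚ) / 2 ^ B < v i - u i := by
    have : ∀ i, ∃ B : ℕ, (2 : ℚ) / 2 ^ B < v i - u i := by
      intro i
      have h1 : 0 < (v i - u i) / 2 := by have := huv i; linarith
      obtain ⟨B, hB⟩ := exists_pow_lt_of_lt_one h1 (by norm_num : (1 / 2 : ℚ) < 1)
      refine ⟨B, ?_⟩
      rw [one_div, inv_pow] at hB
      rw [div_eq_mul_inv]
      linarith
    choose B hB using this
    refine ⟨max (B 0) (max (B 1) (B 2)), ?_⟩
    intro i
    refine lt_of_le_of_lt ?_ (hB i)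
    apply div_le_div_of_nonneg_left (by norm_num) (by positivity)
    apply pow_le_pow_right₀ (by norm_num)
    fin_cases i
    · exact le_max_left _ _
    · exact (le_max_left _ _).trans (le_max_right _ _)
    · exact (le_max_right _ _).trans (le_max_right _ _)
  let A : Fin 3 → ℕ := fun i => ⌊u i * 2 ^ B⌋₊ + 1
  let d : X := (0, [A 0, A 1, A 2, B])
  have hk : kind d = 0 := rfl
  have hlev : lev d = B := by simp [lev, hk, d]
  have hcrd : ∀ i, crd i d = A i := by
    intro i
    simp only [crd, hk, if_true]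
    fin_cases i <;> simp [d]
  refine ⟨d, hk, ?_⟩
  intro i
  have h1 := pos_gen_lo (i := i) (not_isF_zero hk)
  have h2 := pos_gen_hi (i := i) (not_isF_zero hk)
  rw [hlev, hcrd] at h1 h2
  have hpow : (0 : ℚ) < 2 ^ B := by positivity
  have h3 : u i * 2 ^ B < (A i : ℚ) := by
    simp only [A]; push_cast; exact Nat.lt_floor_add_one _
  have h4 : (A i : ℚ) ≤ u i * 2 ^ B + 1 := by
    simp only [A]; push_cast
    have := Nat.floor_le (mul_nonneg (hu i) hpow.le)
    linarith
  constructor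
  · refine lt_trans ?_ h1
    rw [lt_div_iff₀ hpow]; exact h3
  · refine lt_of_lt_of_le h2 ?_
    rw [div_le_iff₀ hpow]
    have h5 := (hB i)
    rw [div_lt_iff₀ hpow] at h5
    nlinarith

/-! ### kinds -/

theorem kind_cases (x : X) : kind x = 0 ∨ (∃ τ, x = (1, τ)) ∨ (∃ τ, x = (2, τ)) ∨
    (∃ τ, x = (3, τ)) ∨ (∃ i p, x = (4, i :: p)) ∨ x = (5, []) ∨ x = (6, []) ∨ x = (7, []) := by
  obtain ⟨t, σ⟩ := x
  unfold kind
  by_cases h1 : t = 1
  · subst h1; right; left; exact ⟨σ, rfl⟩
  by_cases h2 : t = 2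
  · subst h2; right; right; left; exact ⟨σ, rfl⟩
  by_cases h3 : t = 3
  · subst h3; right; right; right; left; exact ⟨σ, rfl⟩
  by_cases h4 : t = 4
  · subst h4
    rcases σ with _ | ⟨i, p⟩
    · left; simp
    · right; right; right; right; left; exact ⟨i, p, rfl⟩
  by_cases h5 : t = 5
  · subst h5
    rcases σ with _ | ⟨i, p⟩
    · right; right; right; right; right; left; rfl
    · left; simp
  by_cases h6 : t = 6
  · subst h6
    rcases σ with _ | ⟨i, p⟩
    · right; right; right; right; right; right; left; rfl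
    · left; simp
  by_cases h7 : t = 7
  · subst h7
    rcases σ with _ | ⟨i, p⟩
    · right; right; right; right; right; right; right; rfl
    · left; simp
  left
  simp [h1, h2, h3, h4, h5, h6, h7]

theorem kind1 (τ : List ℕ) : kind (1, τ) = 1 := rfl
theorem kind2 (τ : List ℕ) : kind (2, τ) = 2 := rfl
theorem kind3 (τ : List ℕ) : kind (3, τ) = 3 := rfl
theorem kind4 (i : ℕ) (p : List ℕ) : kind (4, i :: p) = 4 := by simp [kind]
theorem kind5 : kind (5, []) = 5 := rfl
theorem kind6 : kind (6, []) = 6 := rfl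
theorem kind7 : kind (7, []) = 7 := rfl

/-- coordinates of the elements which are not in the frame -/
theorem pos_bounds {i : Fin 3} {x : X} (h0 : kind x ≠ 0) (h : ¬ isF i x) :
    ((baseT i).getD (kind x) 0 : ℚ) < pos i x ∧ pos i x < (baseT i).getD (kind x) 0 + 1 := by
  have h1 := pos_gen_lo h
  have h2 := pos_gen_hi h
  simp only [crd, lev, if_neg h0, pow_zero, div_one] at h1 h2
  exact ⟨h1, h2⟩

theorem isF_iff {i : Fin 3} {x : X} : isF i x ↔
    (i = 0 ∧ ((∃ τ, x = (1, τ)) ∨ (∃ τ, x = (3, τ)) ∨ (∃ j p, x = (4, j :: p)) ∨ x = (5, []) ∨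
      x = (7, []))) ∨
    (i = 1 ∧ ((∃ τ, x = (2, τ)) ∨ (∃ τ, x = (3, τ)) ∨ (∃ j p, x = (4, j :: p)) ∨ x = (6, []) ∨
      x = (7, []))) := by
  rcases kind_cases x with h | ⟨τ, rfl⟩ | ⟨τ, rfl⟩ | ⟨τ, rfl⟩ | ⟨j, p, rfl⟩ | rfl | rfl | rfl
  · refine ⟨fun h1 => absurd h1 (not_isF_zero h), ?_⟩
    rintro (⟨-, h1⟩ | ⟨-, h1⟩)
    · rcases h1 with ⟨τ, rfl⟩ | ⟨τ, rfl⟩ | ⟨j, p, rfl⟩ | rfl | rfl <;> simp [kind] at h
    · rcases h1 with ⟨τ, rfl⟩ | ⟨τ, rfl⟩ | ⟨j, p, rfl⟩ | rfl | rfl <;> simp [kind] at h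
  all_goals
    simp only [isF, kind1, kind2, kind3, kind4, kind5, kind6, kind7]
    fin_cases i <;> simp [fibT]

end Pool.Agent.Work.MP_02e4ca_lc
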