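import Mathlib
import Pool.Agent.Work.MP_02e4ca_lc.Elts

/-!
The key orders, the partial ordering, and the analysis of its realizers.
-/

set_option autoImplicit false

namespace Pool.Agent.Work.MP_02e4ca_lc

variable (tT : List ℕ → Bool) (g : List ℕ → ℕ)

/-- position in the first fibre -/
def l0 (x : X) : List ℕ :=
  if kind x = 4 then x.2.tail ++ [x.2.headI] else if kind x = 5 then [0] else x.2

/-- position in the second fibre -/
def l1 (x : X) : List ℕ := if kind x = 4 then bfun tT g x.2.headI x.2.tail else x.2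

/-- tag -/
def tg (i : Fin 3) (x : X) : ℕ := (tagT i).getD (kind x) 0

/-- position in the first fibre, with the moving element at `c` -/
def p0 (c : PO) (x : X) : PO := if kind x = 7 then c else hat (l0 x)

/-- position in the second fibre, with the moving element at `c` -/
def p1 (c : PO) (x : X) : PO := if kind x = 7 then c else hat (l1 tT g x)

/-- comparison inside the fibres -/
def fine (c : PO) (i : Fin 3) (x y : X) : Prop :=
  (i = 0 ∧ (p0 c x < p0 c y ∨ (p0 c x = p0 c y ∧ tg 0 x < tg 0 y))) ∨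
  (i = 1 ∧ (p1 tT g c y < p1 tT g c x ∨ (p1 tT g c x = p1 tT g c y ∧ tg 1 x < tg 1 y)))

/-- the key orders -/
def keylt (c : PO) (i : Fin 3) (x y : X) : Prop :=
  pos i x < pos i y ∨ (pos i x = pos i y ∧ fine tT g c i x y)

/-- the strict partial ordering -/
def Rs (x y : X) : Prop :=
  (kind x ≠ 7 ∧ kind y ≠ 7 ∧ ∀ i, keylt tT g (hat []) i x y) ∨
  (kind x = 7 ∧ kind y = 0 ∧ ∀ i, pos i x < pos i y) ∨
  (kind y = 7 ∧ ((kind x = 0 ∧ ∀ i, pos i x < pos i y) ∨ kind x = 5 ∨ kind x = 6))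

variable {tT g}

theorem keylt_of_pos {c : PO} {i : Fin 3} {x y : X} (h : pos i x < pos i y) :
    keylt tT g c i x y := Or.inl h

theorem keylt_irrefl (c : PO) (i : Fin 3) (x : X) : ¬ keylt tT g c i x x := by
  rintro (h | ⟨-, ⟨-, h | ⟨-, h⟩⟩ | ⟨-, h | ⟨-, h⟩⟩⟩)
  · exact lt_irrefl _ h
  · exact lt_irrefl _ h
  · exact lt_irrefl _ h
  · exact lt_irrefl _ h
  · exact lt_irrefl _ h

theorem keylt_trans {c : PO} {i : Fin 3} {x y z : X} (h1 : keylt tT g c i x y)
    (h2 : keylt tT g c i y z) : keylt tT g c i x z := by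
  rcases h1 with h1 | ⟨h1, h1'⟩ <;> rcases h2 with h2 | ⟨h2, h2'⟩
  · exact Or.inl (h1.trans h2)
  · exact Or.inl (h1.trans_eq h2)
  · exact Or.inl (h1.trans_lt h2)
  · refine Or.inr ⟨h1.trans h2, ?_⟩
    rcases h1' with ⟨rfl, h1'⟩ | ⟨rfl, h1'⟩
    · rcases h2' with ⟨-, h2'⟩ | ⟨h3, -⟩
      · left
        refine ⟨rfl, ?_⟩
        rcases h1' with a | ⟨a, a'⟩ <;> rcases h2' with b | ⟨b, b'⟩
        · exact Or.inl (a.trans b)
        · exact Or.inl (a.trans_eq b)
        · exact Or.inl (a.trans_lt b)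
        · exact Or.inr ⟨a.trans b, a'.trans b'⟩
      · simp at h3
    · rcases h2' with ⟨h3, -⟩ | ⟨-, h2'⟩
      · simp at h3
      · right
        refine ⟨rfl, ?_⟩
        rcases h1' with a | ⟨a, a'⟩ <;> rcases h2' with b | ⟨b, b'⟩
        · exact Or.inl (b.trans a)
        · exact Or.inl (b ▸ a)
        · exact Or.inl (a ▸ b)
        · exact Or.inr ⟨a.trans b, a'.trans b'⟩

theorem keylt_asymm {c : PO} {i : Fin 3} {x y : X} (h1 : keylt tT g c i x y) :
    ¬ keylt tT g c i y x := fun h2 => keylt_irrefl c i x (keylt_trans h1 h2)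

/-! evaluation lemmas -/

theorem l0_1 (τ : List ℕ) : l0 (1, τ) = τ := by simp [l0, kind]
theorem l0_3 (τ : List ℕ) : l0 (3, τ) = τ := by simp [l0, kind]
theorem l0_4 (i : ℕ) (p : List ℕ) : l0 (4, i :: p) = p ++ [i] := by simp [l0, kind]
theorem l0_5 : l0 (5, []) = [0] := by simp [l0, kind]
theorem l1_2 (τ : List ℕ) : l1 tT g (2, τ) = τ := by simp [l1, kind]
theorem l1_3 (τ : List ℕ) : l1 tT g (3, τ) = τ := by simp [l1, kind]
theorem l1_4 (i : ℕ) (p : List ℕ) : l1 tT g (4, i :: p) = bfun tT g i p := by simp [l1, kind]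
theorem l1_6 : l1 tT g (6, []) = [] := by simp [l1, kind]

theorem p0_1 (c : PO) (τ : List ℕ) : p0 c (1, τ) = hat τ := by simp [p0, kind1, l0_1]
theorem p0_3 (c : PO) (τ : List ℕ) : p0 c (3, τ) = hat τ := by simp [p0, kind3, l0_3]
theorem p0_4 (c : PO) (i : ℕ) (p : List ℕ) : p0 c (4, i :: p) = hat (p ++ [i]) := by
  simp [p0, kind4, l0_4]
theorem p0_5 (c : PO) : p0 c (5, []) = hat [0] := by simp [p0, kind5, l0_5]
theorem p0_7 (c : PO) : p0 c (7, []) = c := by simp [p0, kind7]
theorem p1_2 (c : PO) (τ : List ℕ) : p1 tT g c (2, τ) = hat τ := by simp [p1, kind2, l1_2]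
theorem p1_3 (c : PO) (τ : List ℕ) : p1 tT g c (3, τ) = hat τ := by simp [p1, kind3, l1_3]
theorem p1_4 (c : PO) (i : ℕ) (p : List ℕ) : p1 tT g c (4, i :: p) = hat (bfun tT g i p) := by
  simp [p1, kind4, l1_4]
theorem p1_6 (c : PO) : p1 tT g c (6, []) = hat [] := by simp [p1, kind6, l1_6]
theorem p1_7 (c : PO) : p1 tT g c (7, []) = c := by simp [p1, kind7]

theorem tg0_1 (τ : List ℕ) : tg 0 (1, τ) = 2 := rfl
theorem tg0_3 (τ : List ℕ) : tg 0 (3, τ) = 1 := rfl
theorem tg0_4 (i : ℕ) (p : List ℕ) : tg 0 (4, i :: p) = 0 := by simp [tg, kind4, tagT]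
theorem tg0_5 : tg 0 (5, []) = 3 := rfl
theorem tg0_7 : tg 0 (7, []) = 0 := rfl
theorem tg1_2 (τ : List ℕ) : tg 1 (2, τ) = 2 := rfl
theorem tg1_3 (τ : List ℕ) : tg 1 (3, τ) = 1 := rfl
theorem tg1_4 (i : ℕ) (p : List ℕ) : tg 1 (4, i :: p) = 0 := by simp [tg, kind4, tagT]
theorem tg1_6 : tg 1 (6, []) = 3 := rfl
theorem tg1_7 : tg 1 (7, []) = 0 := rfl

theorem fine0 {c : PO} {x y : X} : fine tT g c 0 x y ↔
    (p0 c x < p0 c y ∨ (p0 c x = p0 c y ∧ tg 0 x < tg 0 y)) := by
  unfold fine; simp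

theorem fine1 {c : PO} {x y : X} : fine tT g c 1 x y ↔
    (p1 tT g c y < p1 tT g c x ∨ (p1 tT g c x = p1 tT g c y ∧ tg 1 x < tg 1 y)) := by
  unfold fine; simp

/-! fibre membership -/

theorem isF0_1 (τ : List ℕ) : isF 0 (1, τ) := rfl
theorem isF0_3 (τ : List ℕ) : isF 0 (3, τ) := rfl
theorem isF0_4 (i : ℕ) (p : List ℕ) : isF 0 (4, i :: p) := by simp [isF, kind4, fibT]
theorem isF0_5 : isF 0 (5, []) := rfl
theorem isF0_7 : isF 0 (7, []) := rfl
theorem isF1_2 (τ : List ℕ) : isF 1 (2, τ) := rfl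
theorem isF1_3 (τ : List ℕ) : isF 1 (3, τ) := rfl
theorem isF1_4 (i : ℕ) (p : List ℕ) : isF 1 (4, i :: p) := by simp [isF, kind4, fibT]
theorem isF1_6 : isF 1 (6, []) := rfl
theorem isF1_7 : isF 1 (7, []) := rfl

theorem keylt_fib {c : PO} {i : Fin 3} {x y : X} (hx : isF i x) (hy : isF i y) :
    keylt tT g c i x y ↔ fine tT g c i x y := by
  unfold keylt
  rw [pos_fib hx, pos_fib hy]
  simp

/-- totality of the key orders -/
theorem keylt_total (hT : TreeHyp tT g) {c : ℕ → ℕ} {i : Fin 3} {x y : X} (hne : x ≠ y) :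
    keylt tT g (hatp c) i x y ∨ keylt tT g (hatp c) i y x := by
  rcases lt_trichotomy (pos i x) (pos i y) with h | h | h
  · exact Or.inl (Or.inl h)
  · by_cases hx : isF i x
    · by_cases hy : isF i y
      · rw [keylt_fib hx hy, keylt_fib hy hx]
        rcases isF_iff.mp hx with ⟨rfl, hx'⟩ | ⟨rfl, hx'⟩
        · rw [fine0, fine0]
          have hy' : (∃ τ, y = (1, τ)) ∨ (∃ τ, y = (3, τ)) ∨ (∃ j p, y = (4, j :: p)) ∨
              y = (5, []) ∨ y = (7, []) := by
            rcases isF_iff.mp hy with ⟨-, h1⟩ | ⟨h1, -⟩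
            · exact h1
            · simp at h1
          rcases lt_trichotomy (p0 (hatp c) x) (p0 (hatp c) y) with h1 | h1 | h1
          · exact Or.inl (Or.inl h1)
          · rcases lt_trichotomy (tg 0 x) (tg 0 y) with h2 | h2 | h2
            · exact Or.inl (Or.inr ⟨h1, h2⟩)
            · exfalso
              apply hne
              rcases hx' with ⟨τ, rfl⟩ | ⟨τ, rfl⟩ | ⟨j, p, rfl⟩ | rfl | rfl <;>
              rcases hy' with ⟨τ', rfl⟩ | ⟨τ', rfl⟩ | ⟨j', p', rfl⟩ | rfl | rfl <;>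
              simp only [tg0_1, tg0_3, tg0_4, tg0_5, tg0_7] at h2 <;>
              simp only [p0_1, p0_3, p0_4, p0_5, p0_7] at h1 <;>
              first
              | omega
              | rfl
              | (rw [hat_injective h1])
              | (obtain ⟨e1, e2⟩ := append_last_inj (hat_injective h1); rw [e1, e2])
              | exact absurd h1 (hat_ne_hatp _ _)
              | exact absurd h1.symm (hat_ne_hatp _ _)
            · exact Or.inr (Or.inr ⟨h1.symm, h2⟩)
          · exact Or.inr (Or.inl h1)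
        · rw [fine1, fine1]
          have hy' : (∃ τ, y = (2, τ)) ∨ (∃ τ, y = (3, τ)) ∨ (∃ j p, y = (4, j :: p)) ∨
              y = (6, []) ∨ y = (7, []) := by
            rcases isF_iff.mp hy with ⟨h1, -⟩ | ⟨-, h1⟩
            · simp at h1
            · exact h1
          rcases lt_trichotomy (p1 tT g (hatp c) x) (p1 tT g (hatp c) y) with h1 | h1 | h1
          · exact Or.inr (Or.inl h1)
          · rcases lt_trichotomy (tg 1 x) (tg 1 y) with h2 | h2 | h2
            · exact Or.inl (Or.inr ⟨h1, h2⟩)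
            · exfalso
              apply hne
              rcases hx' with ⟨τ, rfl⟩ | ⟨τ, rfl⟩ | ⟨j, p, rfl⟩ | rfl | rfl <;>
              rcases hy' with ⟨τ', rfl⟩ | ⟨τ', rfl⟩ | ⟨j', p', rfl⟩ | rfl | rfl <;>
              simp only [tg1_2, tg1_3, tg1_4, tg1_6, tg1_7] at h2 <;>
              simp only [p1_2, p1_3, p1_4, p1_6, p1_7] at h1 <;>
              first
              | omega
              | rfl
              | (rw [hat_injective h1])
              | (obtain ⟨e1, e2⟩ := bfun_injective hT (hat_injective h1); rw [e1, e2])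
              | exact absurd h1 (hat_ne_hatp _ _)
              | exact absurd h1.symm (hat_ne_hatp _ _)
            · exact Or.inr (Or.inr ⟨h1.symm, h2⟩)
          · exact Or.inl (Or.inl h1)
      · rw [pos_fib hx] at h
        exact absurd h.symm (pos_ne_two hy)
    · by_cases hy : isF i y
      · rw [pos_fib hy] at h
        exact absurd h (pos_ne_two hx)
      · exact absurd (pos_inj hx hy h) hne
  · exact Or.inr (Or.inl h)

theorem keylt_slo (hT : TreeHyp tT g) (c : ℕ → ℕ) (i : Fin 3) :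
    SLO (keylt tT g (hatp c) i) where
  irrefl := keylt_irrefl _ _
  trans := keylt_trans
  total := fun hne => keylt_total hT hne

/-- the key orders do not depend on the cut, off the moving element -/
theorem keylt_indep {c c' : PO} {i : Fin 3} {x y : X} (hx : kind x ≠ 7) (hy : kind y ≠ 7) :
    keylt tT g c i x y ↔ keylt tT g c' i x y := by
  unfold keylt fine p0 p1
  simp only [if_neg hx, if_neg hy]

theorem Rs_pinned {c : PO} {x y : X} (hx : kind x ≠ 7) (hy : kind y ≠ 7) :
    Rs tT g x y ↔ ∀ i, keylt tT g c i x y := by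
  unfold Rs
  constructor
  · rintro (⟨-, -, h⟩ | ⟨h, -⟩ | ⟨h, -⟩)
    · intro i; exact (keylt_indep hx hy).mp (h i)
    · exact absurd h hx
    · exact absurd h hy
  · intro h
    exact Or.inl ⟨hx, hy, fun i => (keylt_indep hx hy).mp (h i)⟩

end Pool.Agent.Work.MP_02e4ca_lc
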