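import Mathlib
import Pool.Agent.Work.MP_02e4ca_lc.Keys

/-!
The realizers of the partial ordering are exactly the key orders of the paths.
-/

set_option autoImplicit false

namespace Pool.Agent.Work.MP_02e4ca_lc

variable {tT : List ℕ → Bool} {g : List ℕ → ℕ}

theorem p_1_1 (τ : List ℕ) : 1 < pos 1 (1, τ) ∧ pos 1 (1, τ) < 2 := by
  have h := pos_bounds (i := 1) (x := (1, τ)) (by simp [kind]) (by simp [isF, kind, fibT])
  have e : (baseT 1).getD (kind (1, τ)) 0 = 1 := rfl
  rw [e] at h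
  norm_num at h
  exact h

theorem p_2_1 (τ : List ℕ) : 3 < pos 2 (1, τ) ∧ pos 2 (1, τ) < 4 := by
  have h := pos_bounds (i := 2) (x := (1, τ)) (by simp [kind]) (by simp [isF, fibT])
  have e : (baseT 2).getD (kind (1, τ)) 0 = 3 := rfl
  rw [e] at h
  norm_num at h
  exact h

theorem p_0_2 (τ : List ℕ) : 1 < pos 0 (2, τ) ∧ pos 0 (2, τ) < 2 := by
  have h := pos_bounds (i := 0) (x := (2, τ)) (by simp [kind]) (by simp [isF, kind, fibT])
  have e : (baseT 0).getD (kind (2, τ)) 0 = 1 := rfl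
  rw [e] at h
  norm_num at h
  exact h

theorem p_2_2 (τ : List ℕ) : 4 < pos 2 (2, τ) ∧ pos 2 (2, τ) < 5 := by
  have h := pos_bounds (i := 2) (x := (2, τ)) (by simp [kind]) (by simp [isF, fibT])
  have e : (baseT 2).getD (kind (2, τ)) 0 = 4 := rfl
  rw [e] at h
  norm_num at h
  exact h

theorem p_2_3 (τ : List ℕ) : 5 < pos 2 (3, τ) ∧ pos 2 (3, τ) < 6 := by
  have h := pos_bounds (i := 2) (x := (3, τ)) (by simp [kind]) (by simp [isF, fibT])
  have e : (baseT 2).getD (kind (3, τ)) 0 = 5 := rfl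
  rw [e] at h
  norm_num at h
  exact h

theorem p_2_4 (i : ℕ) (p : List ℕ) : 1 < pos 2 (4, i :: p) ∧ pos 2 (4, i :: p) < 2 := by
  have h := pos_bounds (i := 2) (x := (4, i :: p)) (by simp [kind]) (by simp [isF, fibT])
  have e : (baseT 2).getD (kind (4, i :: p)) 0 = 1 := by rw [kind4]; rfl
  rw [e] at h
  norm_num at h
  exact h

theorem p_1_5 : 0 < pos 1 (5, []) ∧ pos 1 (5, []) < 1 := by
  have h := pos_bounds (i := 1) (x := (5, [])) (by simp [kind]) (by simp [isF, kind, fibT])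
  have e : (baseT 1).getD (kind (5, [])) 0 = 0 := rfl
  rw [e] at h
  norm_num at h
  exact h

theorem p_2_5 : 0 < pos 2 (5, []) ∧ pos 2 (5, []) < 1 := by
  have h := pos_bounds (i := 2) (x := (5, [])) (by simp [kind]) (by simp [isF, fibT])
  have e : (baseT 2).getD (kind (5, [])) 0 = 0 := rfl
  rw [e] at h
  norm_num at h
  exact h

theorem p_0_6 : 0 < pos 0 (6, []) ∧ pos 0 (6, []) < 1 := by
  have h := pos_bounds (i := 0) (x := (6, [])) (by simp [kind]) (by simp [isF, kind, fibT])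
  have e : (baseT 0).getD (kind (6, [])) 0 = 0 := rfl
  rw [e] at h
  norm_num at h
  exact h

theorem p_2_6 : 0 < pos 2 (6, []) ∧ pos 2 (6, []) < 1 := by
  have h := pos_bounds (i := 2) (x := (6, [])) (by simp [kind]) (by simp [isF, fibT])
  have e : (baseT 2).getD (kind (6, [])) 0 = 0 := rfl
  rw [e] at h
  norm_num at h
  exact h

theorem p_2_7 : 2 < pos 2 (7, []) ∧ pos 2 (7, []) < 3 := by
  have h := pos_bounds (i := 2) (x := (7, [])) (by simp [kind]) (by simp [isF, fibT])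
  have e : (baseT 2).getD (kind (7, [])) 0 = 2 := rfl
  rw [e] at h
  norm_num at h
  exact h

theorem keylt_pos_le {c : PO} {i : Fin 3} {x y : X} (h : keylt tT g c i x y) :
    pos i x ≤ pos i y := by
  rcases h with h | ⟨h, -⟩
  · exact h.le
  · exact h.le

theorem keylt_two {c : PO} {x y : X} (h : keylt tT g c 2 x y) : pos 2 x < pos 2 y := by
  rcases h with h | ⟨-, ⟨h, -⟩ | ⟨h, -⟩⟩
  · exact h
  · simp at h
  · simp at h

theorem forall_fin3 {P : Fin 3 → Prop} (h0 : P 0) (h1 : P 1) (h2 : P 2) : ∀ i, P i := by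
  intro i
  fin_cases i
  · exact h0
  · exact h1
  · exact h2

/-- The key orders of a path form a realizer. -/
theorem sol (hT : TreeHyp tT g) (f : ℕ → ℕ) (hf : ∀ n, tT ((List.range n).map f) = true)
    {x y : X} (hne : x ≠ y) :
    Rs tT g x y ↔ ∀ i, keylt tT g (hatp (fun n => f n + 1)) i x y := by
  set c := hatp (fun n => f n + 1) with hc
  by_cases hx : kind x = 7
  · have hx' : x = (7, []) := by
      rcases kind_cases x with h | ⟨τ, rfl⟩ | ⟨τ, rfl⟩ | ⟨τ, rfl⟩ | ⟨j, p, rfl⟩ | rfl | rfl | rfl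
      · omega
      all_goals first | rfl | (simp [kind] at hx)
    subst hx'
    constructor
    · rintro (⟨h, -⟩ | ⟨-, -, h⟩ | ⟨-, ⟨h, -⟩ | h | h⟩)
      · exact absurd hx h
      · exact fun i => Or.inl (h i)
      · rw [hx] at h; omega
      · rw [hx] at h; omega
      · rw [hx] at h; omega
    · intro h
      right; left
      refine ⟨hx, ?_⟩
      have h0 := keylt_pos_le (h 0)
      have h1 := keylt_pos_le (h 1)
      have h2 := keylt_two (h 2)
      rw [pos_fib isF0_7] at h0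
      rw [pos_fib isF1_7] at h1
      rcases kind_cases y with h' | ⟨τ, rfl⟩ | ⟨τ, rfl⟩ | ⟨τ, rfl⟩ | ⟨j, p, rfl⟩ | rfl | rfl | rfl
      · refine ⟨h', forall_fin3 ?_ ?_ h2⟩
        · rw [pos_fib isF0_7]
          exact lt_of_le_of_ne h0 (Ne.symm (pos_ne_two (not_isF_zero h')))
        · rw [pos_fib isF1_7]
          exact lt_of_le_of_ne h1 (Ne.symm (pos_ne_two (not_isF_zero h')))
      · have := p_1_1 τ; linarith
      · have := p_0_2 τ; linarith
      · exfalso
        have e0 := (keylt_fib isF0_7 (isF0_3 τ)).mp (h 0)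
        have e1 := (keylt_fib isF1_7 (isF1_3 τ)).mp (h 1)
        rw [fine0, p0_7, p0_3] at e0
        rw [fine1, p1_7, p1_3] at e1
        have e2 : c < hat τ := by
          rcases e0 with e0 | ⟨e0, -⟩
          · exact e0
          · exact absurd e0.symm (hat_ne_hatp _ _)
        rcases e1 with e1 | ⟨e1, -⟩
        · exact lt_irrefl _ (e1.trans e2)
        · exact absurd e1.symm (hat_ne_hatp _ _)
      · have := p_2_4 j p; have := p_2_7; linarith
      · have := p_1_5; linarith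
      · have := p_0_6; linarith
      · exact absurd rfl hne
  · by_cases hy : kind y = 7
    · have hy' : y = (7, []) := by
        rcases kind_cases y with h | ⟨τ, rfl⟩ | ⟨τ, rfl⟩ | ⟨τ, rfl⟩ | ⟨j, p, rfl⟩ | rfl | rfl | rfl
        · omega
        all_goals first | rfl | (simp [kind] at hy)
      subst hy'
      constructor
      · rintro (⟨-, h, -⟩ | ⟨h, -⟩ | ⟨-, ⟨-, h⟩ | h | h⟩)
        · exact absurd hy h
        · exact absurd h hx
        · exact fun i => Or.inl (h i)
        · have hx' : x = (5, []) := by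
            rcases kind_cases x with h | ⟨τ, rfl⟩ | ⟨τ, rfl⟩ | ⟨τ, rfl⟩ | ⟨j, p, rfl⟩ | rfl | rfl | rfl
            · omega
            all_goals first | rfl | (simp [kind] at h)
          subst hx'
          refine forall_fin3 ?_ (Or.inl ?_) (Or.inl ?_)
          · rw [keylt_fib isF0_5 isF0_7, fine0, p0_5, p0_7]
            exact Or.inl (zero_lt_path f)
          · rw [pos_fib isF1_7]
            have := p_1_5; linarith
          · have := p_2_5; have := p_2_7; linarith
        · have hx' : x = (6, []) := by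
            rcases kind_cases x with h | ⟨τ, rfl⟩ | ⟨τ, rfl⟩ | ⟨τ, rfl⟩ | ⟨j, p, rfl⟩ | rfl | rfl | rfl
            · omega
            all_goals first | rfl | (simp [kind] at h)
          subst hx'
          refine forall_fin3 (Or.inl ?_) ?_ (Or.inl ?_)
          · rw [pos_fib isF0_7]
            have := p_0_6; linarith
          · rw [keylt_fib isF1_6 isF1_7, fine1, p1_6, p1_7]
            exact Or.inl (path_lt_nil _)
          · have := p_2_6; have := p_2_7; linarith
      · intro h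
        right; right
        refine ⟨hy, ?_⟩
        have h0 := keylt_pos_le (h 0)
        have h1 := keylt_pos_le (h 1)
        have h2 := keylt_two (h 2)
        rw [pos_fib isF0_7] at h0
        rw [pos_fib isF1_7] at h1
        rcases kind_cases x with h' | ⟨τ, rfl⟩ | ⟨τ, rfl⟩ | ⟨τ, rfl⟩ | ⟨j, p, rfl⟩ | rfl | rfl | rfl
        · left
          refine ⟨h', forall_fin3 ?_ ?_ h2⟩
          · rw [pos_fib isF0_7]
            exact lt_of_le_of_ne h0 (pos_ne_two (not_isF_zero h'))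
          · rw [pos_fib isF1_7]
            exact lt_of_le_of_ne h1 (pos_ne_two (not_isF_zero h'))
        · have := p_2_1 τ; have := p_2_7; linarith
        · have := p_2_2 τ; have := p_2_7; linarith
        · have := p_2_3 τ; have := p_2_7; linarith
        · exfalso
          have e0 := (keylt_fib (isF0_4 j p) isF0_7).mp (h 0)
          have e1 := (keylt_fib (isF1_4 j p) isF1_7).mp (h 1)
          rw [fine0, p0_7, p0_4] at e0
          rw [fine1, p1_7, p1_4] at e1
          have e2 : hat (p ++ [j]) < c := by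
            rcases e0 with e0 | ⟨e0, -⟩
            · exact e0
            · exact absurd e0 (hat_ne_hatp _ _)
          have e3 : c < hat (bfun tT g j p) := by
            rcases e1 with e1 | ⟨e1, -⟩
            · exact e1
            · exact absurd e1 (hat_ne_hatp _ _)
          exact lt_irrefl _ (e3.trans (path_closed hT f hf j p e2))
        · right; left; rfl
        · right; right; rfl
        · exact absurd rfl hne
    · exact Rs_pinned hx hy

/-! ### Uniqueness -/

/-- a realizer with pinned coordinates -/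
structure Pinned (tT : List ℕ → Bool) (g : List ℕ → ℕ) (l : Fin 3 → X → X → Prop) : Prop where
  slo : ∀ i, SLO (l i)
  rel : ∀ x y, x ≠ y → (Rs tT g x y ↔ ∀ i, l i x y)
  pin : ∀ i x y, pos i x < pos i y → l i x y

namespace Pinned

variable {l : Fin 3 → X → X → Prop}

theorem force (h : Pinned tT g l) {x y : X} (hne : x ≠ y) (hR : ¬ Rs tT g x y) (i : Fin 3)
    (hj : ∀ j, j ≠ i → l j x y) : l i y x := by
  rcases (h.slo i).total hne with h1 | h1
  · exfalso
    apply hR
    rw [h.rel x y hne]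
    intro j
    by_cases hji : j = i
    · subst hji; exact h1
    · exact hj j hji
  · exact h1

/-- pairs whose order is forced in one coordinate by the two others -/
theorem direct (h : Pinned tT g l) {x y : X} (hx : kind x ≠ 7) (hy : kind y ≠ 7) (i : Fin 3)
    (hne : x ≠ y) (hj : ∀ j, j ≠ i → pos j x < pos j y) :
    (keylt tT g (hat []) i x y → l i x y) ∧ (keylt tT g (hat []) i y x → l i y x) := by
  constructor
  · intro h1
    have hR : Rs tT g x y := by
      rw [Rs_pinned (c := hat []) hx hy]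
      intro j
      by_cases hji : j = i
      · subst hji; exact h1
      · exact Or.inl (hj j hji)
    exact (h.rel x y hne).mp hR i
  · intro h1
    apply h.force hne _ i (fun j hji => h.pin j x y (hj j hji))
    intro hR
    rw [Rs_pinned (c := hat []) hx hy] at hR
    exact keylt_asymm h1 (hR i)

theorem alga (h : Pinned tT g l) {τ τ' : List ℕ} (hlt : hat τ < hat τ') :
    l 0 (1, τ) (3, τ') := by
  refine (h.direct (by simp [kind]) (by simp [kind]) 0 (by simp) ?_).1 ?_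
  · refine forall_fin3 (fun h => absurd rfl h) (fun _ => ?_) (fun _ => ?_)
    · rw [pos_fib (isF1_3 τ')]; exact (p_1_1 τ).2
    · have := p_2_1 τ; have := p_2_3 τ'; linarith
  · rw [keylt_fib (isF0_1 τ) (isF0_3 τ'), fine0, p0_1, p0_3]
    exact Or.inl hlt

theorem gaal (h : Pinned tT g l) {τ τ' : List ℕ} (hle : hat τ' ≤ hat τ) :
    l 0 (3, τ') (1, τ) := by
  refine (h.direct (by simp [kind]) (by simp [kind]) 0 (by simp) ?_).2 ?_
  · refine forall_fin3 (fun h => absurd rfl h) (fun _ => ?_) (fun _ => ?_)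
    · rw [pos_fib (isF1_3 τ')]; exact (p_1_1 τ).2
    · have := p_2_1 τ; have := p_2_3 τ'; linarith
  · rw [keylt_fib (isF0_3 τ') (isF0_1 τ), fine0, p0_1, p0_3, tg0_1, tg0_3]
    rcases hle.lt_or_eq with h1 | h1
    · exact Or.inl h1
    · exact Or.inr ⟨h1, by norm_num⟩

theorem bega (h : Pinned tT g l) {τ τ' : List ℕ} (hlt : hat τ' < hat τ) :
    l 1 (2, τ) (3, τ') := by
  refine (h.direct (by simp [kind]) (by simp [kind]) 1 (by simp) ?_).1 ?_
  · refine forall_fin3 (fun _ => ?_) (fun h => absurd rfl h) (fun _ => ?_)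
    · rw [pos_fib (isF0_3 τ')]; exact (p_0_2 τ).2
    · have := p_2_2 τ; have := p_2_3 τ'; linarith
  · rw [keylt_fib (isF1_2 τ) (isF1_3 τ'), fine1, p1_2, p1_3]
    exact Or.inl hlt

theorem gabe (h : Pinned tT g l) {τ τ' : List ℕ} (hle : hat τ ≤ hat τ') :
    l 1 (3, τ') (2, τ) := by
  refine (h.direct (by simp [kind]) (by simp [kind]) 1 (by simp) ?_).2 ?_
  · refine forall_fin3 (fun _ => ?_) (fun h => absurd rfl h) (fun _ => ?_)
    · rw [pos_fib (isF0_3 τ')]; exact (p_0_2 τ).2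
    · have := p_2_2 τ; have := p_2_3 τ'; linarith
  · rw [keylt_fib (isF1_3 τ') (isF1_2 τ), fine1, p1_2, p1_3, tg1_2, tg1_3]
    rcases hle.lt_or_eq with h1 | h1
    · exact Or.inl h1
    · exact Or.inr ⟨h1.symm, by norm_num⟩

theorem ga0 (h : Pinned tT g l) {τ τ' : List ℕ} (hlt : hat τ < hat τ') :
    l 0 (3, τ) (3, τ') := (h.slo 0).trans (h.gaal le_rfl) (h.alga hlt)

theorem ga1 (h : Pinned tT g l) {τ τ' : List ℕ} (hlt : hat τ < hat τ') :
    l 1 (3, τ') (3, τ) := (h.slo 1).trans (h.gabe le_rfl) (h.bega hlt)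

theorem Rs_dega {i : ℕ} {p τ : List ℕ} : Rs tT g (4, i :: p) (3, τ) ↔
    hat (p ++ [i]) ≤ hat τ ∧ hat τ ≤ hat (bfun tT g i p) := by
  rw [Rs_pinned (c := hat []) (by simp [kind]) (by simp [kind])]
  constructor
  · intro h
    have e0 := (keylt_fib (isF0_4 i p) (isF0_3 τ)).mp (h 0)
    have e1 := (keylt_fib (isF1_4 i p) (isF1_3 τ)).mp (h 1)
    rw [fine0, p0_4, p0_3] at e0
    rw [fine1, p1_4, p1_3] at e1
    constructor
    · rcases e0 with e0 | ⟨e0, -⟩
      · exact e0.le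
      · exact e0.le
    · rcases e1 with e1 | ⟨e1, -⟩
      · exact e1.le
      · exact e1.ge
  · rintro ⟨h1, h2⟩
    refine forall_fin3 ?_ ?_ (Or.inl ?_)
    · rw [keylt_fib (isF0_4 i p) (isF0_3 τ), fine0, p0_4, p0_3, tg0_4, tg0_3]
      rcases h1.lt_or_eq with h3 | h3
      · exact Or.inl h3
      · exact Or.inr ⟨h3, by norm_num⟩
    · rw [keylt_fib (isF1_4 i p) (isF1_3 τ), fine1, p1_4, p1_3, tg1_4, tg1_3]
      rcases h2.lt_or_eq with h3 | h3
      · exact Or.inl h3
      · exact Or.inr ⟨h3.symm, by norm_num⟩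
    · have := p_2_4 i p; have := p_2_3 τ; linarith

theorem dega0 (h : Pinned tT g l) {i : ℕ} {p τ : List ℕ} (hle : hat (p ++ [i]) ≤ hat τ) :
    l 0 (4, i :: p) (3, τ) := by
  have h1 : l 0 (4, i :: p) (3, p ++ [i]) :=
    (h.rel _ _ (by simp)).mp (Rs_dega.mpr ⟨le_rfl, le_bfun _ _⟩) 0
  rcases hle.lt_or_eq with h2 | h2
  · exact (h.slo 0).trans h1 (h.ga0 h2)
  · rw [← hat_injective h2]; exact h1

theorem dega1 (h : Pinned tT g l) {i : ℕ} {p τ : List ℕ} (hle : hat τ ≤ hat (bfun tT g i p)) :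
    l 1 (4, i :: p) (3, τ) := by
  have h1 : l 1 (4, i :: p) (3, bfun tT g i p) :=
    (h.rel _ _ (by simp)).mp (Rs_dega.mpr ⟨le_bfun _ _, le_rfl⟩) 1
  rcases hle.lt_or_eq with h2 | h2
  · exact (h.slo 1).trans h1 (h.ga1 h2)
  · rw [hat_injective h2]; exact h1

theorem dega2 (h : Pinned tT g l) {i : ℕ} {p τ : List ℕ} : l 2 (4, i :: p) (3, τ) := by
  apply h.pin
  have := p_2_4 i p; have := p_2_3 τ; linarith

theorem gade0 (h : Pinned tT g l) {i : ℕ} {p τ : List ℕ} (hlt : hat τ < hat (p ++ [i])) :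
    l 0 (3, τ) (4, i :: p) := by
  refine h.force (x := (4, i :: p)) (y := (3, τ)) (by simp) ?_ 0 ?_
  · rw [Rs_dega]
    rintro ⟨h1, -⟩
    exact absurd hlt (not_lt.mpr h1)
  · exact forall_fin3 (fun h => absurd rfl h)
      (fun _ => h.dega1 (hlt.le.trans (le_bfun _ _))) (fun _ => h.dega2)

theorem gade1 (h : Pinned tT g l) {i : ℕ} {p τ : List ℕ} (hlt : hat (bfun tT g i p) < hat τ) :
    l 1 (3, τ) (4, i :: p) := by
  refine h.force (x := (4, i :: p)) (y := (3, τ)) (by simp) ?_ 1 ?_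
  · rw [Rs_dega]
    rintro ⟨-, h1⟩
    exact absurd hlt (not_lt.mpr h1)
  · exact forall_fin3 (fun _ => h.dega0 ((le_bfun (tT := tT) (g := g) i p).trans hlt.le))
      (fun h => absurd rfl h) (fun _ => h.dega2)

/-- the first end marker -/
theorem k0 (h : Pinned tT g l) {y : X} (hy : (∃ τ, y = (1, τ)) ∨ (∃ τ, y = (3, τ)) ∨
    (∃ j p, y = (4, j :: p))) :
    (keylt tT g (hat []) 0 (5, []) y → l 0 (5, []) y) ∧
    (keylt tT g (hat []) 0 y (5, []) → l 0 y (5, [])) := by
  rcases hy with ⟨τ, rfl⟩ | ⟨τ, rfl⟩ | ⟨j, p, rfl⟩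
  · refine h.direct (by simp [kind]) (by simp [kind]) 0 (by simp) ?_
    refine forall_fin3 (fun h => absurd rfl h) (fun _ => ?_) (fun _ => ?_)
    · have := p_1_5; have := p_1_1 τ; linarith
    · have := p_2_5; have := p_2_1 τ; linarith
  · refine h.direct (by simp [kind]) (by simp [kind]) 0 (by simp) ?_
    refine forall_fin3 (fun h => absurd rfl h) (fun _ => ?_) (fun _ => ?_)
    · rw [pos_fib (isF1_3 τ)]
      have := p_1_5; linarith
    · have := p_2_5; have := p_2_3 τ; linarith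
  · refine h.direct (by simp [kind]) (by simp [kind]) 0 (by simp) ?_
    refine forall_fin3 (fun h => absurd rfl h) (fun _ => ?_) (fun _ => ?_)
    · rw [pos_fib (isF1_4 j p)]
      have := p_1_5; linarith
    · have := p_2_5; have := p_2_4 j p; linarith

/-- the second end marker -/
theorem k1 (h : Pinned tT g l) {y : X} (hy : (∃ τ, y = (2, τ)) ∨ (∃ τ, y = (3, τ)) ∨
    (∃ j p, y = (4, j :: p))) :
    (keylt tT g (hat []) 1 (6, []) y → l 1 (6, []) y) ∧
    (keylt tT g (hat []) 1 y (6, []) → l 1 y (6, [])) := by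
  rcases hy with ⟨τ, rfl⟩ | ⟨τ, rfl⟩ | ⟨j, p, rfl⟩
  · refine h.direct (by simp [kind]) (by simp [kind]) 1 (by simp) ?_
    refine forall_fin3 (fun _ => ?_) (fun h => absurd rfl h) (fun _ => ?_)
    · have := p_0_6; have := p_0_2 τ; linarith
    · have := p_2_6; have := p_2_2 τ; linarith
  · refine h.direct (by simp [kind]) (by simp [kind]) 1 (by simp) ?_
    refine forall_fin3 (fun _ => ?_) (fun h => absurd rfl h) (fun _ => ?_)
    · rw [pos_fib (isF0_3 τ)]
      have := p_0_6; linarith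
    · have := p_2_6; have := p_2_3 τ; linarith
  · refine h.direct (by simp [kind]) (by simp [kind]) 1 (by simp) ?_
    refine forall_fin3 (fun _ => ?_) (fun h => absurd rfl h) (fun _ => ?_)
    · rw [pos_fib (isF0_4 j p)]
      have := p_0_6; linarith
    · have := p_2_6; have := p_2_4 j p; linarith

/-! the moving element -/

theorem k0e (h : Pinned tT g l) (i : Fin 3) : l i (5, []) (7, []) :=
  (h.rel _ _ (by simp)).mp (Or.inr (Or.inr ⟨rfl, Or.inr (Or.inl rfl)⟩)) i

theorem k1e (h : Pinned tT g l) (i : Fin 3) : l i (6, []) (7, []) :=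
  (h.rel _ _ (by simp)).mp (Or.inr (Or.inr ⟨rfl, Or.inr (Or.inr rfl)⟩)) i

theorem ega_cover (h : Pinned tT g l) (τ : List ℕ) : l 0 (3, τ) (7, []) ∨ l 1 (3, τ) (7, []) := by
  by_contra hcon
  push Not at hcon
  have h1 : l 0 (7, []) (3, τ) := by
    rcases (h.slo 0).total (x := (3, τ)) (y := (7, [])) (by simp) with h1 | h1
    · exact absurd h1 hcon.1
    · exact h1
  have h2 : l 1 (7, []) (3, τ) := by
    rcases (h.slo 1).total (x := (3, τ)) (y := (7, [])) (by simp) with h1 | h1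
    · exact absurd h1 hcon.2
    · exact h1
  have h3 : l 2 (7, []) (3, τ) := h.pin _ _ _ (by have := p_2_7; have := p_2_3 τ; linarith)
  have h4 : Rs tT g (7, []) (3, τ) := (h.rel _ _ (by simp)).mpr (forall_fin3 h1 h2 h3)
  rcases h4 with ⟨h5, -⟩ | ⟨-, h5, -⟩ | ⟨h5, -⟩
  · exact h5 rfl
  · simp [kind] at h5
  · simp [kind] at h5

theorem de_not (h : Pinned tT g l) (i : ℕ) (p : List ℕ) (h0 : l 0 (4, i :: p) (7, []))
    (h1 : l 1 (4, i :: p) (7, [])) : False := by
  have h2 : l 2 (4, i :: p) (7, []) := h.pin _ _ _ (by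
    have := p_2_7; have := p_2_4 i p; linarith)
  have h4 : Rs tT g (4, i :: p) (7, []) := (h.rel _ _ (by simp)).mpr (forall_fin3 h0 h1 h2)
  rcases h4 with ⟨-, h5, -⟩ | ⟨h5, -⟩ | ⟨-, ⟨h5, -⟩ | h5 | h5⟩
  · exact h5 rfl
  · simp [kind] at h5
  · simp [kind] at h5
  · simp [kind] at h5
  · simp [kind] at h5

/-- the cut -/
theorem exists_cut (h : Pinned tT g l) (hT : TreeHyp tT g) :
    ∃ f : ℕ → ℕ, (∀ n, tT ((List.range n).map f) = true) ∧
      ∀ τ, (l 0 (3, τ) (7, []) ↔ hat τ < hatp (fun n => f n + 1)) ∧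
        (l 1 (3, τ) (7, []) ↔ ¬ hat τ < hatp (fun n => f n + 1)) := by
  have hexcl : ∀ τ, l 0 (3, τ) (7, []) → ¬ l 1 (3, τ) (7, []) := by
    intro τ h1 h2
    obtain ⟨i, p, h3, h4⟩ := exists_block hT τ
    exact h.de_not i p ((h.slo 0).trans (h.dega0 h3) h1) ((h.slo 1).trans (h.dega1 h4) h2)
  have hA : l 0 (3, [0]) (7, []) := by
    have h1 : l 0 (3, [0]) (5, []) := by
      apply (h.k0 (Or.inr (Or.inl ⟨[0], rfl⟩))).2
      rw [keylt_fib (isF0_3 _) isF0_5, fine0, p0_3, p0_5, tg0_3, tg0_5]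
      exact Or.inr ⟨rfl, by norm_num⟩
    exact (h.slo 0).trans h1 (h.k0e 0)
  have hB : ¬ l 0 (3, []) (7, []) := by
    intro hmem
    have h1 : l 1 (3, []) (6, []) := by
      apply (h.k1 (Or.inr (Or.inl ⟨[], rfl⟩))).2
      rw [keylt_fib (isF1_3 _) isF1_6, fine1, p1_3, p1_6, tg1_3, tg1_6]
      exact Or.inr ⟨rfl, by norm_num⟩
    exact hexcl [] hmem ((h.slo 1).trans h1 (h.k1e 1))
  have hC : ∀ i p, l 0 (3, p ++ [i]) (7, []) → l 0 (3, bfun tT g i p) (7, []) := by
    intro i p hmem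
    by_contra hcon
    have h2 : l 1 (3, bfun tT g i p) (7, []) := by
      rcases h.ega_cover (bfun tT g i p) with h2 | h2
      · exact absurd h2 hcon
      · exact h2
    exact h.de_not i p ((h.slo 0).trans (h.dega0 le_rfl) hmem)
      ((h.slo 1).trans (h.dega1 le_rfl) h2)
  obtain ⟨f, hf1, hf2⟩ := exists_path {τ | l 0 (3, τ) (7, [])}
    (fun σ τ h1 h2 => (h.slo 0).trans (h.ga0 h1) h2) hA hB hT hC
  refine ⟨f, hf1, ?_⟩
  intro τ
  refine ⟨hf2 τ, ?_⟩
  rw [← hf2 τ]
  constructor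
  · intro h1 h2
    exact hexcl τ h2 h1
  · intro h1
    rcases h.ega_cover τ with h2 | h2
    · exact absurd h2 h1
    · exact h2

/-- the order of the first fibre -/
theorem fib0 (h : Pinned tT g l) {c : ℕ → ℕ} (hc0 : ∀ n, 0 < c n)
    (hc : ∀ τ, (l 0 (3, τ) (7, []) ↔ hat τ < hatp c))
    {x y : X} (hx : isF 0 x) (hy : isF 0 y) (hf : fine tT g (hatp c) 0 x y) : l 0 x y := by
  have hx' : (∃ τ, x = (1, τ)) ∨ (∃ τ, x = (3, τ)) ∨ (∃ j p, x = (4, j :: p)) ∨
      x = (5, []) ∨ x = (7, []) := by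
    rcases isF_iff.mp hx with ⟨-, h1⟩ | ⟨h1, -⟩
    · exact h1
    · simp at h1
  have hy' : (∃ τ, y = (1, τ)) ∨ (∃ τ, y = (3, τ)) ∨ (∃ j p, y = (4, j :: p)) ∨
      y = (5, []) ∨ y = (7, []) := by
    rcases isF_iff.mp hy with ⟨-, h1⟩ | ⟨h1, -⟩
    · exact h1
    · simp at h1
  have hlt : ∀ τ, hatp c < hat τ → l 0 (7, []) (3, τ) := by
    intro τ h1
    rcases (h.slo 0).total (x := (3, τ)) (y := (7, [])) (by simp) with h2 | h2
    · exact absurd ((hc τ).mp h2) (not_lt.mpr h1.le)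
    · exact h2
  rw [fine0] at hf
  rcases hx' with ⟨τ, rfl⟩ | ⟨τ, rfl⟩ | ⟨j, p, rfl⟩ | rfl | rfl
  · rcases hy' with ⟨τ', rfl⟩ | ⟨τ', rfl⟩ | ⟨j', p', rfl⟩ | rfl | rfl
    · rw [p0_1, p0_1, tg0_1, tg0_1] at hf
      rcases hf with hf | ⟨-, hf⟩
      · exact (h.slo 0).trans (h.alga hf) (h.gaal le_rfl)
      · omega
    · rw [p0_1, p0_3, tg0_1, tg0_3] at hf
      rcases hf with hf | ⟨-, hf⟩
      · exact h.alga hf
      · omega
    · rw [p0_1, p0_4, tg0_1, tg0_4] at hf
      rcases hf with hf | ⟨-, hf⟩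
      · obtain ⟨ρ, h1, h2⟩ := hat_dense hf
        exact (h.slo 0).trans (h.alga h1) (h.gade0 h2)
      · omega
    · apply (h.k0 (Or.inl ⟨τ, rfl⟩)).2
      rw [keylt_fib (isF0_1 τ) isF0_5, fine0, p0_1, p0_5]
      rw [p0_1, p0_5] at hf
      exact hf
    · rw [p0_1, p0_7] at hf
      rcases hf with hf | ⟨hf, -⟩
      · obtain ⟨ρ, h1, h2⟩ := below_cut hc0 hf
        exact (h.slo 0).trans (h.alga h1) ((hc ρ).mpr h2)
      · exact absurd hf (hat_ne_hatp _ _)
  · rcases hy' with ⟨τ', rfl⟩ | ⟨τ', rfl⟩ | ⟨j', p', rfl⟩ | rfl | rfl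
    · rw [p0_3, p0_1] at hf
      rcases hf with hf | ⟨hf, -⟩
      · exact h.gaal hf.le
      · exact h.gaal hf.le
    · rw [p0_3, p0_3, tg0_3, tg0_3] at hf
      rcases hf with hf | ⟨-, hf⟩
      · exact h.ga0 hf
      · omega
    · rw [p0_3, p0_4, tg0_3, tg0_4] at hf
      rcases hf with hf | ⟨-, hf⟩
      · exact h.gade0 hf
      · omega
    · apply (h.k0 (Or.inr (Or.inl ⟨τ, rfl⟩))).2
      rw [keylt_fib (isF0_3 τ) isF0_5, fine0, p0_3, p0_5]
      rw [p0_3, p0_5] at hf
      exact hf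
    · rw [p0_3, p0_7] at hf
      rcases hf with hf | ⟨hf, -⟩
      · exact (hc τ).mpr hf
      · exact absurd hf (hat_ne_hatp _ _)
  · rcases hy' with ⟨τ', rfl⟩ | ⟨τ', rfl⟩ | ⟨j', p', rfl⟩ | rfl | rfl
    · rw [p0_4, p0_1] at hf
      have h1 : hat (p ++ [j]) ≤ hat τ' := by
        rcases hf with hf | ⟨hf, -⟩
        · exact hf.le
        · exact hf.le
      exact (h.slo 0).trans (h.dega0 h1) (h.gaal le_rfl)
    · rw [p0_4, p0_3] at hf
      have h1 : hat (p ++ [j]) ≤ hat τ' := by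
        rcases hf with hf | ⟨hf, -⟩
        · exact hf.le
        · exact hf.le
      exact h.dega0 h1
    · rw [p0_4, p0_4, tg0_4, tg0_4] at hf
      rcases hf with hf | ⟨-, hf⟩
      · exact (h.slo 0).trans (h.dega0 le_rfl) (h.gade0 hf)
      · omega
    · apply (h.k0 (Or.inr (Or.inr ⟨j, p, rfl⟩))).2
      rw [keylt_fib (isF0_4 j p) isF0_5, fine0, p0_4, p0_5]
      rw [p0_4, p0_5] at hf
      exact hf
    · rw [p0_4, p0_7] at hf
      rcases hf with hf | ⟨hf, -⟩
      · exact (h.slo 0).trans (h.dega0 le_rfl) ((hc _).mpr hf)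
      · exact absurd hf (hat_ne_hatp _ _)
  · rcases hy' with ⟨τ', rfl⟩ | ⟨τ', rfl⟩ | ⟨j', p', rfl⟩ | rfl | rfl
    · apply (h.k0 (Or.inl ⟨τ', rfl⟩)).1
      rw [keylt_fib isF0_5 (isF0_1 τ'), fine0, p0_1, p0_5]
      rw [p0_1, p0_5] at hf
      exact hf
    · apply (h.k0 (Or.inr (Or.inl ⟨τ', rfl⟩))).1
      rw [keylt_fib isF0_5 (isF0_3 τ'), fine0, p0_3, p0_5]
      rw [p0_3, p0_5] at hf
      exact hf
    · apply (h.k0 (Or.inr (Or.inr ⟨j', p', rfl⟩))).1
      rw [keylt_fib isF0_5 (isF0_4 j' p'), fine0, p0_4, p0_5]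
      rw [p0_4, p0_5] at hf
      exact hf
    · rcases hf with hf | ⟨-, hf⟩
      · exact absurd hf (lt_irrefl _)
      · exact absurd hf (lt_irrefl _)
    · exact h.k0e 0
  · rcases hy' with ⟨τ', rfl⟩ | ⟨τ', rfl⟩ | ⟨j', p', rfl⟩ | rfl | rfl
    · rw [p0_7, p0_1] at hf
      rcases hf with hf | ⟨hf, -⟩
      · exact (h.slo 0).trans (hlt _ hf) (h.gaal le_rfl)
      · exact absurd hf.symm (hat_ne_hatp _ _)
    · rw [p0_7, p0_3] at hf
      rcases hf with hf | ⟨hf, -⟩
      · exact hlt _ hf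
      · exact absurd hf.symm (hat_ne_hatp _ _)
    · rw [p0_7, p0_4] at hf
      rcases hf with hf | ⟨hf, -⟩
      · obtain ⟨ρ, h1, h2⟩ := above_cut hf
        exact (h.slo 0).trans (hlt _ h1) (h.gade0 h2)
      · exact absurd hf.symm (hat_ne_hatp _ _)
    · exfalso
      have h1 : l 0 (3, [0]) (5, []) := by
        apply (h.k0 (Or.inr (Or.inl ⟨[0], rfl⟩))).2
        rw [keylt_fib (isF0_3 _) isF0_5, fine0, p0_3, p0_5, tg0_3, tg0_5]
        exact Or.inr ⟨rfl, by norm_num⟩
      have h2 := (hc [0]).mp ((h.slo 0).trans h1 (h.k0e 0))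
      rw [p0_7, p0_5] at hf
      rcases hf with hf | ⟨hf, -⟩
      · exact lt_irrefl _ (h2.trans hf)
      · exact absurd hf.symm (hat_ne_hatp _ _)
    · rcases hf with hf | ⟨-, hf⟩
      · exact absurd hf (lt_irrefl _)
      · exact absurd hf (lt_irrefl _)

/-- the order of the second fibre -/
theorem fib1 (h : Pinned tT g l) {c : ℕ → ℕ} (hc0 : ∀ n, 0 < c n)
    (hc : ∀ τ, (l 1 (3, τ) (7, []) ↔ ¬ hat τ < hatp c))
    {x y : X} (hx : isF 1 x) (hy : isF 1 y) (hf : fine tT g (hatp c) 1 x y) : l 1 x y := by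
  have hx' : (∃ τ, x = (2, τ)) ∨ (∃ τ, x = (3, τ)) ∨ (∃ j p, x = (4, j :: p)) ∨
      x = (6, []) ∨ x = (7, []) := by
    rcases isF_iff.mp hx with ⟨h1, -⟩ | ⟨-, h1⟩
    · simp at h1
    · exact h1
  have hy' : (∃ τ, y = (2, τ)) ∨ (∃ τ, y = (3, τ)) ∨ (∃ j p, y = (4, j :: p)) ∨
      y = (6, []) ∨ y = (7, []) := by
    rcases isF_iff.mp hy with ⟨h1, -⟩ | ⟨-, h1⟩
    · simp at h1
    · exact h1
  have hgt : ∀ τ, hatp c < hat τ → l 1 (3, τ) (7, []) := by
    intro τ h1
    exact (hc τ).mpr (not_lt.mpr h1.le)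
  have hlt : ∀ τ, hat τ < hatp c → l 1 (7, []) (3, τ) := by
    intro τ h1
    rcases (h.slo 1).total (x := (3, τ)) (y := (7, [])) (by simp) with h2 | h2
    · exact absurd h1 ((hc τ).mp h2)
    · exact h2
  rw [fine1] at hf
  rcases hx' with ⟨τ, rfl⟩ | ⟨τ, rfl⟩ | ⟨j, p, rfl⟩ | rfl | rfl
  · rcases hy' with ⟨τ', rfl⟩ | ⟨τ', rfl⟩ | ⟨j', p', rfl⟩ | rfl | rfl
    · rw [p1_2, p1_2, tg1_2, tg1_2] at hf
      rcases hf with hf | ⟨-, hf⟩
      · exact (h.slo 1).trans (h.bega hf) (h.gabe le_rfl)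
      · omega
    · rw [p1_2, p1_3, tg1_2, tg1_3] at hf
      rcases hf with hf | ⟨-, hf⟩
      · exact h.bega hf
      · omega
    · rw [p1_2, p1_4, tg1_2, tg1_4] at hf
      rcases hf with hf | ⟨-, hf⟩
      · obtain ⟨ρ, h1, h2⟩ := hat_dense hf
        exact (h.slo 1).trans (h.bega h2) (h.gade1 h1)
      · omega
    · apply (h.k1 (Or.inl ⟨τ, rfl⟩)).2
      rw [keylt_fib (isF1_2 τ) isF1_6, fine1, p1_2, p1_6]
      rw [p1_2, p1_6] at hf
      exact hf
    · rw [p1_2, p1_7] at hf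
      rcases hf with hf | ⟨hf, -⟩
      · obtain ⟨ρ, h1, h2⟩ := above_cut hf
        exact (h.slo 1).trans (h.bega h2) (hgt ρ h1)
      · exact absurd hf (hat_ne_hatp _ _)
  · rcases hy' with ⟨τ', rfl⟩ | ⟨τ', rfl⟩ | ⟨j', p', rfl⟩ | rfl | rfl
    · rw [p1_3, p1_2] at hf
      rcases hf with hf | ⟨hf, -⟩
      · exact h.gabe hf.le
      · exact h.gabe hf.ge
    · rw [p1_3, p1_3, tg1_3, tg1_3] at hf
      rcases hf with hf | ⟨-, hf⟩
      · exact h.ga1 hf
      · omega
    · rw [p1_3, p1_4, tg1_3, tg1_4] at hf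
      rcases hf with hf | ⟨-, hf⟩
      · exact h.gade1 hf
      · omega
    · apply (h.k1 (Or.inr (Or.inl ⟨τ, rfl⟩))).2
      rw [keylt_fib (isF1_3 τ) isF1_6, fine1, p1_3, p1_6]
      rw [p1_3, p1_6] at hf
      exact hf
    · rw [p1_3, p1_7] at hf
      rcases hf with hf | ⟨hf, -⟩
      · exact hgt τ hf
      · exact absurd hf (hat_ne_hatp _ _)
  · rcases hy' with ⟨τ', rfl⟩ | ⟨τ', rfl⟩ | ⟨j', p', rfl⟩ | rfl | rfl
    · rw [p1_4, p1_2] at hf
      have h1 : hat τ' ≤ hat (bfun tT g j p) := by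
        rcases hf with hf | ⟨hf, -⟩
        · exact hf.le
        · exact hf.ge
      exact (h.slo 1).trans (h.dega1 h1) (h.gabe le_rfl)
    · rw [p1_4, p1_3] at hf
      have h1 : hat τ' ≤ hat (bfun tT g j p) := by
        rcases hf with hf | ⟨hf, -⟩
        · exact hf.le
        · exact hf.ge
      exact h.dega1 h1
    · rw [p1_4, p1_4, tg1_4, tg1_4] at hf
      rcases hf with hf | ⟨-, hf⟩
      · exact (h.slo 1).trans (h.dega1 le_rfl) (h.gade1 hf)
      · omega
    · apply (h.k1 (Or.inr (Or.inr ⟨j, p, rfl⟩))).2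
      rw [keylt_fib (isF1_4 j p) isF1_6, fine1, p1_4, p1_6]
      rw [p1_4, p1_6] at hf
      exact hf
    · rw [p1_4, p1_7] at hf
      rcases hf with hf | ⟨hf, -⟩
      · exact (h.slo 1).trans (h.dega1 le_rfl) (hgt _ hf)
      · exact absurd hf (hat_ne_hatp _ _)
  · rcases hy' with ⟨τ', rfl⟩ | ⟨τ', rfl⟩ | ⟨j', p', rfl⟩ | rfl | rfl
    · apply (h.k1 (Or.inl ⟨τ', rfl⟩)).1
      rw [keylt_fib isF1_6 (isF1_2 τ'), fine1, p1_2, p1_6]
      rw [p1_2, p1_6] at hf
      exact hf
    · apply (h.k1 (Or.inr (Or.inl ⟨τ', rfl⟩))).1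
      rw [keylt_fib isF1_6 (isF1_3 τ'), fine1, p1_3, p1_6]
      rw [p1_3, p1_6] at hf
      exact hf
    · apply (h.k1 (Or.inr (Or.inr ⟨j', p', rfl⟩))).1
      rw [keylt_fib isF1_6 (isF1_4 j' p'), fine1, p1_4, p1_6]
      rw [p1_4, p1_6] at hf
      exact hf
    · rcases hf with hf | ⟨-, hf⟩
      · exact absurd hf (lt_irrefl _)
      · exact absurd hf (lt_irrefl _)
    · exact h.k1e 1
  · rcases hy' with ⟨τ', rfl⟩ | ⟨τ', rfl⟩ | ⟨j', p', rfl⟩ | rfl | rfl
    · rw [p1_7, p1_2] at hf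
      rcases hf with hf | ⟨hf, -⟩
      · exact (h.slo 1).trans (hlt _ hf) (h.gabe le_rfl)
      · exact absurd hf.symm (hat_ne_hatp _ _)
    · rw [p1_7, p1_3] at hf
      rcases hf with hf | ⟨hf, -⟩
      · exact hlt _ hf
      · exact absurd hf.symm (hat_ne_hatp _ _)
    · rw [p1_7, p1_4] at hf
      rcases hf with hf | ⟨hf, -⟩
      · obtain ⟨ρ, h1, h2⟩ := below_cut hc0 hf
        exact (h.slo 1).trans (hlt _ h2) (h.gade1 h1)
      · exact absurd hf.symm (hat_ne_hatp _ _)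
    · exfalso
      have h1 : l 1 (3, []) (6, []) := by
        apply (h.k1 (Or.inr (Or.inl ⟨[], rfl⟩))).2
        rw [keylt_fib (isF1_3 _) isF1_6, fine1, p1_3, p1_6, tg1_3, tg1_6]
        exact Or.inr ⟨rfl, by norm_num⟩
      have h2 := (hc []).mp ((h.slo 1).trans h1 (h.k1e 1))
      rw [p1_7, p1_6] at hf
      rcases hf with hf | ⟨hf, -⟩
      · exact h2 hf
      · exact absurd hf.symm (hat_ne_hatp _ _)
    · rcases hf with hf | ⟨-, hf⟩
      · exact absurd hf (lt_irrefl _)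
      · exact absurd hf (lt_irrefl _)

/-- A pinned realizer is given by the key orders of a path. -/
theorem main (h : Pinned tT g l) (hT : TreeHyp tT g) :
    ∃ f : ℕ → ℕ, (∀ n, tT ((List.range n).map f) = true) ∧
      ∀ i x y, l i x y ↔ keylt tT g (hatp (fun n => f n + 1)) i x y := by
  obtain ⟨f, hf, hcut⟩ := h.exists_cut hT
  refine ⟨f, hf, ?_⟩
  have key : ∀ i x y, keylt tT g (hatp (fun n => f n + 1)) i x y → l i x y := by
    intro i x y hxy
    rcases hxy with hxy | ⟨hxy, hfine⟩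
    · exact h.pin i x y hxy
    · by_cases hx : isF i x
      · by_cases hy : isF i y
        · rcases hfine with ⟨rfl, h1⟩ | ⟨rfl, h1⟩
          · exact h.fib0 (fun n => Nat.succ_pos _) (fun τ => (hcut τ).1) hx hy (fine0.mpr h1)
          · exact h.fib1 (fun n => Nat.succ_pos _) (fun τ => (hcut τ).2) hx hy (fine1.mpr h1)
        · rw [pos_fib hx] at hxy
          exact absurd hxy.symm (pos_ne_two hy)
      · by_cases hy : isF i y
        · rw [pos_fib hy] at hxy
          exact absurd hxy (pos_ne_two hx)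
        · have := pos_inj hx hy hxy
          subst this
          exact absurd (Or.inr ⟨rfl, hfine⟩) (keylt_irrefl (tT := tT) (g := g)
            (hatp (fun n => f n + 1)) i x)
  intro i x y
  constructor
  · intro hl
    have hne : x ≠ y := fun h1 => by subst h1; exact (h.slo i).irrefl x hl
    rcases keylt_total hT (c := fun n => f n + 1) (i := i) hne with h1 | h1
    · exact h1
    · exact absurd (key i y x h1) ((h.slo i).asymm hl)
  · exact key i x y

end Pinned

/-- every realizer is, up to a permutation, given by the key orders of a path -/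
theorem realizer (hT : TreeHyp tT g) (lt : Fin 3 → X → X → Prop) (hslo : ∀ k, SLO (lt k))
    (hrel : ∀ x y, x ≠ y → (Rs tT g x y ↔ ∀ k, lt k x y)) :
    ∃ (π : Equiv.Perm (Fin 3)) (f : ℕ → ℕ), (∀ n, tT ((List.range n).map f) = true) ∧
      ∀ i x y, lt (π i) x y ↔ keylt tT g (hatp (fun n => f n + 1)) i x y := by
  have hframe : Frame pos {x : X | kind x = 0} (Rs tT g) lt :=
    { pos_pos := pos_pos'
      dense := fun u v hu huv => exists_frame u v hu huv
      inj := fun i d hd d' hd' h => pos_inj (not_isF_zero hd) (not_isF_zero hd') h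
      r1 := by
        intro x d hd h
        have hd0 : kind d = 0 := hd
        by_cases hx : kind x = 7
        · exact Or.inr (Or.inl ⟨hx, hd0, h⟩)
        · exact (Rs_pinned (c := hat []) hx (by rw [hd0]; norm_num)).mpr (fun i => Or.inl (h i))
      r2 := by
        intro d hd x h
        have hd0 : kind d = 0 := hd
        by_cases hx : kind x = 7
        · exact Or.inr (Or.inr ⟨hx, Or.inl ⟨hd0, h⟩⟩)
        · exact (Rs_pinned (c := hat []) (by rw [hd0]; norm_num) hx).mpr (fun i => Or.inl (h i))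
      r3 := by
        intro d hd d' hd' h i
        have hd0 : kind d = 0 := hd
        have hd0' : kind d' = 0 := hd'
        have h1 := (Rs_pinned (c := hat []) (by rw [hd0]; norm_num) (by rw [hd0']; norm_num)).mp h i
        rcases (keylt_pos_le h1).lt_or_eq with h2 | h2
        · exact h2
        · have := pos_inj (not_isF_zero hd0) (not_isF_zero hd0') h2
          subst this
          exact absurd h1 (keylt_irrefl _ _ _)
      slo := hslo
      rel := hrel }
  obtain ⟨π, hπ⟩ := hframe.pin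
  have hp : Pinned tT g (fun i => lt (π i)) :=
    { slo := fun i => hslo _
      rel := by
        intro x y hne
        rw [hrel x y hne]
        constructor
        · intro h i; exact h _
        · intro h k
          have := h (π.symm k)
          simpa using this
      pin := hπ }
  obtain ⟨f, hf, h⟩ := hp.main hT
  exact ⟨π, f, hf, h⟩

end Pool.Agent.Work.MP_02e4ca_lc
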