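import Mathlib
import Pool.Agent.Work.MP_02e4ca_lc.Keys

/-!
Computability of the key orders and of the partial ordering.
-/

set_option autoImplicit false

namespace Pool.Agent.Work.MP_02e4ca_lc

open Primrec

/-! ### comparison of finite sequences -/

/-- one step of the comparison -/
def kbI (k : ℕ) (p : List ℕ × List ℕ) : Prop :=
  (∀ j ∈ List.range k, p.1[j]? = p.2[j]?) ∧ (p.2[k]? = none ∨ p.1.getD k 0 < p.2.getD k 0)

/-- the comparison of finite sequences -/
def kbR (p : List ℕ × List ℕ) : Prop := ∃ k ∈ List.range p.1.length, kbI k p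

theorem primrec_kbI : PrimrecRel kbI := by
  have g1 : Primrec₂ (fun (j : ℕ) (p : List ℕ × List ℕ) => p.1[j]?) :=
    Primrec.list_getElem?.comp₂ (Primrec.fst.comp₂ Primrec₂.right) Primrec₂.left
  have g2 : Primrec₂ (fun (j : ℕ) (p : List ℕ × List ℕ) => p.2[j]?) :=
    Primrec.list_getElem?.comp₂ (Primrec.snd.comp₂ Primrec₂.right) Primrec₂.left
  have h1 : PrimrecRel (fun (j : ℕ) (p : List ℕ × List ℕ) => p.1[j]? = p.2[j]?) :=
    Primrec.eq.comp₂ g1 g2
  have h2 : PrimrecRel (fun (k : ℕ) (p : List ℕ × List ℕ) =>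
      ∀ j ∈ List.range k, p.1[j]? = p.2[j]?) :=
    h1.forall_mem_list.comp₂ (Primrec.list_range.comp₂ Primrec₂.left) Primrec₂.right
  have h3 : PrimrecRel (fun (k : ℕ) (p : List ℕ × List ℕ) => p.2[k]? = none) :=
    Primrec.eq.comp₂ g2 (Primrec₂.const none)
  have g3 : Primrec₂ (fun (j : ℕ) (p : List ℕ × List ℕ) => p.1.getD j 0) :=
    (Primrec.list_getD 0).comp₂ (Primrec.fst.comp₂ Primrec₂.right) Primrec₂.left
  have g4 : Primrec₂ (fun (j : ℕ) (p : List ℕ × List ℕ) => p.2.getD j 0) :=
    (Primrec.list_getD 0).comp₂ (Primrec.snd.comp₂ Primrec₂.right) Primrec₂.left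
  have h4 : PrimrecRel (fun (k : ℕ) (p : List ℕ × List ℕ) => p.1.getD k 0 < p.2.getD k 0) :=
    Primrec.nat_lt.comp₂ g3 g4
  exact PrimrecPred.and h2 (PrimrecPred.or h3 h4)

theorem primrec_kbR : PrimrecPred kbR := by
  have := primrec_kbI.exists_mem_list
  exact this.comp (Primrec.list_range.comp (Primrec.list_length.comp Primrec.fst)) Primrec.id

theorem kbR_iff (σ τ : List ℕ) : kbR (σ, τ) ↔ hat σ < hat τ := by
  have hent : ∀ j, σ[j]? = τ[j]? ↔ ent σ j = ent τ j := by
    intro j
    unfold ent
    rcases σ[j]? with _ | a <;> rcases τ[j]? with _ | b <;> simp [Option.elim]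
  constructor
  · rintro ⟨k, hk, h1, h2⟩
    simp only [List.mem_range] at hk h1
    refine ⟨k, fun j hj => (hent j).mp (h1 j hj), ?_⟩
    change ent σ k < ent τ k
    rw [ent_of_lt hk]
    rcases h2 with h2 | h2
    · simp only [List.getElem?_eq_none_iff] at h2
      rw [ent_of_ge h2]
      exact WithTop.coe_lt_top _
    · simp only at h2
      rcases lt_or_ge k τ.length with h3 | h3
      · rw [ent_of_lt h3]
        rw [List.getD_eq_getElem _ _ hk, List.getD_eq_getElem _ _ h3] at h2
        exact WithTop.coe_lt_coe.mpr h2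
      · rw [ent_of_ge h3]
        exact WithTop.coe_lt_top _
  · rintro ⟨k, h1, h2⟩
    change ent σ k < ent τ k at h2
    have hk : k < σ.length := ent_lt_top (lt_of_lt_of_le h2 le_top)
    refine ⟨k, List.mem_range.mpr hk, ?_, ?_⟩
    · intro j hj
      exact (hent j).mpr (h1 j (List.mem_range.mp hj))
    · rcases lt_or_ge k τ.length with h3 | h3
      · right
        rw [ent_of_lt hk, ent_of_lt h3] at h2
        simp only
        rw [List.getD_eq_getElem _ _ hk, List.getD_eq_getElem _ _ h3]
        exact WithTop.coe_lt_coe.mp h2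
      · left
        simpa using h3

/-! ### primitive recursive coordinates -/

theorem primrec_kind : Primrec kind := by
  unfold kind
  have h1 : Primrec (fun x : X => x.1) := Primrec.fst
  have he : ∀ k : ℕ, PrimrecPred (fun x : X => x.1 = k) := fun k =>
    Primrec.eq.comp h1 (Primrec.const k)
  have hn : PrimrecPred (fun x : X => x.2 = []) := Primrec.eq.comp Primrec.snd (Primrec.const [])
  exact Primrec.ite (he 1) (Primrec.const 1) (Primrec.ite (he 2) (Primrec.const 2)
    (Primrec.ite (he 3) (Primrec.const 3) (Primrec.ite (he 4)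
      (Primrec.ite hn (Primrec.const 0) (Primrec.const 4)) (Primrec.ite (he 5)
      (Primrec.ite hn (Primrec.const 5) (Primrec.const 0)) (Primrec.ite (he 6)
      (Primrec.ite hn (Primrec.const 6) (Primrec.const 0)) (Primrec.ite (he 7)
      (Primrec.ite hn (Primrec.const 7) (Primrec.const 0)) (Primrec.const 0)))))))

theorem primrec_kind_eq (k : ℕ) : PrimrecPred (fun x : X => kind x = k) :=
  Primrec.eq.comp primrec_kind (Primrec.const k)

theorem primrec_isF (i : Fin 3) : PrimrecPred (fun x : X => isF i x) :=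
  Primrec.eq.comp ((Primrec.list_getD 0).comp (Primrec.const (fibT i)) primrec_kind)
    (Primrec.const 1)

theorem primrec_crd (i : Fin 3) : Primrec (crd i) :=
  Primrec.ite (primrec_kind_eq 0)
    ((Primrec.list_getD 0).comp Primrec.snd (Primrec.const i.val))
    ((Primrec.list_getD 0).comp (Primrec.const (baseT i)) primrec_kind)

theorem primrec_lev : Primrec lev :=
  Primrec.ite (primrec_kind_eq 0)
    ((Primrec.list_getD 0).comp Primrec.snd (Primrec.const 3)) (Primrec.const 0)

theorem primrec_big : Primrec big :=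
  Primrec₂.natPair.comp Primrec.encode primrec_lev

theorem primrec_pow : Primrec₂ (fun a b : ℕ => a ^ b) := Primrec₂.unpaired'.mp Nat.Primrec.pow

theorem primrec_num (i : Fin 3) : Primrec (num i) :=
  Primrec.ite (primrec_isF i) (Primrec.const 2)
    (Primrec.succ.comp (Primrec.nat_mul.comp (primrec_crd i)
      (primrec_pow.comp (Primrec.const 2)
        (Primrec.nat_sub.comp (Primrec.succ.comp primrec_big) primrec_lev))))

theorem primrec_den (i : Fin 3) : Primrec (den i) :=
  Primrec.ite (primrec_isF i) (Primrec.const 1)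
    (primrec_pow.comp (Primrec.const 2) (Primrec.succ.comp primrec_big))

theorem primrec_l0 : Primrec l0 :=
  Primrec.ite (primrec_kind_eq 4)
    (Primrec.list_append.comp (Primrec.list_tail.comp Primrec.snd)
      (Primrec.list_cons.comp (Primrec.list_headI.comp Primrec.snd) (Primrec.const [])))
    (Primrec.ite (primrec_kind_eq 5) (Primrec.const [0]) Primrec.snd)

theorem primrec_tg (i : Fin 3) : Primrec (tg i) :=
  (Primrec.list_getD 0).comp (Primrec.const (tagT i)) primrec_kind

theorem primrec_up : Primrec up := Primrec.list_map Primrec.id (Primrec.succ.comp₂ Primrec₂.right)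

theorem primrec_dn : Primrec dn := Primrec.list_map Primrec.id (Primrec.pred.comp₂ Primrec₂.right)

variable {tT : List ℕ → Bool} {g : List ℕ → ℕ}

theorem computable_bfun (hT : Computable tT) (hg : Computable g) :
    Computable₂ (fun (i : ℕ) (p : List ℕ) => bfun tT g i p) := by
  have hi : Computable (fun q : ℕ × List ℕ => q.1) := Computable.fst
  have hp : Computable (fun q : ℕ × List ℕ => q.2) := Computable.snd
  have hd : Computable (fun q : ℕ × List ℕ => dn q.2) := primrec_dn.to_comp.comp hp
  have hgd : Computable (fun q : ℕ × List ℕ => g (dn q.2)) := hg.comp hd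
  have c1 : Computable (fun q : ℕ × List ℕ => decide (up (dn q.2) = q.2)) :=
    (Primrec.eq (α := List ℕ)).decide.to_comp.comp (primrec_up.to_comp.comp hd) hp
  have c2 : Computable (fun q : ℕ × List ℕ => tT (dn q.2)) := hT.comp hd
  have c3 : Computable (fun q : ℕ × List ℕ => decide (q.1 ≤ g (dn q.2))) :=
    Primrec.nat_le.decide.to_comp.comp hi hgd
  have c4 : Computable (fun q : ℕ × List ℕ => decide (q.1 < g (dn q.2))) :=
    Primrec.nat_lt.decide.to_comp.comp hi hgd
  have hsing : Computable (fun q : ℕ × List ℕ => [q.1]) :=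
    (Primrec.list_cons.comp Primrec.fst (Primrec.const [])).to_comp
  have c5 : Computable (fun q : ℕ × List ℕ => tT (dn q.2 ++ [q.1])) :=
    hT.comp (Primrec.list_append.to_comp.comp hd hsing)
  have v1 : Computable (fun q : ℕ × List ℕ => q.2 ++ [q.1 + 1, 0]) :=
    (Primrec.list_append.comp Primrec.snd (Primrec.list_cons.comp (Primrec.succ.comp Primrec.fst)
      (Primrec.const [0]))).to_comp
  have v2 : Computable (fun q : ℕ × List ℕ => q.2 ++ [q.1 + 1]) :=
    (Primrec.list_append.comp Primrec.snd (Primrec.list_cons.comp (Primrec.succ.comp Primrec.fst)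
      (Primrec.const []))).to_comp
  have v3 : Computable (fun q : ℕ × List ℕ => q.2 ++ [q.1]) :=
    (Primrec.list_append.comp Primrec.snd (Primrec.list_cons.comp Primrec.fst
      (Primrec.const []))).to_comp
  have hand : Computable₂ (fun a b : Bool => a && b) := Primrec.and.to_comp
  have h1 := Computable.cond (hand.comp c1 (hand.comp c2 c3))
    (Computable.cond c4 (Computable.cond c5 v1 v2) hp) v3
  refine h1.of_eq ?_
  rintro ⟨i, p⟩
  unfold bfun
  by_cases e1 : up (dn p) = p <;> by_cases e2 : tT (dn p) = true <;>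
    by_cases e3 : i ≤ g (dn p) <;> by_cases e4 : i < g (dn p) <;>
    by_cases e5 : tT (dn p ++ [i]) = true <;> simp [e1, e2, e3, e4, e5]

theorem computable_l1 (hT : Computable tT) (hg : Computable g) : Computable (l1 tT g) := by
  have c1 : Computable (fun x : X => decide (kind x = 4)) := (primrec_kind_eq 4).decide.to_comp
  have hb : Computable (fun x : X => bfun tT g x.2.headI x.2.tail) :=
    (computable_bfun hT hg).comp (Primrec.list_headI.comp Primrec.snd).to_comp
      (Primrec.list_tail.comp Primrec.snd).to_comp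
  refine (Computable.cond c1 hb Computable.snd).of_eq ?_
  intro x
  unfold l1
  by_cases h : kind x = 4 <;> simp [h]

/-! ### the comparison of keys -/

/-- data used in the comparison -/
abbrev Dat := (ℕ × ℕ) × (List ℕ × ℕ)

/-- comparison of positions -/
def cpos (p : Dat × Dat) : Prop := p.1.1.1 * p.2.1.2 < p.2.1.1 * p.1.1.2

/-- comparison in the first coordinate -/
def cmp0 (p : Dat × Dat) : Prop :=
  cpos p ∨ (p.1.1.1 * p.2.1.2 = p.2.1.1 * p.1.1.2 ∧
    (kbR (p.1.2.1, p.2.2.1) ∨ (p.1.2.1 = p.2.2.1 ∧ p.1.2.2 < p.2.2.2)))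

/-- comparison in the second coordinate -/
def cmp1 (p : Dat × Dat) : Prop :=
  cpos p ∨ (p.1.1.1 * p.2.1.2 = p.2.1.1 * p.1.1.2 ∧
    (kbR (p.2.2.1, p.1.2.1) ∨ (p.1.2.1 = p.2.2.1 ∧ p.1.2.2 < p.2.2.2)))

theorem primrec_cpos : PrimrecPred cpos := by
  have a1 : Primrec (fun p : Dat × Dat => p.1.1.1) :=
    Primrec.fst.comp (Primrec.fst.comp Primrec.fst)
  have a2 : Primrec (fun p : Dat × Dat => p.1.1.2) :=
    Primrec.snd.comp (Primrec.fst.comp Primrec.fst)
  have b1 : Primrec (fun p : Dat × Dat => p.2.1.1) :=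
    Primrec.fst.comp (Primrec.fst.comp Primrec.snd)
  have b2 : Primrec (fun p : Dat × Dat => p.2.1.2) :=
    Primrec.snd.comp (Primrec.fst.comp Primrec.snd)
  exact Primrec.nat_lt.comp (Primrec.nat_mul.comp a1 b2) (Primrec.nat_mul.comp b1 a2)

theorem primrec_ceq : PrimrecPred (fun p : Dat × Dat =>
    p.1.1.1 * p.2.1.2 = p.2.1.1 * p.1.1.2) := by
  have a1 : Primrec (fun p : Dat × Dat => p.1.1.1) :=
    Primrec.fst.comp (Primrec.fst.comp Primrec.fst)
  have a2 : Primrec (fun p : Dat × Dat => p.1.1.2) :=
    Primrec.snd.comp (Primrec.fst.comp Primrec.fst)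
  have b1 : Primrec (fun p : Dat × Dat => p.2.1.1) :=
    Primrec.fst.comp (Primrec.fst.comp Primrec.snd)
  have b2 : Primrec (fun p : Dat × Dat => p.2.1.2) :=
    Primrec.snd.comp (Primrec.fst.comp Primrec.snd)
  exact Primrec.eq.comp (Primrec.nat_mul.comp a1 b2) (Primrec.nat_mul.comp b1 a2)

theorem primrec_cmp0 : PrimrecPred cmp0 := by
  have a3 : Primrec (fun p : Dat × Dat => p.1.2.1) :=
    Primrec.fst.comp (Primrec.snd.comp Primrec.fst)
  have a4 : Primrec (fun p : Dat × Dat => p.1.2.2) :=
    Primrec.snd.comp (Primrec.snd.comp Primrec.fst)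
  have b3 : Primrec (fun p : Dat × Dat => p.2.2.1) :=
    Primrec.fst.comp (Primrec.snd.comp Primrec.snd)
  have b4 : Primrec (fun p : Dat × Dat => p.2.2.2) :=
    Primrec.snd.comp (Primrec.snd.comp Primrec.snd)
  exact primrec_cpos.or (primrec_ceq.and ((primrec_kbR.comp (Primrec.pair a3 b3)).or
    ((Primrec.eq.comp a3 b3).and (Primrec.nat_lt.comp a4 b4))))

theorem primrec_cmp1 : PrimrecPred cmp1 := by
  have a3 : Primrec (fun p : Dat × Dat => p.1.2.1) :=
    Primrec.fst.comp (Primrec.snd.comp Primrec.fst)
  have a4 : Primrec (fun p : Dat × Dat => p.1.2.2) :=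
    Primrec.snd.comp (Primrec.snd.comp Primrec.fst)
  have b3 : Primrec (fun p : Dat × Dat => p.2.2.1) :=
    Primrec.fst.comp (Primrec.snd.comp Primrec.snd)
  have b4 : Primrec (fun p : Dat × Dat => p.2.2.2) :=
    Primrec.snd.comp (Primrec.snd.comp Primrec.snd)
  exact primrec_cpos.or (primrec_ceq.and ((primrec_kbR.comp (Primrec.pair b3 a3)).or
    ((Primrec.eq.comp a3 b3).and (Primrec.nat_lt.comp a4 b4))))

/-- data of an element, with the moving element at the finite sequence `s` -/
def dat (tT : List ℕ → Bool) (g : List ℕ → ℕ) (i : Fin 3) (s : List ℕ) (x : X) : Dat :=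
  ((num i x, den i x), (if i = 0 then (if kind x = 7 then s else l0 x) else if i = 1 then
    (if kind x = 7 then s else l1 tT g x) else [], tg i x))

theorem computable_dat (hT : Computable tT) (hg : Computable g) (i : Fin 3) :
    Computable₂ (fun (s : List ℕ) (x : X) => dat tT g i s x) := by
  have hx : Computable (fun q : List ℕ × X => q.2) := Computable.snd
  have hs : Computable (fun q : List ℕ × X => q.1) := Computable.fst
  have h1 : Computable (fun q : List ℕ × X => (num i q.2, den i q.2)) :=
    ((primrec_num i).to_comp.comp hx).pair ((primrec_den i).to_comp.comp hx)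
  have h3 : Computable (fun q : List ℕ × X => tg i q.2) := (primrec_tg i).to_comp.comp hx
  have hk : Computable (fun q : List ℕ × X => decide (kind q.2 = 7)) :=
    (primrec_kind_eq 7).decide.to_comp.comp hx
  have e0 : Computable (fun q : List ℕ × X => if kind q.2 = 7 then q.1 else l0 q.2) := by
    refine (Computable.cond hk hs (primrec_l0.to_comp.comp hx)).of_eq ?_
    intro q
    by_cases h : kind q.2 = 7 <;> simp [h]
  have e1 : Computable (fun q : List ℕ × X => if kind q.2 = 7 then q.1 else l1 tT g q.2) := by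
    refine (Computable.cond hk hs ((computable_l1 hT hg).comp hx)).of_eq ?_
    intro q
    by_cases h : kind q.2 = 7 <;> simp [h]
  have h2 : Computable (fun q : List ℕ × X => if i = 0 then (if kind q.2 = 7 then q.1 else l0 q.2)
      else if i = 1 then (if kind q.2 = 7 then q.1 else l1 tT g q.2) else []) := by
    by_cases hi0 : i = 0
    · simp only [hi0, if_true]; exact e0
    · by_cases hi1 : i = 1
      · simp only [hi0, hi1, if_false, if_true]; exact e1
      · simp only [hi0, hi1, if_false]; exact Computable.const []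
  exact h1.pair (h2.pair h3)

/-- the computable version of the key orders -/
def kd (tT : List ℕ → Bool) (g : List ℕ → ℕ) (i : Fin 3) (s : List ℕ) (x y : X) : Prop :=
  if i = 1 then cmp1 (dat tT g i s x, dat tT g i s y) else cmp0 (dat tT g i s x, dat tT g i s y)

theorem kd_iff (i : Fin 3) (s : List ℕ) (x y : X) :
    kd tT g i s x y ↔ keylt tT g (hat s) i x y := by
  unfold keylt
  rw [pos_lt_iff, pos_eq_iff]
  have h0 : ∀ z : X, p0 (hat s) z = hat (if kind z = 7 then s else l0 z) := by
    intro z; unfold p0; split_ifs <;> rfl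
  have h1 : ∀ z : X, p1 tT g (hat s) z = hat (if kind z = 7 then s else l1 tT g z) := by
    intro z; unfold p1; split_ifs <;> rfl
  have hi : i = 0 ∨ i = 1 ∨ i = 2 := by revert i; decide
  rcases hi with rfl | rfl | rfl
  · rw [fine0, h0 x, h0 y, ← kbR_iff, hat_injective.eq_iff]
    simp [kd, cmp0, cpos, dat]
  · rw [fine1, h1 x, h1 y, ← kbR_iff, hat_injective.eq_iff]
    simp [kd, cmp1, cpos, dat]
  · simp only [kd, cmp0, cpos, dat, fine]
    have e1 : ¬ (2 : Fin 3) = 1 := by decide
    have e2 : ¬ (2 : Fin 3) = 0 := by decide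
    have e3 : tg 2 x = 0 := by simp [tg, tagT]
    have e4 : tg 2 y = 0 := by simp [tg, tagT]
    simp [e1, e2, e3, e4, kbR]

open Classical in
/-- boolean version -/
noncomputable def kdb (tT : List ℕ → Bool) (g : List ℕ → ℕ) (i : Fin 3)
    (q : List ℕ × X × X) : Bool := decide (kd tT g i q.1 q.2.1 q.2.2)

theorem computable_kd (hT : Computable tT) (hg : Computable g) (i : Fin 3) :
    Computable (kdb tT g i) := by
  have hd := computable_dat hT hg i
  have hp : Computable (fun q : List ℕ × X × X => (dat tT g i q.1 q.2.1, dat tT g i q.1 q.2.2)) :=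
    (hd.comp Computable.fst (Computable.fst.comp Computable.snd)).pair
      (hd.comp Computable.fst (Computable.snd.comp Computable.snd))
  by_cases hi : i = 1
  · subst hi
    obtain ⟨h1, h2⟩ := primrec_cmp1
    exact (h2.to_comp.comp hp).of_eq (fun q => by simp [kdb, kd])
  · obtain ⟨h1, h2⟩ := primrec_cmp0
    exact (h2.to_comp.comp hp).of_eq (fun q => by simp [kdb, kd, hi])

theorem kdb_iff (i : Fin 3) (s : List ℕ) (x y : X) :
    kdb tT g i (s, x, y) = true ↔ keylt tT g (hat s) i x y := by
  have h : kdb tT g i (s, x, y) = true ↔ kd tT g i s x y := by simp [kdb]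
  exact h.trans (kd_iff i s x y)

/-- comparison of positions is primitive recursive -/
theorem primrec_pos (i : Fin 3) : PrimrecPred (fun q : X × X => pos i q.1 < pos i q.2) := by
  have h := Primrec.nat_lt.comp
    (Primrec.nat_mul.comp ((primrec_num i).comp Primrec.fst) ((primrec_den i).comp Primrec.snd))
    (Primrec.nat_mul.comp ((primrec_num i).comp Primrec.snd) ((primrec_den i).comp Primrec.fst))
  exact h.of_eq (fun q => (pos_lt_iff i q.1 q.2).symm)

theorem primrec_posall : PrimrecPred (fun q : X × X => ∀ i, pos i q.1 < pos i q.2) := by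
  refine ((primrec_pos 0).and ((primrec_pos 1).and (primrec_pos 2))).of_eq ?_
  intro q
  constructor
  · rintro ⟨h0, h1, h2⟩ i
    fin_cases i
    · exact h0
    · exact h1
    · exact h2
  · intro h
    exact ⟨h 0, h 1, h 2⟩

open Classical in
/-- the strict partial ordering is computable -/
theorem computable_Rs (hT : Computable tT) (hg : Computable g) :
    Computable (fun q : X × X => decide (Rs tT g q.1 q.2)) := by
  have hand : Computable₂ (fun a b : Bool => a && b) := Primrec.and.to_comp
  have hor : Computable₂ (fun a b : Bool => a || b) := Primrec.or.to_comp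
  have hk1 : ∀ k, Computable (fun q : X × X => decide (kind q.1 = k)) := by
    intro k
    exact ((primrec_kind_eq k).decide.to_comp.comp Computable.fst).of_eq (fun q => by simp)
  have hk2 : ∀ k, Computable (fun q : X × X => decide (kind q.2 = k)) := by
    intro k
    exact ((primrec_kind_eq k).decide.to_comp.comp Computable.snd).of_eq (fun q => by simp)
  have hnot : Computable (fun a : Bool => !a) := Primrec.not.to_comp
  have hkd : ∀ i, Computable (fun q : X × X => kdb tT g i ([], q.1, q.2)) := by
    intro i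
    have hq : Computable (fun q : X × X => (([], q.1, q.2) : List ℕ × X × X)) :=
      (Computable.const []).pair (Computable.fst.pair Computable.snd)
    exact (computable_kd hT hg i).comp hq
  have hpos : Computable (fun q : X × X => decide (∀ i, pos i q.1 < pos i q.2)) := by
    obtain ⟨h1, h2⟩ := primrec_posall
    exact h2.to_comp.of_eq (fun q => by simp)
  have A := hand.comp (hnot.comp (hk1 7)) (hand.comp (hnot.comp (hk2 7))
    (hand.comp (hkd 0) (hand.comp (hkd 1) (hkd 2))))
  have B := hand.comp (hk1 7) (hand.comp (hk2 0) hpos)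
  have C := hand.comp (hk2 7) (hor.comp (hand.comp (hk1 0) hpos) (hor.comp (hk1 5) (hk1 6)))
  refine (hor.comp A (hor.comp B C)).of_eq ?_
  rintro ⟨x, y⟩
  have e : (∀ i, keylt tT g (hat []) i x y) ↔
      kdb tT g 0 ([], x, y) = true ∧ kdb tT g 1 ([], x, y) = true ∧
      kdb tT g 2 ([], x, y) = true := by
    constructor
    · intro h
      exact ⟨(kdb_iff _ _ _ _).mpr (h 0), (kdb_iff _ _ _ _).mpr (h 1),
        (kdb_iff _ _ _ _).mpr (h 2)⟩
    · rintro ⟨h0, h1, h2⟩ i
      rw [← kdb_iff]
      fin_cases i
      · exact h0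
      · exact h1
      · exact h2
  rw [Bool.eq_iff_iff]
  rw [decide_eq_true_eq]
  unfold Rs
  rw [e]
  simp only [Bool.or_eq_true, Bool.and_eq_true, Bool.not_eq_true', decide_eq_true_eq,
    decide_eq_false_iff_not, ne_eq]

end Pool.Agent.Work.MP_02e4ca_lc
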