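import Mathlib
import Pool.Agent.Work.MP_02e4ca_lc.Defs
import Pool.Agent.Work.MP_02e4ca_lc.Comb
import Pool.Agent.Work.MP_02e4ca_lc.Comp
import Pool.Agent.Work.MP_02e4ca_lc.Cert

/-!
Assembly of the representation theorem.
-/

set_option autoImplicit false

namespace Pool.Agent.Work.MP_02e4ca_lc.Final

open Pool.Agent.Work.MP_02e4ca_lc Pool.Agent.Work.MP_02e4ca_lc.Problem

/-! ### The empty class -/

/-- a partial ordering of dimension four -/
def R4 (a b : ℕ) : Prop := a < 8 ∧ b < 8 ∧ (a = b ∨ (a < 4 ∧ 4 ≤ b ∧ b ≠ a + 4))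

theorem po4 : IsComputablePO {a | a < 8} R4 := by
  refine ⟨⟨?_, ?_, ?_, ?_⟩, ?_, ?_⟩
  · rintro a b ⟨h1, h2, -⟩; exact ⟨h1, h2⟩
  · intro a ha; exact ⟨ha, ha, Or.inl rfl⟩
  · rintro a b ⟨-, -, h1⟩ ⟨-, -, h2⟩; omega
  · rintro a b c ⟨h1, h2, h3⟩ ⟨h4, h5, h6⟩
    refine ⟨h1, h5, ?_⟩
    omega
  · exact (Primrec.nat_lt.comp Primrec.id (Primrec.const 8)).computablePred
  · have h8 := Primrec.const (α := ℕ × ℕ) 8
    have h4 := Primrec.const (α := ℕ × ℕ) 4
    have hf := Primrec.fst (α := ℕ) (β := ℕ)
    have hs := Primrec.snd (α := ℕ) (β := ℕ)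
    exact PrimrecPred.computablePred ((Primrec.nat_lt.comp hf h8).and
      ((Primrec.nat_lt.comp hs h8).and ((Primrec.eq.comp hf hs).or
        ((Primrec.nat_lt.comp hf h4).and ((Primrec.nat_le.comp h4 hs).and
          (Primrec.eq.comp hs (Primrec.nat_add.comp hf h4)).not)))))

theorem no_sol4 (L : Fin 3 → ℕ → ℕ → Prop) (h : L ∈ Solutions {a | a < 8} R4 3) : False := by
  obtain ⟨hlin, hrel⟩ := h
  have h1 : ∀ i : Fin 4, ∃ k, L k (i.val + 4) i.val := by
    intro i
    by_contra hcon
    push Not at hcon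
    have hR : R4 i.val (i.val + 4) := by
      rw [hrel]
      refine ⟨by have := i.2; simp; omega, by have := i.2; simp; omega, ?_⟩
      intro k
      rcases (hlin k).2 i.val (by have := i.2; simp; omega) (i.val + 4)
        (by have := i.2; simp; omega) with h2 | h2
      · exact h2
      · exact absurd h2 (hcon k)
    obtain ⟨-, -, h3⟩ := hR
    omega
  choose k hk using h1
  obtain ⟨i, j, hij, hkij⟩ := Fintype.exists_ne_map_eq_of_card_lt k (by simp)
  have hij' : i.val ≠ j.val := fun h => hij (Fin.ext h)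
  have hi := i.2
  have hj := j.2
  have e1 : L (k i) i.val (j.val + 4) := ((hrel _ _).mp (⟨by omega, by omega, Or.inr
    ⟨by omega, by omega, by omega⟩⟩ : R4 i.val (j.val + 4))).2.2 _
  have e2 : L (k i) j.val (i.val + 4) := ((hrel _ _).mp (⟨by omega, by omega, Or.inr
    ⟨by omega, by omega, by omega⟩⟩ : R4 j.val (i.val + 4))).2.2 _
  have e3 := hk i
  have e4 := hk j
  rw [← hkij] at e4
  have htr := (hlin (k i)).1.2.2.2
  have e5 := htr _ _ _ e1 (htr _ _ _ e4 e2)
  have := (hlin (k i)).1.2.2.1 _ _ e3 e5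
  omega

/-! ### Coding of tuples -/

open Classical in
theorem code_eq {n : ℕ} (L : Fin n → ℕ → ℕ → Prop) (k : ℕ) :
    code L k = if ∃ hi : k.unpair.1 < n, L ⟨k.unpair.1, hi⟩ k.unpair.2.unpair.1 k.unpair.2.unpair.2
      then 1 else 0 := by
  unfold code
  congr 1
  apply propext
  constructor
  · rintro ⟨i, a, b, rfl, h⟩
    simp only [Nat.unpair_pair]
    exact ⟨i.2, h⟩
  · rintro ⟨hi, h⟩
    exact ⟨⟨k.unpair.1, hi⟩, _, _, by simp, h⟩

theorem code_pair {n : ℕ} (L : Fin n → ℕ → ℕ → Prop) (i : Fin n) (a b : ℕ) :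
    (code L (Nat.pair i.val (Nat.pair a b)) = 1 ↔ L i a b) ∧
    (code L (Nat.pair i.val (Nat.pair a b)) = 0 ↔ ¬ L i a b) := by
  classical
  rw [code_eq]
  simp only [Nat.unpair_pair]
  by_cases h : L i a b
  · have : ∃ hi : i.val < n, L ⟨i.val, hi⟩ a b := ⟨i.2, h⟩
    simp [h]
  · have : ¬ ∃ hi : i.val < n, L ⟨i.val, hi⟩ a b := fun ⟨_, h1⟩ => h h1
    simp [h]

/-! ### The construction -/

/-- decoding of elements -/
def dec (a : ℕ) : X := Denumerable.ofNat X a

/-- coding of elements -/
def enc (x : X) : ℕ := Encodable.encode x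

theorem dec_enc (x : X) : dec (enc x) = x := Denumerable.ofNat_encode x

theorem enc_dec (a : ℕ) : enc (dec a) = a := Denumerable.encode_ofNat a

theorem dec_inj {a b : ℕ} (h : dec a = dec b) : a = b := by
  rw [← enc_dec a, ← enc_dec b, h]

theorem computable_dec : Computable dec := Computable.ofNat X

section

variable (tT : List ℕ → Bool) (g : List ℕ → ℕ)

/-- the partial ordering -/
def Rn (a b : ℕ) : Prop := a = b ∨ Rs tT g (dec a) (dec b)

/-- the linear orderings of a path -/
def Lf (f : ℕ → ℕ) (i : Fin 3) (a b : ℕ) : Prop :=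
  a = b ∨ keylt tT g (hatp (fun n => f n + 1)) i (dec a) (dec b)

variable {tT g}

theorem Lf_lin (hT : TreeHyp tT g) (f : ℕ → ℕ) (i : Fin 3) :
    IsLinearOrdering Set.univ (Lf tT g f i) := by
  refine ⟨⟨fun a b _ => ⟨trivial, trivial⟩, fun a _ => Or.inl rfl, ?_, ?_⟩, ?_⟩
  · rintro a b (h1 | h1) (h2 | h2)
    · exact h1
    · exact h1
    · exact h2.symm
    · exact absurd h2 (keylt_asymm h1)
  · rintro a b c (h1 | h1) (h2 | h2)
    · exact Or.inl (h1.trans h2)
    · subst h1; exact Or.inr h2
    · subst h2; exact Or.inr h1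
    · exact Or.inr (keylt_trans h1 h2)
  · intro a _ b _
    by_cases hab : a = b
    · exact Or.inl (Or.inl hab)
    · rcases keylt_total hT (c := fun n => f n + 1) (i := i) (x := dec a) (y := dec b)
        (fun h => hab (dec_inj h)) with h | h
      · exact Or.inl (Or.inr h)
      · exact Or.inr (Or.inr h)

theorem Lf_sol (hT : TreeHyp tT g) (f : ℕ → ℕ) (hf : ∀ n, tT ((List.range n).map f) = true) :
    Lf tT g f ∈ Solutions Set.univ (Rn tT g) 3 := by
  refine ⟨Lf_lin hT f, ?_⟩
  intro a b
  by_cases hab : a = b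
  · subst hab
    exact ⟨fun _ => ⟨trivial, trivial, fun i => Or.inl rfl⟩, fun _ => Or.inl rfl⟩
  · have hne : dec a ≠ dec b := fun h => hab (dec_inj h)
    constructor
    · rintro (h | h)
      · exact absurd h hab
      · exact ⟨trivial, trivial, fun i => Or.inr ((sol hT f hf hne).mp h i)⟩
    · rintro ⟨-, -, h⟩
      refine Or.inr ((sol hT f hf hne).mpr ?_)
      intro i
      rcases h i with h1 | h1
      · exact absurd h1 hab
      · exact h1

theorem Rn_po (hT : TreeHyp tT g) (f : ℕ → ℕ) (hf : ∀ n, tT ((List.range n).map f) = true) :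
    IsPartialOrdering Set.univ (Rn tT g) := by
  have hs := Lf_sol hT f hf
  have hrel := hs.2
  refine ⟨fun a b _ => ⟨trivial, trivial⟩, fun a _ => Or.inl rfl, ?_, ?_⟩
  · intro a b h1 h2
    exact (hs.1 0).1.2.2.1 a b (((hrel a b).mp h1).2.2 0) (((hrel b a).mp h2).2.2 0)
  · intro a b c h1 h2
    rw [hrel] at h1 h2 ⊢
    exact ⟨trivial, trivial, fun i => (hs.1 i).1.2.2.2 a b c (h1.2.2 i) (h2.2.2 i)⟩

theorem Rn_computable (hTc : Computable tT) (hgc : Computable g) :
    ComputablePred (fun p : ℕ × ℕ => Rn tT g p.1 p.2) := by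
  classical
  rw [ComputablePred.computable_iff]
  have h1 : Computable (fun p : ℕ × ℕ => (dec p.1, dec p.2)) :=
    (computable_dec.comp Computable.fst).pair (computable_dec.comp Computable.snd)
  have h2 := (computable_Rs hTc hgc).comp h1
  have h3 : Computable (fun p : ℕ × ℕ => decide (p.1 = p.2)) :=
    (Primrec.eq (α := ℕ)).decide.to_comp.comp Computable.fst Computable.snd
  have hor : Computable₂ (fun a b : Bool => a || b) := Primrec.or.to_comp
  refine ⟨_, hor.comp h3 h2, ?_⟩
  funext p
  unfold Rn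
  simp

/-- every solution comes from a path -/
theorem sol_path (hT : TreeHyp tT g) (L : Fin 3 → ℕ → ℕ → Prop)
    (hL : L ∈ Solutions Set.univ (Rn tT g) 3) :
    ∃ (f : ℕ → ℕ) (π : Equiv.Perm (Fin 3)), (∀ n, tT ((List.range n).map f) = true) ∧
      ∀ i, L (π i) = Lf tT g f i := by
  obtain ⟨hlin, hrel⟩ := hL
  have hslo : ∀ k, SLO (fun x y : X => L k (enc x) (enc y) ∧ x ≠ y) := by
    intro k
    refine ⟨fun x h => h.2 rfl, ?_, ?_⟩
    · rintro x y z ⟨h1, h2⟩ ⟨h3, h4⟩
      refine ⟨(hlin k).1.2.2.2 _ _ _ h1 h3, ?_⟩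
      rintro rfl
      exact h2 (Encodable.encode_injective ((hlin k).1.2.2.1 _ _ h1 h3))
    · intro x y hne
      rcases (hlin k).2 (enc x) trivial (enc y) trivial with h | h
      · exact Or.inl ⟨h, hne⟩
      · exact Or.inr ⟨h, hne.symm⟩
  have hr : ∀ x y : X, x ≠ y → (Rs tT g x y ↔ ∀ k, L k (enc x) (enc y) ∧ x ≠ y) := by
    intro x y hne
    have h1 := hrel (enc x) (enc y)
    unfold Rn at h1
    rw [dec_enc, dec_enc] at h1
    constructor
    · intro h k
      exact ⟨(h1.mp (Or.inr h)).2.2 k, hne⟩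
    · intro h
      rcases h1.mpr ⟨trivial, trivial, fun k => (h k).1⟩ with h2 | h2
      · exact absurd (Encodable.encode_injective h2) hne
      · exact h2
  obtain ⟨π, f, hf, h⟩ := realizer hT _ hslo hr
  refine ⟨f, π, hf, ?_⟩
  intro i
  funext a b
  apply propext
  have h1 := h i (dec a) (dec b)
  simp only [enc_dec] at h1
  unfold Lf
  by_cases hab : a = b
  · subst hab
    exact ⟨fun _ => Or.inl rfl, fun _ => (hlin _).1.2.1 a trivial⟩
  · have hne : dec a ≠ dec b := fun h => hab (dec_inj h)
    constructor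
    · intro h2
      exact Or.inr (h1.mp ⟨h2, hne⟩)
    · rintro (h2 | h2)
      · exact absurd h2 hab
      · exact (h1.mpr h2).1

/-- the comparison of `gamma` elements with the moving element -/
theorem Lf_gamma (f : ℕ → ℕ) (τ : List ℕ) :
    Lf tT g f 0 (enc (3, τ)) (enc (7, [])) ↔ hat τ < hatp (fun n => f n + 1) := by
  unfold Lf
  rw [dec_enc, dec_enc, keylt_fib (isF0_3 τ) isF0_7, fine0, p0_3, p0_7]
  constructor
  · rintro (h | h | ⟨h, -⟩)
    · have := Encodable.encode_injective h
      simp at this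
    · exact h
    · exact absurd h (hat_ne_hatp _ _)
  · intro h
    exact Or.inr (Or.inl h)

/-- a sequence is the list of its first values -/
def st (f : ℕ → ℕ) (j : ℕ) : List ℕ := (List.range j).map (fun m => f m + 1)

theorem st_length (f : ℕ → ℕ) (j : ℕ) : (st f j).length = j := by simp [st]

theorem ent_st (f : ℕ → ℕ) (j m : ℕ) (h : m < j) : ent (st f j) m = WithTop.some (f m + 1) :=
  ent_map_range (fun m => f m + 1) j m h

theorem st_lt_iff (f : ℕ → ℕ) (j v : ℕ) :
    hat (st f j ++ [v]) < hatp (fun n => f n + 1) ↔ v < f j + 1 := by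
  have hl := st_length f j
  constructor
  · rintro ⟨k, h1, h2⟩
    change ent (st f j ++ [v]) k < WithTop.some (f k + 1) at h2
    rcases lt_trichotomy k j with h3 | h3 | h3
    · rw [ent_append_left (by rw [hl]; exact h3), ent_st f j k h3] at h2
      exact absurd h2 (lt_irrefl _)
    · subst h3
      have := ent_append_length (st f k) [] v
      rw [hl] at this
      rw [this] at h2
      exact WithTop.coe_lt_coe.mp h2
    · rw [ent_of_ge (by simp [hl]; omega)] at h2
      exact absurd h2 (not_lt.mpr le_top)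
  · intro h
    refine ⟨j, ?_, ?_⟩
    · intro m hm
      change ent (st f j ++ [v]) m = WithTop.some (f m + 1)
      rw [ent_append_left (by rw [hl]; exact hm), ent_st f j m hm]
    · change ent (st f j ++ [v]) j < WithTop.some (f j + 1)
      have := ent_append_length (st f j) [] v
      rw [hl] at this
      rw [this]
      exact WithTop.coe_lt_coe.mpr h

theorem path_unique {f f' : ℕ → ℕ}
    (h : ∀ τ, hat τ < hatp (fun n => f n + 1) ↔ hat τ < hatp (fun n => f' n + 1)) : f = f' := by
  funext n
  induction n using Nat.strong_induction_on with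
  | _ n ih =>
    have hst : st f n = st f' n := by
      unfold st
      apply List.map_congr_left
      intro m hm
      rw [ih m (List.mem_range.mp hm)]
    have h1 : ∀ v, v < f n + 1 ↔ v < f' n + 1 := by
      intro v
      rw [← st_lt_iff, ← st_lt_iff, ← hst]
      exact h _
    have h2 := h1 (f n)
    have h3 := h1 (f' n)
    omega

/-- the permutation and the path are unique -/
theorem Lf_unique {f f' : ℕ → ℕ} (ρ : Equiv.Perm (Fin 3))
    (h : ∀ i, Lf tT g f i = Lf tT g f' (ρ i)) : f = f' := by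
  have hρ : ∀ i, ρ i = i := by
    intro i
    obtain ⟨x, hx, h1⟩ := exists_frame (fun j => if j = i then 1 else 3)
      (fun j => if j = i then 2 else 4)
      (fun j => by split_ifs <;> norm_num)
      (fun j => by split_ifs <;> norm_num)
    obtain ⟨y, hy, h2⟩ := exists_frame (fun j => if j = i then 3 else 1)
      (fun j => if j = i then 4 else 2)
      (fun j => by split_ifs <;> norm_num)
      (fun j => by split_ifs <;> norm_num)
    have h3 : pos i x < pos i y := by
      have a1 := (h1 i).2
      have a2 := (h2 i).1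
      simp only [if_true] at a1 a2
      linarith
    have h4 : Lf tT g f i (enc x) (enc y) := by
      refine Or.inr (Or.inl ?_)
      rw [dec_enc, dec_enc]; exact h3
    rw [h i] at h4
    by_contra hne
    have h5 : pos (ρ i) y < pos (ρ i) x := by
      have a1 := (h1 (ρ i)).1
      have a2 := (h2 (ρ i)).2
      simp only [hne, if_false] at a1 a2
      linarith
    rcases h4 with h4 | h4
    · have h6 := Encodable.encode_injective h4
      subst h6
      exact absurd h3 (lt_irrefl _)
    · rw [dec_enc, dec_enc] at h4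
      exact absurd (keylt_pos_le h4) (not_le.mpr h5)
  apply path_unique
  intro τ
  rw [← Lf_gamma (tT := tT) (g := g), ← Lf_gamma (tT := tT) (g := g), h 0, hρ 0]

/-! ### Turing reductions -/

/-- first value test -/
def t1 (u : List ℕ) (j : ℕ) : List ℕ := st (fun m => u.getD m 0) j ++ [u.getD j 0]

/-- second value test -/
def t2 (u : List ℕ) (j : ℕ) : List ℕ := st (fun m => u.getD m 0) j ++ [u.getD j 0 + 1]

theorem primrec_st : Primrec₂ (fun (u : List ℕ) (j : ℕ) => st (fun m => u.getD m 0) j) := by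
  have h1 : Primrec (fun p : List ℕ × ℕ => List.range p.2) := Primrec.list_range.comp Primrec.snd
  have h2 : Primrec₂ (fun (p : List ℕ × ℕ) (m : ℕ) => p.1.getD m 0 + 1) :=
    Primrec.succ.comp₂ ((Primrec.list_getD 0).comp₂ (Primrec.fst.comp₂ Primrec₂.left) Primrec₂.right)
  exact Primrec.list_map h1 h2

theorem primrec_t1 : Primrec₂ t1 := by
  have h1 : Primrec₂ (fun (u : List ℕ) (j : ℕ) => [u.getD j 0]) :=
    Primrec.list_cons.comp₂ (Primrec.list_getD 0) (Primrec₂.const [])
  exact Primrec.list_append.comp₂ primrec_st h1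

theorem primrec_t2 : Primrec₂ t2 := by
  have h1 : Primrec₂ (fun (u : List ℕ) (j : ℕ) => [u.getD j 0 + 1]) :=
    Primrec.list_cons.comp₂ (Primrec.succ.comp₂ (Primrec.list_getD 0)) (Primrec₂.const [])
  exact Primrec.list_append.comp₂ primrec_st h1

/-- the query -/
def qr (k : ℕ) (τ : List ℕ) : ℕ := Nat.pair k (Nat.pair (enc (3, τ)) (enc (7, [])))

theorem primrec_qr (k : ℕ) : Primrec (qr k) := by
  refine Primrec₂.natPair.comp (Primrec.const k) (Primrec₂.natPair.comp ?_ (Primrec.const _))
  have : Primrec (fun τ : List ℕ => ((3, τ) : ℕ × List ℕ)) :=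
    Primrec.pair (Primrec.const 3) Primrec.id
  exact Primrec.encode.comp this

/-- certificate for the values of the path -/
def C1 (k : ℕ) (n s : ℕ) : List (ℕ × ℕ) :=
  (List.range (n + 1)).map (fun j => (qr k (t1 (Denumerable.ofNat (List ℕ) s) j), 1)) ++
  (List.range (n + 1)).map (fun j => (qr k (t2 (Denumerable.ofNat (List ℕ) s) j), 0))

theorem primrec_C1 (k : ℕ) : Primrec₂ (C1 k) := by
  have h0 : Primrec (fun p : ℕ × ℕ => List.range (p.1 + 1)) :=
    Primrec.list_range.comp (Primrec.succ.comp Primrec.fst)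
  have hu : Primrec₂ (fun (p : ℕ × ℕ) (_ : ℕ) => Denumerable.ofNat (List ℕ) p.2) :=
    ((Primrec.ofNat (List ℕ)).comp Primrec.snd).comp₂ Primrec₂.left
  have h1 : Primrec₂ (fun (p : ℕ × ℕ) (j : ℕ) =>
      ((qr k (t1 (Denumerable.ofNat (List ℕ) p.2) j), 1) : ℕ × ℕ)) :=
    Primrec₂.pair.comp₂ ((primrec_qr k).comp₂ (primrec_t1.comp₂ hu Primrec₂.right))
      (Primrec₂.const 1)
  have h2 : Primrec₂ (fun (p : ℕ × ℕ) (j : ℕ) =>
      ((qr k (t2 (Denumerable.ofNat (List ℕ) p.2) j), 0) : ℕ × ℕ)) :=
    Primrec₂.pair.comp₂ ((primrec_qr k).comp₂ (primrec_t2.comp₂ hu Primrec₂.right))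
      (Primrec₂.const 0)
  exact Primrec.list_append.comp (Primrec.list_map h0 h1) (Primrec.list_map h0 h2)

theorem st_congr {f f' : ℕ → ℕ} {j : ℕ} (h : ∀ m < j, f m = f' m) : st f j = st f' j := by
  unfold st
  apply List.map_congr_left
  intro m hm
  rw [h m (List.mem_range.mp hm)]

theorem reduce1 (f : ℕ → ℕ) (L : Fin 3 → ℕ → ℕ → Prop) (k : Fin 3)
    (hL : L k = Lf tT g f 0) :
    TuringReducible (fun n => Part.some (f n)) (fun n => Part.some (code L n)) := by
  have key : ∀ τ, (code L (qr k τ) = 1 ↔ hat τ < hatp (fun n => f n + 1)) ∧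
      (code L (qr k τ) = 0 ↔ ¬ hat τ < hatp (fun n => f n + 1)) := by
    intro τ
    rw [← Lf_gamma (tT := tT) (g := g), ← hL]
    exact code_pair L k _ _
  refine cert_reducible f (code L) (C1 k) (fun n s => (Denumerable.ofNat (List ℕ) s).getD n 0)
    (primrec_C1 k).to_comp ?_ ?_ ?_
  · exact ((Primrec.list_getD 0).comp ((Primrec.ofNat (List ℕ)).comp Primrec.snd)
      Primrec.fst).to_comp
  · intro n
    refine ⟨Encodable.encode ((List.range (n + 1)).map f), ?_⟩
    intro p hp
    unfold C1 at hp
    rw [Denumerable.ofNat_encode] at hp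
    have hget : ∀ m < n + 1, ((List.range (n + 1)).map f).getD m 0 = f m := by
      intro m hm
      rw [List.getD_eq_getElem _ _ (by simpa using hm)]
      simp
    rcases List.mem_append.mp hp with hp | hp
    · obtain ⟨j, hj, rfl⟩ := List.mem_map.mp hp
      have hj' := List.mem_range.mp hj
      simp only
      rw [(key _).1]
      unfold t1
      rw [st_congr (f' := f) (fun m hm => hget m (by omega)), hget j hj', st_lt_iff]
      omega
    · obtain ⟨j, hj, rfl⟩ := List.mem_map.mp hp
      have hj' := List.mem_range.mp hj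
      simp only
      rw [(key _).2]
      unfold t2
      rw [st_congr (f' := f) (fun m hm => hget m (by omega)), hget j hj', st_lt_iff]
      omega
  · intro n s hs
    have hval : ∀ j < n + 1, (Denumerable.ofNat (List ℕ) s).getD j 0 = f j := by
      intro j
      induction j using Nat.strong_induction_on with
      | _ j ih =>
        intro hj
        have h1 := hs (qr k (t1 (Denumerable.ofNat (List ℕ) s) j), 1) (by
          unfold C1
          exact List.mem_append_left _ (List.mem_map.mpr ⟨j, List.mem_range.mpr hj, rfl⟩))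
        have h2 := hs (qr k (t2 (Denumerable.ofNat (List ℕ) s) j), 0) (by
          unfold C1
          exact List.mem_append_right _ (List.mem_map.mpr ⟨j, List.mem_range.mpr hj, rfl⟩))
        simp only at h1 h2
        rw [(key _).1] at h1
        rw [(key _).2] at h2
        unfold t1 at h1
        unfold t2 at h2
        rw [st_congr (f' := f) (fun m hm => ih m hm (by omega)), st_lt_iff] at h1 h2
        omega
    exact hval n (by omega)

/-! the second reduction -/

theorem approx_lt (f : ℕ → ℕ) (m : ℕ) (τ : List ℕ) (h : τ.length < m) :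
    (hat τ < hatp (fun n => f n + 1) ↔ hat τ < hat (st f m)) ∧
    (hatp (fun n => f n + 1) < hat τ ↔ hat (st f m) < hat τ) ∧ hat τ ≠ hat (st f m) := by
  have hl := st_length f m
  refine ⟨⟨?_, ?_⟩, ⟨?_, ?_⟩, ?_⟩
  · rintro ⟨k, h1, h2⟩
    change ∀ j < k, ent τ j = WithTop.some (f j + 1) at h1
    change ent τ k < WithTop.some (f k + 1) at h2
    have hk : k < τ.length := ent_lt_top (lt_of_lt_of_le h2 le_top)
    refine ⟨k, ?_, ?_⟩
    · intro j hj
      change ent τ j = ent (st f m) j
      rw [ent_st f m j (by omega)]; exact h1 j hj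
    · change ent τ k < ent (st f m) k
      rw [ent_st f m k (by omega)]; exact h2
  · rintro ⟨k, h1, h2⟩
    change ∀ j < k, ent τ j = ent (st f m) j at h1
    change ent τ k < ent (st f m) k at h2
    have hk : k < τ.length := ent_lt_top (lt_of_lt_of_le h2 le_top)
    rw [ent_st f m k (by omega)] at h2
    refine ⟨k, ?_, h2⟩
    intro j hj
    change ent τ j = WithTop.some (f j + 1)
    rw [h1 j hj, ent_st f m j (by omega)]
  · rintro ⟨k, h1, h2⟩
    change ∀ j < k, WithTop.some (f j + 1) = ent τ j at h1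
    change WithTop.some (f k + 1) < ent τ k at h2
    have hk : k ≤ τ.length := by
      by_contra hcon
      have h3 := h1 τ.length (by omega)
      rw [ent_of_ge le_rfl] at h3
      simp at h3
    refine ⟨k, ?_, ?_⟩
    · intro j hj
      change ent (st f m) j = ent τ j
      rw [ent_st f m j (by omega)]; exact h1 j hj
    · change ent (st f m) k < ent τ k
      rw [ent_st f m k (by omega)]; exact h2
  · rintro ⟨k, h1, h2⟩
    change ∀ j < k, ent (st f m) j = ent τ j at h1
    change ent (st f m) k < ent τ k at h2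
    have hk : k < (st f m).length := ent_lt_top (lt_of_lt_of_le h2 le_top)
    rw [hl] at hk
    rw [ent_st f m k hk] at h2
    refine ⟨k, ?_, h2⟩
    intro j hj
    change WithTop.some (f j + 1) = ent τ j
    rw [← h1 j hj, ent_st f m j (by omega)]
  · intro h1
    have h2 := hat_injective h1
    rw [h2, hl] at h
    exact lt_irrefl _ h

theorem keylt_approx (f : ℕ → ℕ) (m : ℕ) (i : Fin 3) (x y : X)
    (h0x : (l0 x).length < m) (h0y : (l0 y).length < m)
    (h1x : (l1 tT g x).length < m) (h1y : (l1 tT g y).length < m) :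
    keylt tT g (hatp (fun n => f n + 1)) i x y ↔ keylt tT g (hat (st f m)) i x y := by
  unfold keylt fine p0 p1
  obtain ⟨a1, a2, a3⟩ := approx_lt f m (l0 x) h0x
  obtain ⟨b1, b2, b3⟩ := approx_lt f m (l0 y) h0y
  obtain ⟨c1, c2, c3⟩ := approx_lt f m (l1 tT g x) h1x
  obtain ⟨d1, d2, d3⟩ := approx_lt f m (l1 tT g y) h1y
  have n1 := hat_ne_hatp (l0 x) (fun n => f n + 1)
  have n2 := hat_ne_hatp (l0 y) (fun n => f n + 1)
  have n3 := hat_ne_hatp (l1 tT g x) (fun n => f n + 1)
  have n4 := hat_ne_hatp (l1 tT g y) (fun n => f n + 1)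
  by_cases hx : kind x = 7
  · by_cases hy : kind y = 7
    · simp only [hx, hy, if_true]
      have e1 : ¬ (hatp (fun n => f n + 1) < hatp (fun n => f n + 1)) := lt_irrefl _
      have e2 : ¬ (hat (st f m) < hat (st f m)) := lt_irrefl _
      simp only [e1, e2]
    · simp only [hx, hy, if_true, if_false, b2, d1, n2.symm, n4.symm, b3.symm, d3.symm]
  · by_cases hy : kind y = 7
    · simp only [hx, hy, if_true, if_false, a1, c2, n1, n3, a3, c3]
    · simp only [hx, hy, if_false]

/-- length bound -/
def mb (tT : List ℕ → Bool) (g : List ℕ → ℕ) (n : ℕ) : ℕ :=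
  (l0 (dec n.unpair.2.unpair.1)).length + (l0 (dec n.unpair.2.unpair.2)).length +
  (l1 tT g (dec n.unpair.2.unpair.1)).length + (l1 tT g (dec n.unpair.2.unpair.2)).length + 1

theorem computable_mb (hTc : Computable tT) (hgc : Computable g) : Computable (mb tT g) := by
  have ha : Computable (fun n : ℕ => dec n.unpair.2.unpair.1) :=
    computable_dec.comp (Primrec.fst.comp (Primrec.unpair.comp
      (Primrec.snd.comp Primrec.unpair))).to_comp
  have hb : Computable (fun n : ℕ => dec n.unpair.2.unpair.2) :=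
    computable_dec.comp (Primrec.snd.comp (Primrec.unpair.comp
      (Primrec.snd.comp Primrec.unpair))).to_comp
  have hadd : Computable₂ (fun a b : ℕ => a + b) := Primrec.nat_add.to_comp
  have e1 := Computable.list_length.comp (primrec_l0.to_comp.comp ha)
  have e2 := Computable.list_length.comp (primrec_l0.to_comp.comp hb)
  have e3 := Computable.list_length.comp ((computable_l1 hTc hgc).comp ha)
  have e4 := Computable.list_length.comp ((computable_l1 hTc hgc).comp hb)
  exact Computable.succ.comp (hadd.comp (hadd.comp (hadd.comp e1 e2) e3) e4)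

/-- certificate for the values of the tuple -/
def C2 (tT : List ℕ → Bool) (g : List ℕ → ℕ) (n s : ℕ) : List (ℕ × ℕ) :=
  (List.range (mb tT g n)).map (fun j => (j, (Denumerable.ofNat (List ℕ) s).getD j 0))

/-- value in coordinate `i` -/
noncomputable def v2 (tT : List ℕ → Bool) (g : List ℕ → ℕ) (i : Fin 3) (n s : ℕ) : Bool :=
  decide (n.unpair.2.unpair.1 = n.unpair.2.unpair.2) ||
  kdb tT g i (st (fun m => (Denumerable.ofNat (List ℕ) s).getD m 0) (mb tT g n),
    dec n.unpair.2.unpair.1, dec n.unpair.2.unpair.2)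

/-- value of the tuple -/
noncomputable def V2 (tT : List ℕ → Bool) (g : List ℕ → ℕ) (π : Equiv.Perm (Fin 3))
    (n s : ℕ) : ℕ :=
  bif decide (n.unpair.1 = (π 0).val) then (bif v2 tT g 0 n s then 1 else 0) else
  bif decide (n.unpair.1 = (π 1).val) then (bif v2 tT g 1 n s then 1 else 0) else
  bif decide (n.unpair.1 = (π 2).val) then (bif v2 tT g 2 n s then 1 else 0) else 0

theorem computable_C2 (hTc : Computable tT) (hgc : Computable g) : Computable₂ (C2 tT g) := by
  have h : Primrec₂ (fun (m s : ℕ) =>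
      (List.range m).map (fun j => ((j, (Denumerable.ofNat (List ℕ) s).getD j 0) : ℕ × ℕ))) := by
    have h0 : Primrec (fun p : ℕ × ℕ => List.range p.1) := Primrec.list_range.comp Primrec.fst
    have h1 : Primrec₂ (fun (p : ℕ × ℕ) (j : ℕ) =>
        ((j, (Denumerable.ofNat (List ℕ) p.2).getD j 0) : ℕ × ℕ)) :=
      Primrec₂.pair.comp₂ Primrec₂.right ((Primrec.list_getD 0).comp₂
        (((Primrec.ofNat (List ℕ)).comp Primrec.snd).comp₂ Primrec₂.left) Primrec₂.right)
    exact Primrec.list_map h0 h1
  exact h.to_comp.comp ((computable_mb hTc hgc).comp Computable.fst) Computable.snd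

theorem computable_v2 (hTc : Computable tT) (hgc : Computable g) (i : Fin 3) :
    Computable₂ (v2 tT g i) := by
  have ha : Computable (fun q : ℕ × ℕ => q.1.unpair.2.unpair.1) :=
    (Primrec.fst.comp (Primrec.unpair.comp
      (Primrec.snd.comp (Primrec.unpair.comp Primrec.fst)))).to_comp
  have hb : Computable (fun q : ℕ × ℕ => q.1.unpair.2.unpair.2) :=
    (Primrec.snd.comp (Primrec.unpair.comp
      (Primrec.snd.comp (Primrec.unpair.comp Primrec.fst)))).to_comp
  have hor : Computable₂ (fun a b : Bool => a || b) := Primrec.or.to_comp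
  have h1 : Computable (fun q : ℕ × ℕ =>
      decide (q.1.unpair.2.unpair.1 = q.1.unpair.2.unpair.2)) :=
    (Primrec.eq (α := ℕ)).decide.to_comp.comp ha hb
  have hs : Computable (fun q : ℕ × ℕ =>
      st (fun m => (Denumerable.ofNat (List ℕ) q.2).getD m 0) (mb tT g q.1)) :=
    primrec_st.to_comp.comp ((Primrec.ofNat (List ℕ)).comp Primrec.snd).to_comp
      ((computable_mb hTc hgc).comp Computable.fst)
  have h2 : Computable (fun q : ℕ × ℕ =>
      ((st (fun m => (Denumerable.ofNat (List ℕ) q.2).getD m 0) (mb tT g q.1),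
        dec q.1.unpair.2.unpair.1, dec q.1.unpair.2.unpair.2) : List ℕ × X × X)) :=
    hs.pair ((computable_dec.comp ha).pair (computable_dec.comp hb))
  exact hor.comp h1 ((computable_kd hTc hgc i).comp h2)

theorem computable_V2 (hTc : Computable tT) (hgc : Computable g) (π : Equiv.Perm (Fin 3)) :
    Computable₂ (V2 tT g π) := by
  have hk : ∀ c : ℕ, Computable (fun q : ℕ × ℕ => decide (q.1.unpair.1 = c)) := fun c =>
    (Primrec.eq (α := ℕ)).decide.to_comp.comp
      (Primrec.fst.comp (Primrec.unpair.comp Primrec.fst)).to_comp (Computable.const c)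
  have hv : ∀ i, Computable (fun q : ℕ × ℕ => bif v2 tT g i q.1 q.2 then 1 else 0) := fun i =>
    Computable.cond (computable_v2 hTc hgc i) (Computable.const 1) (Computable.const 0)
  exact Computable.cond (hk _) (hv 0) (Computable.cond (hk _) (hv 1)
    (Computable.cond (hk _) (hv 2) (Computable.const 0)))

theorem fin3_cases (i : Fin 3) : i = 0 ∨ i = 1 ∨ i = 2 := by revert i; decide

theorem vfinal (π : Equiv.Perm (Fin 3)) (Q : Prop) [Decidable Q] (k : ℕ) (v : Fin 3 → Bool)
    (h : ∀ i, k = (π i).val → (Q ↔ v i = true)) (hno : Q → ∃ i, k = (π i).val) :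
    (bif decide (k = (π 0).val) then (bif v 0 then 1 else 0) else
      bif decide (k = (π 1).val) then (bif v 1 then 1 else 0) else
      bif decide (k = (π 2).val) then (bif v 2 then 1 else 0) else 0) =
    (if Q then 1 else 0 : ℕ) := by
  have hb : ∀ i, k = (π i).val → (bif v i then 1 else 0 : ℕ) = if Q then 1 else 0 := by
    intro i hi
    by_cases hQ : Q
    · rw [if_pos hQ, (h i hi).mp hQ]; rfl
    · rw [if_neg hQ]
      have : v i = false := by
        rw [← Bool.not_eq_true]
        exact fun hv => hQ ((h i hi).mpr hv)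
      rw [this]; rfl
  by_cases h0 : k = (π 0).val
  · rw [decide_eq_true h0, cond_true]; exact hb 0 h0
  · rw [decide_eq_false h0, cond_false]
    by_cases h1 : k = (π 1).val
    · rw [decide_eq_true h1, cond_true]; exact hb 1 h1
    · rw [decide_eq_false h1, cond_false]
      by_cases h2 : k = (π 2).val
      · rw [decide_eq_true h2, cond_true]; exact hb 2 h2
      · rw [decide_eq_false h2, cond_false, if_neg]
        intro hQ
        obtain ⟨i, hi⟩ := hno hQ
        rcases fin3_cases i with rfl | rfl | rfl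
        · exact h0 hi
        · exact h1 hi
        · exact h2 hi

theorem reduce2 (hTc : Computable tT) (hgc : Computable g) (f : ℕ → ℕ)
    (L : Fin 3 → ℕ → ℕ → Prop) (π : Equiv.Perm (Fin 3)) (hL : ∀ i, L (π i) = Lf tT g f i) :
    TuringReducible (fun n => Part.some (code L n)) (fun n => Part.some (f n)) := by
  refine cert_reducible (code L) f (C2 tT g) (V2 tT g π) (computable_C2 hTc hgc)
    (computable_V2 hTc hgc π) ?_ ?_
  · intro n
    refine ⟨Encodable.encode ((List.range (mb tT g n)).map f), ?_⟩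
    intro p hp
    unfold C2 at hp
    rw [Denumerable.ofNat_encode] at hp
    obtain ⟨j, hj, rfl⟩ := List.mem_map.mp hp
    have hj' := List.mem_range.mp hj
    simp only
    rw [List.getD_eq_getElem _ _ (by simpa using hj')]
    simp
  · intro n s hs
    have hval : ∀ j < mb tT g n, (Denumerable.ofNat (List ℕ) s).getD j 0 = f j := by
      intro j hj
      exact (hs (j, (Denumerable.ofNat (List ℕ) s).getD j 0) (by
        unfold C2
        exact List.mem_map.mpr ⟨j, List.mem_range.mpr hj, rfl⟩)).symm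
    have hv2 : ∀ i, (v2 tT g i n s = true ↔
        L (π i) n.unpair.2.unpair.1 n.unpair.2.unpair.2) := by
      intro i
      rw [hL i]
      unfold v2 Lf
      rw [Bool.or_eq_true, decide_eq_true_eq, kdb_iff, st_congr hval]
      apply or_congr Iff.rfl
      exact (keylt_approx f (mb tT g n) i _ _ (by unfold mb; omega) (by unfold mb; omega)
        (by unfold mb; omega) (by unfold mb; omega)).symm
    classical
    rw [code_eq]
    refine vfinal π _ n.unpair.1 (fun i => v2 tT g i n s) ?_ ?_
    · intro i hi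
      rw [hv2 i]
      constructor
      · rintro ⟨hlt, h⟩
        have : (⟨n.unpair.1, hlt⟩ : Fin 3) = π i := Fin.ext hi
        rw [this] at h
        exact h
      · intro h
        have hlt : n.unpair.1 < 3 := by rw [hi]; exact (π i).2
        refine ⟨hlt, ?_⟩
        have : (⟨n.unpair.1, hlt⟩ : Fin 3) = π i := Fin.ext hi
        rw [this]
        exact h
    · rintro ⟨hlt, -⟩
      obtain ⟨i, hi⟩ := π.surjective ⟨n.unpair.1, hlt⟩
      exact ⟨i, by rw [hi]⟩

end

/-- Every computably bounded `Π⁰₁` class represents, up to permutation of the orderings in a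
solution, the class of solutions of the 3-dimensionality problem for some computable partial
ordering. -/
theorem representation (P : Set (ℕ → ℕ)) (hP : IsCBClass P) :
    ∃ (A : Set ℕ) (R : ℕ → ℕ → Prop), IsComputablePO A R ∧ RepresentsUpToPerm P A R 3 := by
  classical
  obtain ⟨T, hTree, hTc, ⟨g, hgc, hbd⟩, rfl⟩ := hP
  by_cases hemp : (paths T).Nonempty
  swap
  · refine ⟨_, R4, po4, fun s => (no_sol4 s.1 s.2).elim, ?_, ?_, ?_⟩
    · intro y
      exact absurd ⟨y.1, y.2⟩ hemp
    · intro s
      exact (no_sol4 s.1 s.2).elim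
    · intro s
      exact (no_sol4 s.1 s.2).elim
  obtain ⟨f0, hf0⟩ := hemp
  obtain ⟨t0, ht0c, ht0⟩ := ComputablePred.computable_iff.mp hTc
  have ht0' : ∀ σ, σ ∈ T ↔ t0 σ = true := fun σ => by
    have := congrFun ht0 σ
    simpa using this
  have hnil : t0 [] = true := (ht0' []).mp (hf0 0)
  have hT : TreeHyp t0 g :=
    { tree := fun σ τ h1 h2 => (ht0' σ).mp (hTree σ τ h1 ((ht0' τ).mpr h2))
      nil := hnil
      bd := fun σ i h => hbd σ i ((ht0' _).mpr h) }
  have hpaths : ∀ f, f ∈ paths T ↔ ∀ n, t0 ((List.range n).map f) = true := by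
    intro f
    exact forall_congr' fun n => ht0' _
  refine ⟨Set.univ, Rn t0 g, ⟨Rn_po hT f0 ((hpaths f0).mp hf0), ?_, Rn_computable ht0c hgc⟩, ?_⟩
  · rw [ComputablePred.computable_iff]
    exact ⟨fun _ => true, Computable.const true, by simp⟩
  have hex : ∀ s : Solutions Set.univ (Rn t0 g) 3, ∃ (f : ℕ → ℕ) (π : Equiv.Perm (Fin 3)),
      (∀ n, t0 ((List.range n).map f) = true) ∧ ∀ i, s.1 (π i) = Lf t0 g f i :=
    fun s => sol_path hT s.1 s.2
  choose F π hF hπ using hex
  refine ⟨fun s => ⟨F s, (hpaths _).mpr (hF s)⟩, ?_, ?_, ?_⟩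
  · rintro ⟨f, hf⟩
    refine ⟨⟨Lf t0 g f, Lf_sol hT f ((hpaths f).mp hf)⟩, ?_⟩
    apply Subtype.ext
    set s : Solutions Set.univ (Rn t0 g) 3 := ⟨Lf t0 g f, Lf_sol hT f ((hpaths f).mp hf)⟩ with hs
    have h1 := hπ s
    exact Lf_unique (tT := t0) (g := g) (π s) (fun i => (h1 i).symm)
  · intro s t
    constructor
    · intro h
      have h' : F s = F t := congrArg Subtype.val h
      refine ⟨(π t).symm.trans (π s), ?_⟩
      intro i
      have h1 := hπ t ((π t).symm i)
      have h2 := hπ s ((π t).symm i)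
      rw [Equiv.apply_symm_apply] at h1
      rw [h1, ← h', ← h2]
      rfl
    · rintro ⟨ρ, hρ⟩
      apply Subtype.ext
      change F s = F t
      refine Lf_unique (tT := t0) (g := g) (((π s).trans ρ.symm).trans (π t).symm) ?_
      intro i
      rw [← hπ s i, ← hπ t]
      simp only [Equiv.trans_apply, Equiv.apply_symm_apply]
      rw [hρ]
      simp
  · intro s
    exact ⟨reduce1 (F s) s.1 (π s 0) (hπ s 0), reduce2 ht0c hgc (F s) s.1 (π s) (hπ s)⟩

end Pool.Agent.Work.MP_02e4ca_lc.Final
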